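import Mathlib

/-!
# Unitriangular factorisations: the block step

`Up r`, `Lo r` are the upper and lower unitriangular integer matrices for the order of the index
type which is given by the injective rank function `r`; `Good r` are the products
upper times lower times upper times lower.
-/

namespace Pool.Agent.K6.H19.UT

open Matrix

variable {ι κ : Type*} [Fintype ι] [DecidableEq ι] [Fintype κ] [DecidableEq κ]

/-- Upper unitriangular matrices for the rank function `r`. -/
def Up (r : ι → ℕ) (M : Matrix ι ι ℤ) : Prop :=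
  (∀ i, M i i = 1) ∧ ∀ i j, r j < r i → M i j = 0

/-- Lower unitriangular matrices for the rank function `r`. -/
def Lo (r : ι → ℕ) (M : Matrix ι ι ℤ) : Prop :=
  (∀ i, M i i = 1) ∧ ∀ i j, r i < r j → M i j = 0

/-- Products upper * lower * upper * lower. -/
def Good (r : ι → ℕ) (M : Matrix ι ι ℤ) : Prop :=
  ∃ a b c d, Up r a ∧ Lo r b ∧ Up r c ∧ Lo r d ∧ M = a * b * c * d

lemma Up.one (r : ι → ℕ) : Up r (1 : Matrix ι ι ℤ) :=
  ⟨fun i => by simp, fun i j h => by
    rw [Matrix.one_apply_ne]; rintro rfl; exact lt_irrefl _ h⟩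

lemma Lo.one (r : ι → ℕ) : Lo r (1 : Matrix ι ι ℤ) :=
  ⟨fun i => by simp, fun i j h => by
    rw [Matrix.one_apply_ne]; rintro rfl; exact lt_irrefl _ h⟩

lemma Up.mul {r : ι → ℕ} (hr : Function.Injective r) {M N : Matrix ι ι ℤ} (hM : Up r M)
    (hN : Up r N) : Up r (M * N) := by
  constructor
  · intro i
    rw [Matrix.mul_apply, Finset.sum_eq_single i]
    · rw [hM.1, hN.1, one_mul]
    · intro j _ hj
      rcases lt_trichotomy (r i) (r j) with h | h | h
      · rw [hN.2 j i h, mul_zero]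
      · exact absurd (hr h).symm hj
      · rw [hM.2 i j h, zero_mul]
    · intro h; exact absurd (Finset.mem_univ i) h
  · intro i j h
    rw [Matrix.mul_apply]
    apply Finset.sum_eq_zero
    intro k _
    rcases lt_or_ge (r k) (r i) with h1 | h1
    · rw [hM.2 i k h1, zero_mul]
    · rw [hN.2 k j (lt_of_lt_of_le h h1), mul_zero]

lemma Up.transpose {r : ι → ℕ} {M : Matrix ι ι ℤ} (hM : Up r M) : Lo r Mᵀ :=
  ⟨fun i => hM.1 i, fun i j h => hM.2 j i h⟩

lemma Lo.transpose {r : ι → ℕ} {M : Matrix ι ι ℤ} (hM : Lo r M) : Up r Mᵀ :=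
  ⟨fun i => hM.1 i, fun i j h => hM.2 j i h⟩

lemma Lo.mul {r : ι → ℕ} (hr : Function.Injective r) {M N : Matrix ι ι ℤ} (hM : Lo r M)
    (hN : Lo r N) : Lo r (M * N) := by
  have h := (Up.mul hr hN.transpose hM.transpose).transpose
  rwa [← Matrix.transpose_mul, Matrix.transpose_transpose] at h

lemma Up.det {r : ι → ℕ} (hr : Function.Injective r) {M : Matrix ι ι ℤ} (hM : Up r M) :
    M.det = 1 := by
  have h : M.BlockTriangular r := fun i j h => hM.2 i j h
  rw [h.det]
  apply Finset.prod_eq_one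
  intro a _
  have hs : Subsingleton {i // r i = a} :=
    ⟨fun x y => Subtype.ext (hr (x.2.trans y.2.symm))⟩
  by_cases hne : Nonempty {i // r i = a}
  · obtain ⟨x⟩ := hne
    rw [Matrix.det_eq_elem_of_subsingleton _ x]
    exact hM.1 x.1
  · haveI : IsEmpty {i // r i = a} := not_nonempty_iff.mp hne
    exact Matrix.det_isEmpty

lemma Lo.det {r : ι → ℕ} (hr : Function.Injective r) {M : Matrix ι ι ℤ} (hM : Lo r M) :
    M.det = 1 := by
  rw [← Matrix.det_transpose]
  exact hM.transpose.det hr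

lemma Good.det {r : ι → ℕ} (hr : Function.Injective r) {M : Matrix ι ι ℤ} (hM : Good r M) :
    M.det = 1 := by
  obtain ⟨a, b, c, d, ha, hb, hc, hd, rfl⟩ := hM
  rw [Matrix.det_mul, Matrix.det_mul, Matrix.det_mul, ha.det hr, hb.det hr, hc.det hr, hd.det hr]
  norm_num

lemma Good.one (r : ι → ℕ) : Good r (1 : Matrix ι ι ℤ) :=
  ⟨1, 1, 1, 1, Up.one r, Lo.one r, Up.one r, Lo.one r, by simp⟩

lemma Good.mul_left {r : ι → ℕ} (hr : Function.Injective r) {X M : Matrix ι ι ℤ} (hX : Up r X)
    (hM : Good r M) : Good r (X * M) := by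
  obtain ⟨a, b, c, d, ha, hb, hc, hd, rfl⟩ := hM
  exact ⟨X * a, b, c, d, hX.mul hr ha, hb, hc, hd, by simp only [Matrix.mul_assoc]⟩

lemma Good.mul_right {r : ι → ℕ} (hr : Function.Injective r) {X M : Matrix ι ι ℤ} (hX : Lo r X)
    (hM : Good r M) : Good r (M * X) := by
  obtain ⟨a, b, c, d, ha, hb, hc, hd, rfl⟩ := hM
  exact ⟨a, b, c, d * X, ha, hb, hc, hd.mul hr hX, by simp only [Matrix.mul_assoc]⟩

lemma Good.transpose {r : ι → ℕ} {M : Matrix ι ι ℤ} (hM : Good r M) : Good r Mᵀ := by
  obtain ⟨a, b, c, d, ha, hb, hc, hd, rfl⟩ := hM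
  exact ⟨dᵀ, cᵀ, bᵀ, aᵀ, hd.transpose, hc.transpose, hb.transpose, ha.transpose, by
    simp only [Matrix.transpose_mul, Matrix.mul_assoc]⟩

/-- Transport of factorisations along an order preserving bijection of the index types. -/
lemma Good.of_equiv (e : ι ≃ κ) {r : ι → ℕ} {s : κ → ℕ}
    (h : ∀ i j, r i < r j ↔ s (e i) < s (e j)) {M : Matrix κ κ ℤ} :
    Good r (M.submatrix e e) ↔ Good s M := by
  constructor
  · rintro ⟨a, b, c, d, ha, hb, hc, hd, hM⟩
    have key : ∀ x : Matrix ι ι ℤ, Up r x → Up s (x.submatrix e.symm e.symm) := by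
      intro x hx
      refine ⟨fun i => hx.1 _, fun i j hij => hx.2 _ _ ?_⟩
      rw [h]; simpa using hij
    have key' : ∀ x : Matrix ι ι ℤ, Lo r x → Lo s (x.submatrix e.symm e.symm) := by
      intro x hx
      refine ⟨fun i => hx.1 _, fun i j hij => hx.2 _ _ ?_⟩
      rw [h]; simpa using hij
    refine ⟨_, _, _, _, key a ha, key' b hb, key c hc, key' d hd, ?_⟩
    rw [Matrix.submatrix_mul_equiv, Matrix.submatrix_mul_equiv, Matrix.submatrix_mul_equiv, ← hM]
    simp
  · rintro ⟨a, b, c, d, ha, hb, hc, hd, hM⟩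
    have key : ∀ x : Matrix κ κ ℤ, Up s x → Up r (x.submatrix e e) := by
      intro x hx
      refine ⟨fun i => hx.1 _, fun i j hij => hx.2 _ _ ?_⟩
      rwa [← h]
    have key' : ∀ x : Matrix κ κ ℤ, Lo s x → Lo r (x.submatrix e e) := by
      intro x hx
      refine ⟨fun i => hx.1 _, fun i j hij => hx.2 _ _ ?_⟩
      rwa [← h]
    refine ⟨_, _, _, _, key a ha, key' b hb, key c hc, key' d hd, ?_⟩
    rw [Matrix.submatrix_mul_equiv, Matrix.submatrix_mul_equiv, Matrix.submatrix_mul_equiv, ← hM]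

lemma Good.congr_rank {r s : ι → ℕ} (h : ∀ i j, r i < r j ↔ s i < s j) {M : Matrix ι ι ℤ} :
    Good r M ↔ Good s M := by
  have := Good.of_equiv (Equiv.refl ι) (r := r) (s := s) h (M := M)
  simpa using this

/-- **The block step.** -/
theorem Good.block {r : ι → ℕ} {s : κ → ℕ} (hr : Function.Injective r)
    (hs : Function.Injective s) (hrs : ∀ i j, r i < s j)
    (A : Matrix ι ι ℤ) (B : Matrix ι κ ℤ) (C : Matrix κ ι ℤ) (D : Matrix κ κ ℤ)
    (R : Matrix ι κ ℤ) (W : Matrix κ ι ℤ) (L : Matrix ι ι ℤ) (L' : Matrix ι ι ℤ)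
    (hL : L = A + R * C + (B + R * D) * W) (hL' : L * L' = 1)
    (hgL : Good r L) (hgS : Good s (D - (C + D * W) * L' * (B + R * D))) :
    Good (Sum.elim r s) (fromBlocks A B C D) := by
  obtain ⟨a, b, c, d, ha, hb, hc, hd, hLe⟩ := hgL
  obtain ⟨a', b', c', d', ha', hb', hc', hd', hSe⟩ := hgS
  have hab : IsUnit (a * b).det := by
    rw [Matrix.det_mul, ha.det hr, hb.det hr]; norm_num
  have hcd : IsUnit (c * d).det := by
    rw [Matrix.det_mul, hc.det hr, hd.det hr]; norm_num
  have hd1 : IsUnit d'.det := by rw [hd'.det hs]; norm_num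
  have ha1 : IsUnit a'.det := by rw [ha'.det hs]; norm_num
  set β := B + R * D with hβ
  set κ' := C + D * W with hκ
  set X := a'⁻¹ * κ' * (c * d)⁻¹ with hX
  set Y := (a * b)⁻¹ * β * d'⁻¹ with hY
  have e1 : a' * X * (c * d) = κ' := by
    rw [hX]
    calc a' * (a'⁻¹ * κ' * (c * d)⁻¹) * (c * d)
        = (a' * a'⁻¹) * κ' * ((c * d)⁻¹ * (c * d)) := by simp only [Matrix.mul_assoc]
      _ = κ' := by rw [Matrix.mul_nonsing_inv _ ha1, Matrix.nonsing_inv_mul _ hcd]; simp
  have e2 : (a * b) * Y * d' = β := by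
    rw [hY]
    calc (a * b) * ((a * b)⁻¹ * β * d'⁻¹) * d'
        = ((a * b) * (a * b)⁻¹) * β * (d'⁻¹ * d') := by simp only [Matrix.mul_assoc]
      _ = β := by rw [Matrix.mul_nonsing_inv _ hab, Matrix.nonsing_inv_mul _ hd1]; simp
  have hLu : IsUnit L.det := by
    rw [hLe, Matrix.mul_assoc (a * b), Matrix.det_mul]
    exact hab.mul hcd
  have hLinv : L' = (c * d)⁻¹ * (a * b)⁻¹ := by
    have h1 : L = (a * b) * (c * d) := by rw [hLe]; simp only [Matrix.mul_assoc]
    have h2 : (c * d)⁻¹ * (a * b)⁻¹ * L = 1 := by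
      rw [h1]
      calc (c * d)⁻¹ * (a * b)⁻¹ * ((a * b) * (c * d))
          = (c * d)⁻¹ * ((a * b)⁻¹ * (a * b)) * (c * d) := by simp only [Matrix.mul_assoc]
        _ = 1 := by
          rw [Matrix.nonsing_inv_mul _ hab, Matrix.mul_one, Matrix.nonsing_inv_mul _ hcd]
    calc L' = ((c * d)⁻¹ * (a * b)⁻¹ * L) * L' := by rw [h2, Matrix.one_mul]
      _ = (c * d)⁻¹ * (a * b)⁻¹ * (L * L') := by simp only [Matrix.mul_assoc]
      _ = _ := by rw [hL', Matrix.mul_one]
  have e3 : a' * X * Y * d' = κ' * L' * β := by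
    have : a' * X = κ' * (c * d)⁻¹ := by
      rw [hX]
      calc a' * (a'⁻¹ * κ' * (c * d)⁻¹) = (a' * a'⁻¹) * (κ' * (c * d)⁻¹) := by
            simp only [Matrix.mul_assoc]
        _ = _ := by rw [Matrix.mul_nonsing_inv _ ha1, Matrix.one_mul]
    have h2 : Y * d' = (a * b)⁻¹ * β := by
      rw [hY]
      calc (a * b)⁻¹ * β * d'⁻¹ * d' = (a * b)⁻¹ * β * (d'⁻¹ * d') := by
            simp only [Matrix.mul_assoc]
        _ = _ := by rw [Matrix.nonsing_inv_mul _ hd1, Matrix.mul_one]
    calc a' * X * Y * d' = (a' * X) * (Y * d') := by simp only [Matrix.mul_assoc]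
      _ = κ' * ((c * d)⁻¹ * (a * b)⁻¹) * β := by rw [this, h2]; simp only [Matrix.mul_assoc]
      _ = _ := by rw [← hLinv]
  refine ⟨fromBlocks a (-(R * a')) 0 a', fromBlocks b 0 X b', fromBlocks c Y 0 c',
    fromBlocks d 0 (-(d' * W)) d', ?_, ?_, ?_, ?_, ?_⟩
  · refine ⟨?_, ?_⟩
    · rintro (i | i)
      · simpa using ha.1 i
      · simpa using ha'.1 i
    · rintro (i | i) (j | j) h
      · exact ha.2 i j h
      · exact absurd h (not_lt.mpr (hrs i j).le)
      · rfl
      · exact ha'.2 i j h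
  · refine ⟨?_, ?_⟩
    · rintro (i | i)
      · simpa using hb.1 i
      · simpa using hb'.1 i
    · rintro (i | i) (j | j) h
      · exact hb.2 i j h
      · rfl
      · exact absurd h (not_lt.mpr (hrs j i).le)
      · exact hb'.2 i j h
  · refine ⟨?_, ?_⟩
    · rintro (i | i)
      · simpa using hc.1 i
      · simpa using hc'.1 i
    · rintro (i | i) (j | j) h
      · exact hc.2 i j h
      · exact absurd h (not_lt.mpr (hrs i j).le)
      · rfl
      · exact hc'.2 i j h
  · refine ⟨?_, ?_⟩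
    · rintro (i | i)
      · simpa using hd.1 i
      · simpa using hd'.1 i
    · rintro (i | i) (j | j) h
      · exact hd.2 i j h
      · rfl
      · exact absurd h (not_lt.mpr (hrs j i).le)
      · exact hd'.2 i j h
  · -- the product
    simp only [Matrix.fromBlocks_multiply, Matrix.mul_zero, Matrix.zero_mul, add_zero, zero_add]
    have hLe' : a * b * c * d = L := hLe.symm
    have hSe' : a' * b' * c' * d' = D - κ' * L' * β := hSe.symm
    have f22 : a' * X * Y * d' + a' * b' * c' * d' = D := by rw [e3, hSe']; abel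
    have f21' : a' * X * c * d = κ' := by rw [← e1]; simp only [Matrix.mul_assoc]
    have f12' : a * b * Y * d' = β := by rw [← e2]
    have hC : C = κ' - D * W := by rw [hκ]; abel
    have hB : B = β - R * D := by rw [hβ]; abel
    have hA : A = L - R * C - β * W := by rw [hL]; abel
    have t22 : a' * X * Y * d' + a' * b' * c' * d' = D := f22
    congr 1
    · -- A
      have : (a * b + -(R * a') * X) * c * d + ((a * b + -(R * a') * X) * Y + -(R * a') * b' * c') *
          (-(d' * W)) = (a * b * c * d) - R * (a' * X * c * d) -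
          (a * b * Y * d') * W + R * (a' * X * Y * d' + a' * b' * c' * d') * W := by
        simp only [Matrix.add_mul, Matrix.mul_add, Matrix.neg_mul, Matrix.mul_neg,
          Matrix.mul_assoc, neg_neg, neg_add]
        abel
      rw [this, hLe', f21', f12', f22, hA, hC]
      simp only [Matrix.mul_sub, Matrix.mul_assoc]
      abel
    · have : ((a * b + -(R * a') * X) * Y + -(R * a') * b' * c') * d' =
          (a * b * Y * d') - R * (a' * X * Y * d' + a' * b' * c' * d') := by
        simp only [Matrix.add_mul, Matrix.mul_add, Matrix.neg_mul, Matrix.mul_neg,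
          Matrix.mul_assoc, neg_neg, neg_add]
        abel
      rw [this, f12', f22, hB]
    · have : a' * X * c * d + (a' * X * Y + a' * b' * c') * (-(d' * W)) =
          (a' * X * c * d) - (a' * X * Y * d' + a' * b' * c' * d') * W := by
        simp only [Matrix.add_mul, Matrix.mul_add, Matrix.neg_mul, Matrix.mul_neg,
          Matrix.mul_assoc, neg_neg, neg_add]
        abel
      rw [this, f21', f22, hC]
    · rw [Matrix.add_mul, f22]

end Pool.Agent.K6.H19.UT
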