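import Pool.Agent.K6.H19.UT.Elem

/-!
# Bounded generation of `SL₃(ℤ)`: the arithmetic part
-/

set_option linter.unusedSectionVars false
set_option linter.unusedSimpArgs false

namespace Pool.Agent.K6.H19.UT

open Matrix

/-- Dirichlet's theorem for progressions `b + a x` which also satisfy a congruence. -/
lemma exists_prime_in {a N : ℤ} (ha : a ≠ 0) (hN : N ≠ 0) {e : ℤ}
    (h1 : IsCoprime e a) (h2 : IsCoprime e N) :
    ∃ (p : ℕ) (u : ℤ), p.Prime ∧ (p : ℤ) = e + a * N * u := by
  have hq : (a * N).natAbs ≠ 0 := by simpa using mul_ne_zero ha hN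
  have hcop : IsCoprime e (((a * N).natAbs : ℕ) : ℤ) := by
    rw [Int.natCast_natAbs, IsCoprime.abs_right_iff]
    exact IsCoprime.mul_right h1 h2
  obtain ⟨p, -, hp, hpe⟩ := Nat.forall_exists_prime_gt_and_zmodEq 0 hq hcop
  have h3 : a * N ∣ (p : ℤ) - e := by
    have := (Int.modEq_iff_dvd.mp hpe.symm)
    exact (Int.natAbs_dvd.mp this)
  obtain ⟨u, hu⟩ := h3
  exact ⟨p, u, hp, by linear_combination hu⟩

/-- both off-diagonal entries may be made prime -/
lemma exists_primes {a b c d : ℤ} (ha : Odd a) (h : a * d - b * c = 1) :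
    ∃ (p r : ℕ) (u v : ℤ), p.Prime ∧ r.Prime ∧ (p : ℤ) = b + a * u ∧ (r : ℤ) = c + a * v ∧
      Nat.Coprime ((p - 1) / 2) (r - 1) ∧ 2 * ((p - 1) / 2) = p - 1 := by
  have ha0 : a ≠ 0 := by rintro rfl; simp at ha
  have hab : IsCoprime a b := ⟨d, -c, by linear_combination h⟩
  have hac : IsCoprime a c := ⟨d, -b, by linear_combination h⟩
  -- the first prime
  obtain ⟨k, hk⟩ := ha
  obtain ⟨p, u, hp, hpu⟩ := exists_prime_in (a := a) (N := 4) (e := b + a * (a * (3 - b))) ha0
    (by norm_num) (IsCoprime.add_mul_left_left hab.symm _) (by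
      have he : b + a * (a * (3 - b)) = 3 + 4 * ((k ^ 2 + k) * (3 - b)) := by
        rw [hk]; ring
      rw [he]
      have : IsCoprime (3 : ℤ) 4 := ⟨-1, 1, by norm_num⟩
      exact IsCoprime.add_mul_left_left this _)
  have hp4 : ∃ f : ℤ, (p : ℤ) = 3 + 4 * f := by
    refine ⟨(k ^ 2 + k) * (3 - b) + a * u, ?_⟩
    rw [hpu, hk]; ring
  have hp3 : ∃ s : ℕ, p = 2 * s + 1 ∧ Odd s := by
    obtain ⟨f, hf⟩ := hp4
    have hf0 : 0 ≤ f := by
      by_contra hneg
      have : (0 : ℤ) ≤ (p : ℤ) := Int.natCast_nonneg p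
      omega
    obtain ⟨f', rfl⟩ := Int.eq_ofNat_of_zero_le hf0
    refine ⟨2 * f' + 1, by omega, ⟨f', rfl⟩⟩
  obtain ⟨s, hps, hsodd⟩ := hp3
  have hs0 : s ≠ 0 := by rintro rfl; simp at hsodd
  set N : ℕ := ∏ l ∈ s.primeFactors.filter (fun l : ℕ => ¬ (l : ℤ) ∣ a), l with hN
  have hN0 : N ≠ 0 := by
    rw [hN]
    apply Finset.prod_ne_zero_iff.mpr
    intro l hl
    exact (Nat.prime_of_mem_primeFactors (Finset.mem_filter.mp hl).1).ne_zero
  have hNodd : Odd N := by
    rw [hN]
    apply Finset.prod_induction _ Odd (fun _ _ => Odd.mul) odd_one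
    intro l hl
    exact Odd.of_dvd_nat hsodd (Nat.dvd_of_mem_primeFactors (Finset.mem_filter.mp hl).1)
  have hNa : IsCoprime a (N : ℤ) := by
    rw [hN]
    push_cast
    apply IsCoprime.prod_right
    intro l hl
    have hl' := Finset.mem_filter.mp hl
    have hlp := Nat.prime_of_mem_primeFactors hl'.1
    rw [isCoprime_comm, Prime.coprime_iff_not_dvd (Nat.prime_iff_prime_int.mp hlp)]
    exact hl'.2
  obtain ⟨x, y, hxy⟩ := hNa
  obtain ⟨g, hg⟩ := hNodd
  obtain ⟨r, v, hr, hrv⟩ := exists_prime_in (a := a) (N := (N : ℤ)) (e := c + a * (x * (2 - c)))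
    ha0 (by exact_mod_cast hN0) (IsCoprime.add_mul_left_left hac.symm _) (by
      have he : c + a * (x * (2 - c)) = 2 + (N : ℤ) * (-y * (2 - c)) := by
        linear_combination (2 - c) * hxy
      rw [he]
      refine IsCoprime.add_mul_left_left ?_ _
      exact ⟨-g, 1, by rw [hg]; push_cast; ring⟩)
  refine ⟨p, r, a * (3 - b) + 4 * u, x * (2 - c) + N * v, hp, hr, ?_, ?_, ?_, ?_⟩
  · rw [hpu]; ring
  · rw [hrv]; ring
  · have hps2 : (p - 1) / 2 = s := by omega
    rw [hps2]
    rw [Nat.coprime_iff_gcd_eq_one]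
    by_contra hgcd
    obtain ⟨l, hl, hldvd⟩ := Nat.exists_prime_and_dvd hgcd
    have hls : l ∣ s := hldvd.trans (Nat.gcd_dvd_left _ _)
    have hlr : l ∣ r - 1 := hldvd.trans (Nat.gcd_dvd_right _ _)
    have hlodd : Odd l := Odd.of_dvd_nat hsodd hls
    have hlr' : (l : ℤ) ∣ (r : ℤ) - 1 := by
      have := Int.natCast_dvd_natCast.mpr hlr
      rwa [Nat.cast_sub hr.one_lt.le, Nat.cast_one] at this
    have hlp' : (l : ℤ) ∣ (p : ℤ) - 1 := by
      have : (p : ℤ) - 1 = 2 * s := by rw [hps]; push_cast; ring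
      rw [this]
      exact Dvd.dvd.mul_left (Int.natCast_dvd_natCast.mpr hls) _
    have hl2 : ¬ (l : ℤ) ∣ 2 := by
      intro h2
      have h3 : l ∣ 2 := by exact_mod_cast h2
      have h4 := (Nat.prime_dvd_prime_iff_eq hl Nat.prime_two).mp h3
      rw [h4] at hlodd
      exact absurd hlodd (by decide)
    by_cases hla : (l : ℤ) ∣ a
    · -- `r ≡ c ≡ -1`
      apply hl2
      obtain ⟨a', ha'⟩ := hla
      obtain ⟨r', hr'⟩ := hlr'
      obtain ⟨p', hp'⟩ := hlp'
      -- p c ≡ -1 mod l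
      have e1 : (r : ℤ) = 1 + l * r' := by linear_combination hr'
      have e2 : (p : ℤ) = 1 + l * p' := by linear_combination hp'
      have e3 : c = r - a * (x * (2 - c)) - a * N * v := by rw [hrv]; ring
      have e4 : b = p - a * (a * (3 - b)) - a * 4 * u := by rw [hpu]; ring
      -- a d - b c = 1
      have e5 : (2 : ℤ) = a * d - b * c + 1 := by rw [h]; ring
      have e6 : (l : ℤ) ∣ b - 1 := by
        have : b - 1 = (p - 1) - l * (a' * (a * (3 - b)) + a' * 4 * u) := by
          rw [ha'] at e4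
          linear_combination e4 + (l : ℤ) * a' * (3 - b) * ha'
        rw [this]
        exact dvd_sub ⟨p', hp'⟩ (dvd_mul_right _ _)
      have e7 : (l : ℤ) ∣ c - 1 := by
        have : c - 1 = (r - 1) - l * (a' * (x * (2 - c)) + a' * N * v) := by
          rw [ha'] at e3
          linear_combination e3
        rw [this]
        exact dvd_sub ⟨r', hr'⟩ (dvd_mul_right _ _)
      have e8 : (2 : ℤ) = l * (a' * d) - (b - 1) * c - (c - 1) := by
        rw [e5, ha']; ring
      rw [e8]
      exact dvd_sub (dvd_sub (dvd_mul_right _ _) (Dvd.dvd.mul_right e6 _)) e7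
    · -- `r ≡ 2`
      have hlN : l ∣ N := by
        rw [hN]
        apply Finset.dvd_prod_of_mem
        rw [Finset.mem_filter]
        exact ⟨Nat.mem_primeFactors.mpr ⟨hl, hls, hs0⟩, hla⟩
      have h2 : (l : ℤ) ∣ (r : ℤ) - 2 := by
        have : (r : ℤ) - 2 = N * (-y * (2 - c) + a * v) := by
          rw [hrv]; linear_combination (2 - c) * hxy
        rw [this]
        exact Dvd.dvd.mul_right (Int.natCast_dvd_natCast.mpr hlN) _
      have h3 : (l : ℤ) ∣ 1 := by
        have := dvd_sub hlr' h2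
        have e : (r : ℤ) - 1 - (r - 2) = 1 := by ring
        rwa [e] at this
      have h4 : l ∣ 1 := by exact_mod_cast h3
      exact hl.one_lt.ne' (Nat.dvd_one.mp h4)
  · omega

/-- `SL₂(ℤ)` in `SL₃(ℤ)`: odd case. -/
lemma El.odd_case {a b c d : ℤ} (ha : Odd a) (h : a * d - b * c = 1) : El 41 (E a b c d) := by
  obtain ⟨p, r, u, v, hp, hr, hpu, hrv, hcop, hp2⟩ := exists_primes ha h
  set d₁ := c * u + d with hd₁
  have h1 : a * d₁ - p * c = 1 := by rw [hpu, hd₁]; linear_combination h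
  set d₂ := v * p + d₁ with hd₂
  have h2 : a * d₂ - p * r = 1 := by rw [hrv, hd₂]; linear_combination h1
  have hap : IsCoprime a (p : ℤ) := ⟨d₁, -c, by linear_combination h1⟩
  have har : IsCoprime a (r : ℤ) := ⟨d₂, -p, by linear_combination h2⟩
  have hfp := (Int.ModEq.pow_card_sub_one_eq_one hp hap).symm.dvd
  have hfr := (Int.ModEq.pow_card_sub_one_eq_one hr har).symm.dvd
  have hs : (p : ℤ) ∣ a ^ ((p - 1) / 2) - 1 ∨ (p : ℤ) ∣ a ^ ((p - 1) / 2) + 1 := by
    have : a ^ (p - 1) - 1 = (a ^ ((p - 1) / 2) - 1) * (a ^ ((p - 1) / 2) + 1) := by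
      have e1 : a ^ (p - 1) = (a ^ ((p - 1) / 2)) ^ 2 := by
        rw [← pow_mul, mul_comm, hp2]
      rw [e1]; ring
    rw [this] at hfp
    exact (Nat.prime_iff_prime_int.mp hp).dvd_or_dvd hfp
  have key := El.main_case h2 ((p - 1) / 2) (r - 1) hcop hs hfr
  have key2 := ((El.lower (-v)).mul key).mul (El.upper (-u))
  rw [E_mul, E_mul] at key2
  convert key2 using 2
  · ring
  · rw [hpu]; ring
  · rw [hrv]; ring
  · rw [hd₂, hd₁, hpu, hrv]; ring

/-- `SL₂(ℤ)` in `SL₃(ℤ)`: every matrix is a product of 42 elementary matrices. -/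
lemma El.two {a b c d : ℤ} (h : a * d - b * c = 1) : El 42 (E a b c d) := by
  rcases Int.even_or_odd a with ha | ha
  · have hb : Odd b := by
      by_contra hb
      rw [Int.not_odd_iff_even] at hb
      have h1 : Even (a * d - b * c) := (ha.mul_right d).sub (hb.mul_right c)
      rw [h] at h1
      exact absurd h1 (by decide)
    have h2 : (a + b) * d - b * (c + d) = 1 := by linear_combination h
    have key := (El.odd_case (Even.add_odd ha hb) h2).mul (El.lower (-1))
    rw [E_mul] at key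
    convert key using 2
    · ring
    · ring
    · ring
    · ring
  · exact (El.odd_case ha h).mono (by norm_num)

end Pool.Agent.K6.H19.UT
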