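import Mathlib

/-!
# Bounded generation of `SL₃(ℤ)` by elementary matrices
-/

set_option linter.unusedSectionVars false
set_option linter.unusedSimpArgs false

namespace Pool.Agent.K6.H19.UT

open Matrix

/-- Products of `n` elementary matrices of size three. -/
inductive El : ℕ → Matrix (Fin 3) (Fin 3) ℤ → Prop
  | one : El 0 1
  | tv {n : ℕ} {M : Matrix (Fin 3) (Fin 3) ℤ} (i j : Fin 3) (h : i ≠ j) (t : ℤ) :
      El n M → El (n + 1) (M * transvection i j t)

lemma El.single {i j : Fin 3} (h : i ≠ j) (t : ℤ) : El 1 (transvection i j t) := by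
  have := El.tv i j h t El.one
  rwa [Matrix.one_mul] at this

lemma El.mul {m n : ℕ} {M N : Matrix (Fin 3) (Fin 3) ℤ} (hM : El m M) (hN : El n N) :
    El (m + n) (M * N) := by
  induction hN with
  | one => rwa [Matrix.mul_one]
  | tv i j h t _ ih => rw [← Matrix.mul_assoc]; exact El.tv i j h t ih

lemma El.mono {m n : ℕ} (hmn : m ≤ n) {M : Matrix (Fin 3) (Fin 3) ℤ} (hM : El m M) : El n M := by
  induction hmn with
  | refl => exact hM
  | step _ ih =>
    have := El.tv 0 1 (by decide) 0 ih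
    rwa [transvection_zero, Matrix.mul_one] at this

lemma transvection_transpose (i j : Fin 3) (t : ℤ) :
    (transvection i j t)ᵀ = transvection j i t := by
  ext a b
  simp [transvection, Matrix.one_apply, Matrix.single_apply, eq_comm, and_comm]

lemma El.transpose {n : ℕ} {M : Matrix (Fin 3) (Fin 3) ℤ} (hM : El n M) : El n Mᵀ := by
  induction hM with
  | one => rw [Matrix.transpose_one]; exact El.one
  | tv i j h t _ ih =>
    rw [Matrix.transpose_mul, transvection_transpose, add_comm]
    exact (El.single h.symm t).mul ih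

lemma El.inv {n : ℕ} {M : Matrix (Fin 3) (Fin 3) ℤ} (hM : El n M) : El n M⁻¹ := by
  induction hM with
  | one => rw [inv_one]; exact El.one
  | tv i j h t _ ih =>
    have : (transvection i j t)⁻¹ = transvection i j (-t) := by
      apply Matrix.inv_eq_right_inv
      rw [transvection_mul_transvection_same i j h]; simp
    rw [Matrix.mul_inv_rev, this, add_comm]
    exact (El.single h _).mul ih

lemma El.perm {n : ℕ} {M : Matrix (Fin 3) (Fin 3) ℤ} (hM : El n M) (σ : Equiv.Perm (Fin 3)) :
    El n (M.submatrix σ σ) := by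
  induction hM with
  | one => rw [Matrix.submatrix_one_equiv]; exact El.one
  | tv i j h t _ ih =>
    rw [← Matrix.submatrix_mul_equiv _ _ σ σ σ]
    have : (transvection i j t).submatrix σ σ = transvection (σ.symm i) (σ.symm j) t := by
      ext a b
      simp [transvection, Matrix.one_apply, Matrix.single_apply, Equiv.symm_apply_eq]
    rw [this]
    exact El.tv _ _ (fun h' => h (σ.symm.injective h')) t ih

/-- `SL₂` in the upper left corner. -/
def E (a b c d : ℤ) : Matrix (Fin 3) (Fin 3) ℤ := !![a, b, 0; c, d, 0; 0, 0, 1]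

lemma E_mul (a b c d a' b' c' d' : ℤ) :
    E a b c d * E a' b' c' d' =
      E (a * a' + b * c') (a * b' + b * d') (c * a' + d * c') (c * b' + d * d') := by
  unfold E
  ext i j
  fin_cases i <;> fin_cases j <;> simp [Matrix.mul_apply, Fin.sum_univ_succ]

lemma E_one : E 1 0 0 1 = 1 := by
  unfold E
  ext i j
  fin_cases i <;> fin_cases j <;> simp

lemma E_transpose (a b c d : ℤ) : (E a b c d)ᵀ = E a c b d := by
  unfold E
  ext i j
  fin_cases i <;> fin_cases j <;> simp

lemma E_inv {a b c d : ℤ} (h : a * d - b * c = 1) : (E a b c d)⁻¹ = E d (-b) (-c) a := by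
  apply Matrix.inv_eq_right_inv
  rw [E_mul, ← E_one]
  congr 1
  · linear_combination h
  · ring
  · ring
  · linear_combination h

lemma E_upper (t : ℤ) : E 1 t 0 1 = transvection 0 1 t := by
  unfold E
  ext i j
  fin_cases i <;> fin_cases j <;> simp [transvection, Matrix.single_apply]

lemma E_lower (t : ℤ) : E 1 0 t 1 = transvection 1 0 t := by
  unfold E
  ext i j
  fin_cases i <;> fin_cases j <;> simp [transvection, Matrix.single_apply]

lemma El.upper (t : ℤ) : El 1 (E 1 t 0 1) := by rw [E_upper]; exact El.single (by decide) t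

lemma El.lower (t : ℤ) : El 1 (E 1 0 t 1) := by rw [E_lower]; exact El.single (by decide) t

/-- changing the second row -/
lemma El.row {n : ℕ} {a b c d c' d' : ℤ} (hE : El n (E a b c d)) (h : a * d - b * c = 1)
    (h' : a * d' - b * c' = 1) : El (n + 1) (E a b c' d') := by
  have := (El.lower (c' * d - c * d')).mul hE
  rw [E_mul, add_comm] at this
  convert this using 2
  · ring
  · ring
  · linear_combination (-c') * h + c * h'
  · linear_combination (-d') * h + d * h'

/-- **Multiplicativity.** -/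
lemma El.mult {m n : ℕ} {a b₁ c₁ d₁ b₂ c₂ d₂ : ℤ} (h₁ : a * d₁ - b₁ * c₁ = 1)
    (h₂ : a * d₂ - b₂ * c₂ = 1) (hE₁ : El m (E a b₁ c₁ d₁)) (hE₂ : El n (E a b₂ c₂ d₂)) :
    El (m + n + 4) (E a (b₁ * b₂) (-c₁ * c₂) (d₂ - b₂ * c₂ * d₁)) := by
  have f₁ : El m !![a, 0, b₁; 0, 1, 0; c₁, 0, d₁] := by
    convert hE₁.perm (Equiv.swap 1 2) using 1
    unfold E
    ext i j
    fin_cases i <;> fin_cases j <;> simp [Equiv.swap_apply_def]
  have f₂ : El n !![1, 0, 0; 0, d₂, -c₂; 0, -b₂, a] := by
    have := hE₂.inv.transpose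
    rw [E_inv h₂, E_transpose] at this
    convert this.perm (finRotate 3).symm using 1
    unfold E
    have r0 : (finRotate 3).symm 0 = 2 := by decide
    have r1 : (finRotate 3).symm 1 = 0 := by decide
    have r2 : (finRotate 3).symm 2 = 1 := by decide
    ext i j
    fin_cases i <;> fin_cases j <;> simp [r0, r1, r2]
  have key := (((((El.single (i := 2) (j := 0) (by decide) (-c₁)).mul f₂).mul f₁).mul
    (El.single (i := 2) (j := 1) (by decide) b₂)).mul
    (El.single (i := 0) (j := 2) (by decide) (-(b₁ * d₂)))).mul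
    (El.single (i := 1) (j := 2) (by decide) c₂)
  have hn : 1 + n + m + 1 + 1 + 1 = m + n + 4 := by ring
  rw [hn] at key
  convert key using 1
  have t20 : ∀ t : ℤ, transvection (2 : Fin 3) 0 t = !![1, 0, 0; 0, 1, 0; t, 0, 1] := by
    intro t; ext i j
    fin_cases i <;> fin_cases j <;> simp [transvection, Matrix.single_apply]
  have t21 : ∀ t : ℤ, transvection (2 : Fin 3) 1 t = !![1, 0, 0; 0, 1, 0; 0, t, 1] := by
    intro t; ext i j
    fin_cases i <;> fin_cases j <;> simp [transvection, Matrix.single_apply]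
  have t02 : ∀ t : ℤ, transvection (0 : Fin 3) 2 t = !![1, 0, t; 0, 1, 0; 0, 0, 1] := by
    intro t; ext i j
    fin_cases i <;> fin_cases j <;> simp [transvection, Matrix.single_apply]
  have t12 : ∀ t : ℤ, transvection (1 : Fin 3) 2 t = !![1, 0, 0; 0, 1, t; 0, 0, 1] := by
    intro t; ext i j
    fin_cases i <;> fin_cases j <;> simp [transvection, Matrix.single_apply]
  rw [t20, t21, t02, t12]
  unfold E
  simp only [Matrix.mul_fin_three]
  ext i j
  fin_cases i <;> fin_cases j <;> simp
  all_goals first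
    | ring1
    | linear_combination b₁ * h₂
    | linear_combination c₂ * d₂ * h₁ - c₂ * d₁ * h₂
    | linear_combination (-b₂) * h₁
    | linear_combination -(1 + b₂ * c₂) * h₁

/-- first row `(α, b)` with `α ≡ 1` modulo `b` -/
lemma El.cong_one {α b : ℤ} (h : b ∣ α - 1) :
    ∃ c d, α * d - b * c = 1 ∧ El 2 (E α b c d) := by
  obtain ⟨k, hk⟩ := h
  refine ⟨k, 1, by linear_combination hk, ?_⟩
  have := (El.upper b).mul (El.lower k)
  rw [E_mul] at this
  convert this using 2
  · linear_combination hk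
  · ring
  · ring
  · ring

/-- first row `(α, b)` with `α ≡ -1` modulo `b` -/
lemma El.cong_neg_one {α b : ℤ} (h : b ∣ α + 1) :
    ∃ c d, α * d - b * c = 1 ∧ El 5 (E α b c d) := by
  obtain ⟨k, hk⟩ := h
  refine ⟨-k, -1, by linear_combination -hk, ?_⟩
  have := ((((El.lower (-2)).mul (El.upper 1)).mul (El.lower (-2))).mul
    (El.upper (1 - b))).mul (El.lower k)
  rw [E_mul, E_mul, E_mul, E_mul] at this
  convert this using 2
  · linear_combination hk
  · ring
  · ring
  · ring

/-- Powers. -/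
lemma E_pow {a b c d : ℤ} (h : a * d - b * c = 1) (k : ℕ) :
    ∃ x y : ℤ, (E a b c d) ^ k = E (x * a + y) (x * b) (x * c) (x * d + y) ∧
      (x * a + y) * (x * d + y) - (x * b) * (x * c) = 1 ∧
      b ∣ (x * a + y) - a ^ k ∧ c ∣ (x * a + y) - a ^ k := by
  induction k with
  | zero =>
    refine ⟨0, 1, ?_, by ring, by simp, by simp⟩
    rw [pow_zero, ← E_one]; congr 1 <;> ring
  | succ k ih =>
    obtain ⟨x, y, h1, h2, h3, h4⟩ := ih
    refine ⟨x * (a + d) + y, -x, ?_, ?_, ?_, ?_⟩
    · rw [pow_succ, h1, E_mul]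
      congr 1
      · linear_combination (-x) * h
      · ring
      · ring
      · linear_combination (-x) * h
    · linear_combination h2 + ((x * (a + d) + y) ^ 2 - x ^ 2) * h
    · have : (x * (a + d) + y) * a + -x - a ^ (k + 1) =
          a * (x * a + y - a ^ k) + b * (x * c) := by
        linear_combination x * h
      rw [this]
      exact dvd_add (Dvd.dvd.mul_left h3 _) (dvd_mul_right _ _)
    · have : (x * (a + d) + y) * a + -x - a ^ (k + 1) =
          a * (x * a + y - a ^ k) + c * (x * b) := by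
        linear_combination x * h
      rw [this]
      exact dvd_add (Dvd.dvd.mul_left h4 _) (dvd_mul_right _ _)

/-- The power lemma. -/
lemma El.pow_aux {m : ℕ} {a b c d x y : ℤ} (h2 : (x * a + y) * (x * d + y) - (x * b) * (x * c) = 1)
    (h : a * d - b * c = 1)
    (hm : ∃ c' d', (x * a + y) * d' - b * c' = 1 ∧ El m (E (x * a + y) b c' d')) :
    El (m + 16) (E (x * a + y) (x * b) (x * c) (x * d + y)) := by
  have hx : x ∣ (y - 1) * (y + 1) := by
    refine ⟨-(x + y * (a + d)), ?_⟩
    linear_combination h2 - x ^ 2 * h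
  obtain ⟨x₁, x₂, hx₁, hx₂, rfl⟩ := exists_dvd_and_dvd_of_dvd_mul hx
  set α := x₁ * x₂ * a + y with hα
  obtain ⟨c₁, d₁, e₁, f₁⟩ := El.cong_one (α := α) (b := x₁) (by
    have : α - 1 = (y - 1) + x₁ * (x₂ * a) := by rw [hα]; ring
    rw [this]; exact dvd_add hx₁ (dvd_mul_right _ _))
  obtain ⟨c₂, d₂, e₂, f₂⟩ := El.cong_neg_one (α := α) (b := x₂) (by
    have : α + 1 = (y + 1) + x₂ * (x₁ * a) := by rw [hα]; ring
    rw [this]; exact dvd_add hx₂ (dvd_mul_right _ _))
  obtain ⟨c₃, d₃, e₃, f₃⟩ := hm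
  have g₁ := El.mult e₁ e₂ f₁ f₂
  have e₄ : α * (d₂ - x₂ * c₂ * d₁) - x₁ * x₂ * (-c₁ * c₂) = 1 := by
    linear_combination e₂ - x₂ * c₂ * e₁
  have g₂ := El.mult e₄ e₃ g₁ f₃
  have e₅ : α * (d₃ - b * c₃ * (d₂ - x₂ * c₂ * d₁)) - x₁ * x₂ * b * (-(-c₁ * c₂) * c₃) = 1 := by
    linear_combination e₃ - b * c₃ * e₄
  have g₃ := El.row g₂ e₅ h2
  convert g₃ using 1
  ring

/-- powers with an exponent `k` such that `a ^ k ≡ ± 1` modulo `b` -/
lemma El.pow_row {a b c d : ℤ} (h : a * d - b * c = 1) (k : ℕ)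
    (hk : b ∣ a ^ k - 1 ∨ b ∣ a ^ k + 1) : El 21 ((E a b c d) ^ k) := by
  obtain ⟨x, y, h1, h2, h3, -⟩ := E_pow h k
  rw [h1]
  have : ∃ c' d', (x * a + y) * d' - b * c' = 1 ∧ El 5 (E (x * a + y) b c' d') := by
    rcases hk with hk | hk
    · obtain ⟨c', d', e, f⟩ := El.cong_one (α := x * a + y) (b := b) (by
        have e1 : x * a + y - 1 = (x * a + y - a ^ k) + (a ^ k - 1) := by ring
        rw [e1]; exact dvd_add h3 hk)
      exact ⟨c', d', e, f.mono (by norm_num)⟩
    · exact El.cong_neg_one (α := x * a + y) (b := b) (by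
        have e1 : x * a + y + 1 = (x * a + y - a ^ k) + (a ^ k + 1) := by ring
        rw [e1]; exact dvd_add h3 hk)
  exact (El.pow_aux h2 h this)

/-- powers with an exponent `k` such that `a ^ k ≡ 1` modulo `c` -/
lemma El.pow_col {a b c d : ℤ} (h : a * d - b * c = 1) (k : ℕ)
    (hk : c ∣ a ^ k - 1) : El 18 ((E a b c d) ^ k) := by
  have h' : a * d - c * b = 1 := by linear_combination h
  obtain ⟨x, y, h1, h2, h3, -⟩ := E_pow h' k
  have : ∃ c' d', (x * a + y) * d' - c * c' = 1 ∧ El 2 (E (x * a + y) c c' d') :=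
    El.cong_one (α := x * a + y) (b := c) (by
        have e1 : x * a + y - 1 = (x * a + y - a ^ k) + (a ^ k - 1) := by ring
        rw [e1]; exact dvd_add h3 hk)
  have h5 := (El.pow_aux h2 h' this)
  rw [← h1] at h5
  have h6 := h5.transpose
  rwa [Matrix.transpose_pow, E_transpose] at h6

/-- The main case: `b` and `c` are prime up to sign. -/
lemma El.main_case {a b c d : ℤ} (h : a * d - b * c = 1) (s t : ℕ)
    (hst : Nat.Coprime s t) (hs : b ∣ a ^ s - 1 ∨ b ∣ a ^ s + 1) (ht : c ∣ a ^ t - 1) :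
    El 39 (E a b c d) := by
  -- `u s + v t = 1`
  have hpow1 : ∀ u : ℕ, b ∣ a ^ (s * u) - 1 ∨ b ∣ a ^ (s * u) + 1 := by
    intro u
    induction u with
    | zero => left; simp
    | succ u ih =>
      have e : s * (u + 1) = s * u + s := by ring
      rw [e, pow_add]
      rcases ih with ih | ih <;> rcases hs with hs | hs
      · left
        have : a ^ (s * u) * a ^ s - 1 = a ^ s * (a ^ (s * u) - 1) + (a ^ s - 1) := by ring
        rw [this]; exact dvd_add (Dvd.dvd.mul_left ih _) hs
      · right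
        have : a ^ (s * u) * a ^ s + 1 = a ^ s * (a ^ (s * u) - 1) + (a ^ s + 1) := by ring
        rw [this]; exact dvd_add (Dvd.dvd.mul_left ih _) hs
      · right
        have : a ^ (s * u) * a ^ s + 1 = a ^ s * (a ^ (s * u) + 1) - (a ^ s - 1) := by ring
        rw [this]; exact dvd_sub (Dvd.dvd.mul_left ih _) hs
      · left
        have : a ^ (s * u) * a ^ s - 1 = a ^ s * (a ^ (s * u) + 1) - (a ^ s + 1) := by ring
        rw [this]; exact dvd_sub (Dvd.dvd.mul_left ih _) hs
  have hpow2 : ∀ v : ℕ, c ∣ a ^ (t * v) - 1 := by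
    intro v
    rw [pow_mul]
    have h1 := sub_dvd_pow_sub_pow (a ^ t) 1 v
    rw [one_pow] at h1
    exact ht.trans h1
  set A := E a b c d with hA
  have hdet : IsUnit A.det := by
    have : A.det = 1 := by
      rw [hA]; unfold E
      rw [Matrix.det_fin_three]; simp; linear_combination h
    rw [this]; norm_num
  -- Bezout
  have hbez : (s : ℤ) * Nat.gcdA s t + t * Nat.gcdB s t = 1 := by
    have := Nat.gcd_eq_gcd_ab s t
    rw [hst] at this
    push_cast at this
    linarith
  have hz : A = A ^ ((s : ℤ) * Nat.gcdA s t) * A ^ ((t : ℤ) * Nat.gcdB s t) := by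
    rw [← Matrix.zpow_add hdet, hbez, zpow_one]
  have z1 : El 21 (A ^ ((s : ℤ) * Nat.gcdA s t)) := by
    rcases Int.natAbs_eq (Nat.gcdA s t) with h1 | h1
    · rw [h1]
      have : ((s : ℤ) * ((Nat.gcdA s t).natAbs : ℤ)) = ((s * (Nat.gcdA s t).natAbs : ℕ) : ℤ) := by
        push_cast; ring
      rw [this, zpow_natCast]
      exact El.pow_row h _ (hpow1 _)
    · rw [h1]
      have : ((s : ℤ) * (-((Nat.gcdA s t).natAbs : ℤ))) =
          -((s * (Nat.gcdA s t).natAbs : ℕ) : ℤ) := by
        push_cast; ring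
      rw [this, Matrix.zpow_neg hdet, zpow_natCast]
      exact (El.pow_row h _ (hpow1 _)).inv
  have z2 : El 18 (A ^ ((t : ℤ) * Nat.gcdB s t)) := by
    rcases Int.natAbs_eq (Nat.gcdB s t) with h1 | h1
    · rw [h1]
      have : ((t : ℤ) * ((Nat.gcdB s t).natAbs : ℤ)) = ((t * (Nat.gcdB s t).natAbs : ℕ) : ℤ) := by
        push_cast; ring
      rw [this, zpow_natCast]
      exact El.pow_col h _ (hpow2 _)
    · rw [h1]
      have : ((t : ℤ) * (-((Nat.gcdB s t).natAbs : ℤ))) =
          -((t * (Nat.gcdB s t).natAbs : ℕ) : ℤ) := by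
        push_cast; ring
      rw [this, Matrix.zpow_neg hdet, zpow_natCast]
      exact (El.pow_col h _ (hpow2 _)).inv
  rw [hz]
  exact z1.mul z2

end Pool.Agent.K6.H19.UT
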