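import Pool.Agent.K6.H19.UT.Induct
import Pool.Agent.K6.H19.UT.Dirichlet

/-!
# Unitriangular factorisations: all matrices of size three padded with ones are good
-/

set_option linter.unusedSectionVars false
set_option linter.unusedSimpArgs false

namespace Pool.Agent.K6.H19.UT

open Matrix

/-- a unimodular vector in `u + ℤ v` for unimodular `v` -/
lemma exists_prim_add_prim {ι : Type*} [Fintype ι] {u v : ι → ℤ} (hv : Prim v) :
    ∃ t : ℤ, Prim (fun i => u i + t * v i) := by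
  by_cases h : ∃ i j, u i * v j - u j * v i ≠ 0
  · refine exists_prim_add (fun p hp _ => hv.not_dvd ?_) (Or.inr (Or.inr h))
    intro h
    exact hp.one_lt.ne' (by simpa [Int.isUnit_iff_natAbs_eq] using h)
  · push Not at h
    obtain ⟨w, hw⟩ := hv
    refine ⟨1 - u ⬝ᵥ w, w, ?_⟩
    have hu : ∀ i, u i = (u ⬝ᵥ w) * v i := by
      intro i
      calc u i = u i * (v ⬝ᵥ w) := by rw [hw, mul_one]
        _ = ∑ j, (u i * v j) * w j := by
          rw [dotProduct, Finset.mul_sum]; exact Finset.sum_congr rfl fun j _ => by ring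
        _ = ∑ j, (u j * w j) * v i :=
          Finset.sum_congr rfl fun j _ => by
            have := h i j
            have e : u i * v j = u j * v i := by linarith
            rw [e]; ring
        _ = _ := by rw [dotProduct, Finset.sum_mul]
    have : (fun i => u i + (1 - u ⬝ᵥ w) * v i) = v := by
      ext i
      have := hu i
      linear_combination this
    rw [this, hw]

/-- the rank function of `Fin 3` -/
def r3 : Fin 3 → ℕ := fun i => (i : ℕ)

lemma r3_inj : Function.Injective r3 := fun _ _ h => Fin.ext h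

/-- Alternating products of `n` unitriangular matrices, starting with an upper one. -/
def Wd : ℕ → Matrix (Fin 3) (Fin 3) ℤ → Prop
  | 0, M => M = 1
  | (n + 1), M => ∃ M' X, Wd n M' ∧ M = M' * X ∧ (if n % 2 = 0 then Up r3 X else Lo r3 X)

lemma Wd.succ {n : ℕ} {M : Matrix (Fin 3) (Fin 3) ℤ} (h : Wd n M) : Wd (n + 1) M := by
  refine ⟨M, 1, h, by rw [Matrix.mul_one], ?_⟩
  split_ifs
  · exact Up.one _
  · exact Lo.one _

lemma Wd.mono {m n : ℕ} (hmn : m ≤ n) {M : Matrix (Fin 3) (Fin 3) ℤ} (h : Wd m M) : Wd n M := by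
  induction hmn with
  | refl => exact h
  | step _ ih => exact ih.succ

lemma Wd.up {n : ℕ} {M X : Matrix (Fin 3) (Fin 3) ℤ} (h : Wd n M) (hX : Up r3 X) :
    Wd (n + 1) (M * X) := by
  by_cases hn : n % 2 = 0
  · exact ⟨M, X, h, rfl, by rw [if_pos hn]; exact hX⟩
  · cases n with
    | zero => exact absurd rfl hn
    | succ n =>
      obtain ⟨M', X', h1, h2, h3⟩ := h
      have hn' : n % 2 = 0 := by omega
      rw [if_pos hn'] at h3
      apply Wd.succ
      refine ⟨M', X' * X, h1, by rw [h2, Matrix.mul_assoc], ?_⟩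
      rw [if_pos hn']
      exact h3.mul r3_inj hX

lemma Wd.lo {n : ℕ} {M X : Matrix (Fin 3) (Fin 3) ℤ} (h : Wd (n + 1) M) (hX : Lo r3 X) :
    Wd (n + 2) (M * X) := by
  by_cases hn : n % 2 = 0
  · exact ⟨M, X, h, rfl, by rw [if_neg (by omega)]; exact hX⟩
  · obtain ⟨M', X', h1, h2, h3⟩ := h
    rw [if_neg hn] at h3
    apply Wd.succ
    refine ⟨M', X' * X, h1, by rw [h2, Matrix.mul_assoc], ?_⟩
    rw [if_neg hn]
    exact h3.mul r3_inj hX

lemma tv_up {i j : Fin 3} (h : i < j) (t : ℤ) : Up r3 (transvection i j t) := by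
  refine ⟨fun a => ?_, fun a b hab => ?_⟩
  · simp only [transvection, Matrix.add_apply, Matrix.one_apply_eq, Matrix.single_apply]
    rw [if_neg, add_zero]
    rintro ⟨rfl, rfl⟩
    exact lt_irrefl _ h
  · have hab' : b < a := hab
    simp only [transvection, Matrix.add_apply, Matrix.single_apply]
    rw [Matrix.one_apply_ne hab'.ne', if_neg, add_zero]
    rintro ⟨rfl, rfl⟩
    exact lt_asymm h hab'

lemma tv_lo {i j : Fin 3} (h : j < i) (t : ℤ) : Lo r3 (transvection i j t) := by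
  have := (tv_up h t).transpose
  rwa [transvection_transpose] at this

lemma Wd.el {n m : ℕ} {N M : Matrix (Fin 3) (Fin 3) ℤ} (h : Wd (n + 1) N) (hM : El m M) :
    Wd (n + 1 + m) (N * M) := by
  induction hM with
  | one => rwa [Matrix.mul_one]
  | @tv m M i j hij t _ ih =>
    rw [← Matrix.mul_assoc]
    have e : n + 1 + m = (n + m) + 1 := by ring
    have e' : n + 1 + (m + 1) = (n + m) + 2 := by ring
    rw [e] at ih
    rw [e']
    rcases lt_or_gt_of_ne hij with h1 | h1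
    · exact ih.up (tv_up h1 t)
    · exact ih.lo (tv_lo h1 t)

lemma good_of_wd {s : ℕ} {M : Matrix (Fin 3) (Fin 3) ℤ} (h : Wd (4 * (s + 1)) M) :
    GP (3 * s) M := by
  induction s generalizing M with
  | zero =>
    obtain ⟨M3, X4, ⟨M2, X3, ⟨M1, X2, ⟨M0, X1, h0, e1, h1⟩, e2, h2⟩, e3, h3⟩, e4, h4⟩ := h
    rw [GP_zero_iff]
    change M0 = 1 at h0
    refine ⟨X1, X2, X3, X4, ?_, ?_, ?_, ?_, ?_⟩
    · rw [if_pos (by norm_num)] at h1; exact h1
    · rw [if_neg (by norm_num)] at h2; exact h2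
    · rw [if_pos (by norm_num)] at h3; exact h3
    · rw [if_neg (by norm_num)] at h4; exact h4
    · rw [e4, e3, e2, e1, h0, Matrix.one_mul]
  | succ s ih =>
    have h' : Wd (4 * (s + 1) + 1 + 1 + 1 + 1) M := by
      convert h using 1; ring
    obtain ⟨M3, X4, ⟨M2, X3, ⟨M1, X2, ⟨M0, X1, h0, e1, h1⟩, e2, h2⟩, e3, h3⟩, e4, h4⟩ := h'
    have hG : GP 0 (X1 * X2 * X3 * X4) := by
      rw [GP_zero_iff]
      refine ⟨X1, X2, X3, X4, ?_, ?_, ?_, ?_, rfl⟩
      · rw [if_pos (by omega)] at h1; exact h1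
      · rw [if_neg (by omega)] at h2; exact h2
      · rw [if_pos (by omega)] at h3; exact h3
      · rw [if_neg (by omega)] at h4; exact h4
    have := (ih h0).mul hG
    have e : M = M0 * (X1 * X2 * X3 * X4) := by
      rw [e4, e3, e2, e1]; simp only [Matrix.mul_assoc]
    rw [e]
    exact this

/-- every matrix in `SL₃(ℤ)` is an alternating product of 46 unitriangular matrices -/
lemma wd_three (A : Matrix (Fin 3) (Fin 3) ℤ) (hA : A.det = 1) : Wd 46 A := by
  -- the step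
  have key : ∃ x : Fin 3 → ℤ, x 0 = 1 ∧ Prim (fun j : Fin 2 => (x ᵥ* A) j.succ) := by
    obtain ⟨k, hk, hE⟩ := exists_prim_orth (n := 3) (m := 2) (by omega)
      ![Pi.single 0 1, fun i => A i 0]
    have hk0 : k 0 = 0 := by simpa using hE 0
    have hk1 : (k ᵥ* A) 0 = 0 := by
      have := hE 1
      rw [dotProduct_comm] at this
      exact this
    have hkg : Prim (k ᵥ* A) := hk.vecMul hA
    have hkg' : Prim (fun j : Fin 2 => (k ᵥ* A) j.succ) := by
      obtain ⟨w, hw⟩ := hkg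
      refine ⟨fun j => w j.succ, ?_⟩
      rw [dotProduct, Fin.sum_univ_succ, hk1, zero_mul, zero_add] at hw
      exact hw
    obtain ⟨s, hs⟩ := exists_prim_add_prim (u := fun j : Fin 2 => A 0 j.succ) hkg'
    refine ⟨Pi.single 0 1 + s • k, by simp [hk0], ?_⟩
    convert hs using 2 with j
    rw [Matrix.add_vecMul, Matrix.smul_vecMul, Matrix.single_one_vecMul]
    simp
  obtain ⟨x, hx, w, hw⟩ := key
  set y : Fin 3 → ℤ := Fin.cons 1 (fun j => (1 - (x ᵥ* A) 0) * w j) with hy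
  have hy0 : y 0 = 1 := rfl
  have hxy : x ⬝ᵥ (A *ᵥ y) = 1 := by
    rw [Matrix.dotProduct_mulVec, dotProduct, Fin.sum_univ_succ]
    simp only [hy, Fin.cons_zero, Fin.cons_succ, mul_one]
    have : ∑ j : Fin 2, (x ᵥ* A) j.succ * ((1 - (x ᵥ* A) 0) * w j) =
        (1 - (x ᵥ* A) 0) * ((fun j : Fin 2 => (x ᵥ* A) j.succ) ⬝ᵥ w) := by
      rw [dotProduct, Finset.mul_sum]
      exact Finset.sum_congr rfl fun j _ => by ring
    rw [this, hw]; ring
  have hS := det_schur A x y hx hy0 hxy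
  rw [hA, Matrix.det_fin_two] at hS
  set κ := A *ᵥ y with hκ
  set ρ := x ᵥ* A with hρ
  set S := schur A x y with hSdef
  have hS' : ∀ i j, S i j = A i.succ j.succ - κ i.succ * ρ j.succ := fun i j => rfl
  have ex1 : κ 1 = A 1 0 + A 1 1 * y 1 + A 1 2 * y 2 := by
    rw [hκ]; simp [Matrix.mulVec, dotProduct, Fin.sum_univ_three, hy0]
  have ex2 : κ 2 = A 2 0 + A 2 1 * y 1 + A 2 2 * y 2 := by
    rw [hκ]; simp [Matrix.mulVec, dotProduct, Fin.sum_univ_three, hy0]
  have ex0 : κ 0 = A 0 0 + A 0 1 * y 1 + A 0 2 * y 2 := by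
    rw [hκ]; simp [Matrix.mulVec, dotProduct, Fin.sum_univ_three, hy0]
  have er0 : ρ 0 = A 0 0 + x 1 * A 1 0 + x 2 * A 2 0 := by
    rw [hρ]; simp [Matrix.vecMul, dotProduct, Fin.sum_univ_three, hx]
  have er1 : ρ 1 = A 0 1 + x 1 * A 1 1 + x 2 * A 2 1 := by
    rw [hρ]; simp [Matrix.vecMul, dotProduct, Fin.sum_univ_three, hx]
  have er2 : ρ 2 = A 0 2 + x 1 * A 1 2 + x 2 * A 2 2 := by
    rw [hρ]; simp [Matrix.vecMul, dotProduct, Fin.sum_univ_three, hx]
  have hone : κ 0 + x 1 * κ 1 + x 2 * κ 2 = 1 := by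
    rw [dotProduct, Fin.sum_univ_three, hx, one_mul] at hxy; exact hxy
  have hEl : El 42 !![1, 0, 0; 0, S 0 0, S 0 1; 0, S 1 0, S 1 1] := by
    have h1 := (El.two hS).perm (finRotate 3).symm
    convert h1 using 1
    unfold E
    have r0 : (finRotate 3).symm 0 = 2 := by decide
    have r1 : (finRotate 3).symm 1 = 0 := by decide
    have r2 : (finRotate 3).symm 2 = 1 := by decide
    ext i j
    fin_cases i <;> fin_cases j <;> simp [r0, r1, r2]
  have hX1 : Up r3 !![1, -x 1, -x 2; 0, 1, 0; 0, 0, 1] := by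
    refine ⟨fun i => by fin_cases i <;> rfl, fun i j h => ?_⟩
    fin_cases i <;> fin_cases j <;> simp [r3] at h ⊢
  have hX2 : Lo r3 !![1, 0, 0; κ 1, 1, 0; κ 2, 0, 1] := by
    refine ⟨fun i => by fin_cases i <;> rfl, fun i j h => ?_⟩
    fin_cases i <;> fin_cases j <;> simp [r3] at h ⊢
  have hX3 : Up r3 !![1, ρ 1, ρ 2; 0, 1, 0; 0, 0, 1] := by
    refine ⟨fun i => by fin_cases i <;> rfl, fun i j h => ?_⟩
    fin_cases i <;> fin_cases j <;> simp [r3] at h ⊢
  have hX4 : Lo r3 !![1, 0, 0; -y 1, 1, 0; -y 2, 0, 1] := by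
    refine ⟨fun i => by fin_cases i <;> rfl, fun i j h => ?_⟩
    fin_cases i <;> fin_cases j <;> simp [r3] at h ⊢
  have w0 : Wd 0 (1 : Matrix (Fin 3) (Fin 3) ℤ) := rfl
  have w1 : Wd 1 (1 * !![1, -x 1, -x 2; 0, 1, 0; 0, 0, 1]) := w0.up hX1
  have w2 := w1.lo hX2
  have w3 := w2.el hEl
  have w4 := w3.up hX3
  have w5 : Wd 46 _ := w4.lo hX4
  convert w5 using 1
  have s00 : S 0 0 = A 1 1 - κ 1 * ρ 1 := rfl
  have s01 : S 0 1 = A 1 2 - κ 1 * ρ 2 := rfl
  have s10 : S 1 0 = A 2 1 - κ 2 * ρ 1 := rfl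
  have s11 : S 1 1 = A 2 2 - κ 2 * ρ 2 := rfl
  rw [s00, s01, s10, s11, Matrix.one_mul]
  simp only [Matrix.mul_fin_three]
  rw [ex0, ex1, ex2] at hone
  ext i j
  fin_cases i <;> fin_cases j <;> simp
  · rw [er1, er2, ex1, ex2]; linear_combination hone
  · rw [er1]; ring
  · rw [er2]; ring
  · rw [ex1]; ring
  · rw [ex2]; ring

theorem allGP_three : AllGP 3 33 := fun A hA => good_of_wd (s := 11) ((wd_three A hA).mono
  (by norm_num))

/-- `SL_n(ℤ) = U U⁻ U U⁻` for `n ≥ 135`. -/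
theorem good_of_large {n : ℕ} (hn : 135 ≤ n) (A : Matrix (Fin n) (Fin n) ℤ) (hA : A.det = 1) :
    Good (fun i : Fin n => (i : ℕ)) A := by
  rw [← GP_zero_iff]
  exact allGP_three.final (by omega) A hA

end Pool.Agent.K6.H19.UT
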