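import Pool.Agent.K6.H19.UT.Reduce

/-!
# Unitriangular factorisations: the inductive steps
-/

set_option linter.unusedSectionVars false
set_option linter.unusedSimpArgs false

namespace Pool.Agent.K6.H19.UT

open Matrix

/-- `Unit ⊕ Fin n ≃ Fin (n + 1)`, first index. -/
def eFirst (n : ℕ) : Unit ⊕ Fin n ≃ Fin (n + 1) where
  toFun := Sum.elim (fun _ => 0) (fun i => i.succ)
  invFun := Fin.cases (Sum.inl ()) (fun i => Sum.inr i)
  left_inv := by rintro (_ | _) <;> simp
  right_inv := by
    intro i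
    refine Fin.cases ?_ (fun i => ?_) i <;> simp

/-- `Fin n ⊕ Unit ≃ Fin (n + 1)`, last index. -/
def eFinal (n : ℕ) : Fin n ⊕ Unit ≃ Fin (n + 1) where
  toFun := Sum.elim (fun i => i.castSucc) (fun _ => Fin.last n)
  invFun := Fin.lastCases (Sum.inr ()) (fun i => Sum.inl i)
  left_inv := by rintro (_ | _) <;> simp
  right_inv := by
    intro i
    refine Fin.lastCases ?_ (fun i => ?_) i <;> simp

lemma det_schur_first {n : ℕ} (M : Matrix (Fin (n + 1)) (Fin (n + 1)) ℤ) (h : M 0 0 = 1) :
    (Matrix.of fun i j : Fin n => M i.succ j.succ - M i.succ 0 * M 0 j.succ).det = M.det := by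
  rw [← Matrix.det_submatrix_equiv_self (eFirst n) M]
  have : M.submatrix (eFirst n) (eFirst n) = fromBlocks 1
      (Matrix.of fun _ j => M 0 j.succ : Matrix Unit (Fin n) ℤ)
      (Matrix.of fun i _ => M i.succ 0 : Matrix (Fin n) Unit ℤ)
      (Matrix.of fun i j : Fin n => M i.succ j.succ) := by
    ext (i | i) (j | j) <;> simp [eFirst, h]
  rw [this, Matrix.det_fromBlocks_one₁₁]
  congr 1
  ext i j
  simp [Matrix.mul_apply]

lemma det_schur_last {n : ℕ} (M : Matrix (Fin (n + 1)) (Fin (n + 1)) ℤ)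
    (h : M (Fin.last n) (Fin.last n) = 1) :
    (Matrix.of fun i j : Fin n => M i.castSucc j.castSucc -
      M i.castSucc (Fin.last n) * M (Fin.last n) j.castSucc).det = M.det := by
  rw [← Matrix.det_submatrix_equiv_self (eFinal n) M]
  have : M.submatrix (eFinal n) (eFinal n) = fromBlocks
      (Matrix.of fun i j : Fin n => M i.castSucc j.castSucc)
      (Matrix.of fun i _ => M i.castSucc (Fin.last n) : Matrix (Fin n) Unit ℤ)
      (Matrix.of fun _ j => M (Fin.last n) j.castSucc : Matrix Unit (Fin n) ℤ)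
      1 := by
    ext (i | i) (j | j) <;> simp [eFinal, h]
  rw [this, Matrix.det_fromBlocks_one₂₂]
  congr 1
  ext i j
  simp [Matrix.mul_apply]

/-- The Schur complement of a step. -/
def schur {n : ℕ} (g : Matrix (Fin (n + 1)) (Fin (n + 1)) ℤ) (x y : Fin (n + 1) → ℤ) :
    Matrix (Fin n) (Fin n) ℤ :=
  Matrix.of fun i j : Fin n => g i.succ j.succ - (g *ᵥ y) i.succ * (x ᵥ* g) j.succ

lemma det_schur {n : ℕ} (g : Matrix (Fin (n + 1)) (Fin (n + 1)) ℤ) (x y : Fin (n + 1) → ℤ)
    (hx : x 0 = 1) (hy : y 0 = 1) (h : x ⬝ᵥ (g *ᵥ y) = 1) : (schur g x y).det = g.det := by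
  set X : Matrix (Fin (n + 1)) (Fin (n + 1)) ℤ := Matrix.updateRow 1 0 x with hX
  set Y : Matrix (Fin (n + 1)) (Fin (n + 1)) ℤ := Matrix.updateCol 1 0 y with hY
  have hXd : X.det = 1 := by
    rw [← Matrix.det_transpose]
    rw [Matrix.det_of_lowerTriangular]
    · apply Finset.prod_eq_one
      intro i _
      refine Fin.cases ?_ (fun i => ?_) i
      · simp [hX, hx]
      · simp [hX, Matrix.updateRow_ne (Fin.succ_ne_zero i)]
    · intro i j hij
      have hj : j ≠ 0 := by
        rintro rfl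
        exact absurd (OrderDual.toDual_lt_toDual.mp hij) (Fin.not_lt_zero _)
      rw [Matrix.transpose_apply, hX, Matrix.updateRow_ne hj, Matrix.one_apply_ne]
      rintro rfl
      exact lt_irrefl _ hij
  have hYd : Y.det = 1 := by
    rw [← Matrix.det_transpose]
    rw [Matrix.det_of_upperTriangular]
    · apply Finset.prod_eq_one
      intro i _
      refine Fin.cases ?_ (fun i => ?_) i
      · simp [hY, hy]
      · simp [hY, Matrix.updateCol_ne (Fin.succ_ne_zero i)]
    · intro i j hij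
      have hi : i ≠ 0 := by
        rintro rfl
        exact absurd hij (by simp)
      rw [Matrix.transpose_apply, hY, Matrix.updateCol_ne hi, Matrix.one_apply_ne]
      rintro rfl
      exact lt_irrefl _ hij
  have hd : (X * g * Y).det = g.det := by
    rw [Matrix.det_mul, Matrix.det_mul, hXd, hYd]; ring
  have hXr0 : X 0 = x := by simp [hX]
  have hXr : ∀ i : Fin n, X i.succ = Pi.single i.succ 1 := by
    intro i
    ext j
    rw [hX, Matrix.updateRow_ne (Fin.succ_ne_zero i), Matrix.one_apply, Pi.single_apply]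
    simp only [eq_comm]
  have hYc0 : ∀ i, Y i 0 = y i := by intro i; simp [hY]
  have hYc : ∀ (i : Fin (n + 1)) (j : Fin n), Y i j.succ = (Pi.single j.succ 1 : _ → ℤ) i := by
    intro i j
    rw [hY, Matrix.updateCol_ne (Fin.succ_ne_zero j), Matrix.one_apply, Pi.single_apply]
  have hXg0 : ∀ j, (X * g) 0 j = (x ᵥ* g) j := by
    intro j; rw [Matrix.mul_apply_eq_vecMul, hXr0]
  have hXg : ∀ (i : Fin n) j, (X * g) i.succ j = g i.succ j := by
    intro i j
    rw [Matrix.mul_apply_eq_vecMul, hXr, Matrix.single_one_vecMul]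
    rfl
  have e00 : (X * g * Y) 0 0 = 1 := by
    rw [Matrix.mul_apply]
    simp only [hXg0, hYc0]
    rw [← h, Matrix.dotProduct_mulVec]; rfl
  have e0 : ∀ j : Fin n, (X * g * Y) 0 j.succ = (x ᵥ* g) j.succ := by
    intro j
    rw [Matrix.mul_apply]
    simp only [hXg0, hYc]
    simp [Pi.single_apply]
  have e1 : ∀ i : Fin n, (X * g * Y) i.succ 0 = (g *ᵥ y) i.succ := by
    intro i
    rw [Matrix.mul_apply]
    simp only [hXg, hYc0]
    rfl
  have e2 : ∀ i j : Fin n, (X * g * Y) i.succ j.succ = g i.succ j.succ := by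
    intro i j
    rw [Matrix.mul_apply]
    simp only [hXg, hYc]
    simp [Pi.single_apply]
  rw [← hd, ← det_schur_first _ e00]
  congr 1
  ext i j
  simp only [schur, Matrix.of_apply, e0, e1, e2]

/-- All matrices of determinant one and size `n`, padded with `k` ones, are good. -/
def AllGP (n k : ℕ) : Prop := ∀ A : Matrix (Fin n) (Fin n) ℤ, A.det = 1 → GP k A

/-- A single step for all matrices of size at least four. -/
theorem AllGP.succ {m k : ℕ} (h : AllGP (m + 3) k) : AllGP (m + 4) k := by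
  intro g hg
  -- `x` with `(x g)` unimodular away from the first entry
  have key : ∃ x : Fin (m + 4) → ℤ, x 0 = 1 ∧ Prim (fun j : Fin (m + 3) => (x ᵥ* g) j.succ) := by
    set u : Fin (m + 3) → ℤ := fun j => g 0 j.succ with hu
    have hi0 : ∃ i0 : Fin (m + 3), u = 0 ∨ u i0 ≠ 0 := by
      by_cases h0 : u = 0
      · exact ⟨⟨0, by omega⟩, Or.inl h0⟩
      · obtain ⟨i, hi⟩ := Function.ne_iff.mp h0
        exact ⟨i, Or.inr hi⟩
    obtain ⟨i0, hi0⟩ := hi0
    obtain ⟨k, hk, hE⟩ := exists_prim_orth (n := m + 4) (m := 3) (by omega)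
      ![Pi.single 0 1, fun i => g i 0, fun i => g i i0.succ]
    have hk0 : k 0 = 0 := by simpa using hE 0
    have hk1 : (k ᵥ* g) 0 = 0 := by
      have := hE 1
      rw [dotProduct_comm] at this
      exact this
    have hk2 : (k ᵥ* g) i0.succ = 0 := by
      have := hE 2
      rw [dotProduct_comm] at this
      exact this
    have hkg : Prim (k ᵥ* g) := hk.vecMul hg
    have hkg' : Prim (fun j : Fin (m + 3) => (k ᵥ* g) j.succ) := by
      obtain ⟨w, hw⟩ := hkg
      refine ⟨fun j => w j.succ, ?_⟩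
      rw [dotProduct, Fin.sum_univ_succ, hk1, zero_mul, zero_add] at hw
      exact hw
    obtain ⟨s, hs⟩ := exists_prim_add (u := u) (v := fun j => (k ᵥ* g) j.succ) (by
        intro p hp _ hpv
        have hpn : ¬ IsUnit (p : ℤ) := by
          intro h
          exact hp.one_lt.ne' (by simpa [Int.isUnit_iff_natAbs_eq] using h)
        exact hkg'.not_dvd hpn hpv) (by
        rcases hi0 with h0 | h0
        · exact Or.inl h0
        · right; right
          obtain ⟨j, hj⟩ := hkg'.exists_ne
          refine ⟨i0, j, ?_⟩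
          rw [hk2]
          simp only [mul_zero, sub_zero]
          exact mul_ne_zero h0 hj)
    refine ⟨Pi.single 0 1 + s • k, by simp [hk0], ?_⟩
    convert hs using 2 with j
    rw [Matrix.add_vecMul, Matrix.smul_vecMul, Matrix.single_one_vecMul]
    simp [u]
  obtain ⟨x, hx, w, hw⟩ := key
  set y : Fin (m + 4) → ℤ := Fin.cons 1 (fun j => (1 - (x ᵥ* g) 0) * w j) with hy
  have hy0 : y 0 = 1 := rfl
  have hxy : x ⬝ᵥ (g *ᵥ y) = 1 := by
    rw [Matrix.dotProduct_mulVec, dotProduct, Fin.sum_univ_succ]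
    simp only [hy, Fin.cons_zero, Fin.cons_succ, mul_one]
    have : ∑ j : Fin (m + 3), (x ᵥ* g) j.succ * ((1 - (x ᵥ* g) 0) * w j) =
        (1 - (x ᵥ* g) 0) * ((fun j : Fin (m + 3) => (x ᵥ* g) j.succ) ⬝ᵥ w) := by
      rw [dotProduct, Finset.mul_sum]
      exact Finset.sum_congr rfl fun j _ => by ring
    rw [this, hw]; ring
  refine GP.step g x y hx hy0 hxy (h _ ?_)
  have := det_schur g x y hx hy0 hxy
  rw [hg] at this
  exact this

/-- Four dimensions give one more unit. -/
theorem AllGP.create {m k : ℕ} (h : AllGP (m + 3) (k + 1)) : AllGP (m + 7) k := by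
  intro g hg
  -- first step
  obtain ⟨x1, y1, hx1, hy1, hxy1, ⟨j1, hj1⟩, ⟨i1, hi1⟩⟩ := stepOne (m := m + 4) (by omega) g hg
  have hS1 : (schur g x1 y1).det = 1 := by rw [det_schur g x1 y1 hx1 hy1 hxy1, hg]
  refine GP.step g x1 y1 hx1 hy1 hxy1 ?_
  change GP k (schur g x1 y1)
  generalize hG1 : schur g x1 y1 = g1 at hS1
  -- second step
  obtain ⟨x2, y2, hx2, hy2, hxy2, hrow, hcol⟩ := stepTwo (m := m + 4) (by omega) g1 hS1
    ⟨j1, by
      rw [← hG1]
      simp only [schur, Matrix.of_apply]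
      rw [Fin.succ_last]
      exact hj1⟩
    ⟨i1, by
      rw [← hG1]
      simp only [schur, Matrix.of_apply]
      rw [Fin.succ_last]
      exact hi1⟩
  have hS2 : (schur g1 x2 y2).det = 1 := by rw [det_schur g1 x2 y2 hx2 hy2 hxy2, hS1]
  refine GP.step g1 x2 y2 hx2 hy2 hxy2 ?_
  change GP k (schur g1 x2 y2)
  generalize hG2 : schur g1 x2 y2 = g2 at hS2
  -- third step
  obtain ⟨x3, y3, hx3, hy3, hxy3, hxl, hyl⟩ := stepThree (m := m + 3) (by omega) g2 hS2
    (by
      rw [← hG2]
      simp only [schur, Matrix.of_apply]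
      rw [Fin.succ_last]
      exact hrow)
    (by
      rw [← hG2]
      simp only [schur, Matrix.of_apply]
      rw [Fin.succ_last]
      exact hcol)
  have hS3 : (schur g2 x3 y3).det = 1 := by rw [det_schur g2 x3 y3 hx3 hy3 hxy3, hS2]
  refine GP.step g2 x3 y3 hx3 hy3 hxy3 ?_
  change GP k (schur g2 x3 y3)
  have hlast : schur g2 x3 y3 (Fin.last (m + 3)) (Fin.last (m + 3)) = 1 := by
    simp only [schur, Matrix.of_apply]
    rw [Fin.succ_last, hyl, hxl]
    ring
  refine GP.last _ hlast (h _ ?_)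
  rw [det_schur_last _ hlast, hS3]

theorem AllGP.add {m k : ℕ} (h : AllGP (m + 3) k) (j : ℕ) : AllGP (m + j + 3) k := by
  induction j with
  | zero => exact h
  | succ j ih => exact ih.succ

theorem AllGP.create_iter {m k : ℕ} (j : ℕ) (h : AllGP (m + 3) (k + j)) :
    AllGP (m + 4 * j + 3) k := by
  induction j generalizing k with
  | zero => exact h
  | succ j ih =>
    have h1 : AllGP (m + 4 * j + 3) (k + 1) := ih (by convert h using 1; omega)
    have h2 := h1.create
    have : m + 4 * (j + 1) + 3 = m + 4 * j + 7 := by ring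
    rw [this]
    exact h2

/-- If all matrices of `SL₃` padded with `k` ones are good then all matrices of `SL_n` are
good for `n ≥ 4 k + 3`. -/
theorem AllGP.final {k : ℕ} (h : AllGP 3 k) {n : ℕ} (hn : 4 * k + 3 ≤ n) : AllGP n 0 := by
  obtain ⟨j, rfl⟩ := Nat.exists_eq_add_of_le hn
  have h1 : AllGP (0 + j + 3) k := AllGP.add (m := 0) h j
  have h2 : AllGP (0 + j + 4 * k + 3) 0 :=
    AllGP.create_iter (m := 0 + j) (k := 0) k (by rw [zero_add k]; exact h1)
  have : 4 * k + 3 + j = 0 + j + 4 * k + 3 := by ring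
  rw [this]
  exact h2

end Pool.Agent.K6.H19.UT
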