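import Pool.Agent.K6.H19.UT.Prim

/-!
# Unimodular vectors are in one orbit, and symmetric perturbations
-/

set_option linter.unusedSectionVars false
set_option linter.unusedSimpArgs false

namespace Pool.Agent.K6.H19.UT

open Matrix

variable {ι : Type*} [Fintype ι] [DecidableEq ι]

lemma Prim.mulVec {v : ι → ℤ} (hv : Prim v) {A : Matrix ι ι ℤ} (hA : A.det = 1) :
    Prim (A *ᵥ v) := by
  obtain ⟨w, hw⟩ := hv
  refine ⟨w ᵥ* A⁻¹, ?_⟩
  rw [dotProduct_comm, ← Matrix.dotProduct_mulVec, Matrix.mulVec_mulVec,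
    Matrix.nonsing_inv_mul _ (by rw [hA]; norm_num), Matrix.one_mulVec, dotProduct_comm, hw]

lemma tv_mulVec (i j : ι) (c : ℤ) (v : ι → ℤ) :
    transvection i j c *ᵥ v = Function.update v i (v i + c * v j) := by
  ext k
  rw [transvection, Matrix.add_mulVec, Matrix.one_mulVec, Pi.add_apply]
  by_cases h : k = i
  · subst h
    rw [Function.update_self, Matrix.single_mulVec]
    simp
  · rw [Function.update_of_ne h, Matrix.single_mulVec]
    simp [h]

/-- The orbit relation. -/
def Orb (v w : ι → ℤ) : Prop := ∃ A : Matrix ι ι ℤ, A.det = 1 ∧ A *ᵥ v = w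

lemma Orb.refl (v : ι → ℤ) : Orb v v := ⟨1, by simp, by simp⟩

lemma Orb.trans {u v w : ι → ℤ} (h : Orb u v) (h' : Orb v w) : Orb u w := by
  obtain ⟨A, hA, rfl⟩ := h
  obtain ⟨B, hB, rfl⟩ := h'
  exact ⟨B * A, by rw [Matrix.det_mul, hA, hB]; norm_num, by rw [Matrix.mulVec_mulVec]⟩

lemma Orb.tv {i j : ι} (h : i ≠ j) (c : ℤ) (v : ι → ℤ) :
    Orb v (Function.update v i (v i + c * v j)) :=
  ⟨transvection i j c, det_transvection_of_ne i j h c, tv_mulVec i j c v⟩

lemma orb_single (N : ℕ) : ∀ v : ι → ℤ, Prim v → ∑ i, (v i).natAbs ≤ N →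
    ∃ (i : ι) (e : ℤ), (e = 1 ∨ e = -1) ∧ Orb v (Pi.single i e) := by
  induction N with
  | zero =>
    intro v hv h
    exfalso
    apply hv.ne_zero
    ext i
    have := (Finset.sum_eq_zero_iff.mp (Nat.le_zero.mp h)) i (Finset.mem_univ i)
    simpa using this
  | succ N ih =>
    intro v hv h
    by_cases h2 : ∃ i j, i ≠ j ∧ v j ≠ 0 ∧ (v j).natAbs ≤ (v i).natAbs
    · obtain ⟨i, j, hij, hj, hle⟩ := h2
      have hi : v i ≠ 0 := by
        intro h0
        rw [h0] at hle
        simp only [Int.natAbs_zero, nonpos_iff_eq_zero, Int.natAbs_eq_zero] at hle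
        exact hj hle
      obtain ⟨c, hc⟩ : ∃ c : ℤ, (v i + c * v j).natAbs < (v i).natAbs := by
        rcases lt_or_gt_of_ne hi with h1 | h1 <;> rcases lt_or_gt_of_ne hj with h3 | h3
        · exact ⟨-1, by omega⟩
        · exact ⟨1, by omega⟩
        · exact ⟨1, by omega⟩
        · exact ⟨-1, by omega⟩
      have hw := Orb.tv hij c v
      have hsum : ∑ k, (Function.update v i (v i + c * v j) k).natAbs ≤ N := by
        have : ∑ k, (Function.update v i (v i + c * v j) k).natAbs < ∑ k, (v k).natAbs := by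
          apply Finset.sum_lt_sum
          · intro k _
            by_cases hk : k = i
            · subst hk; rw [Function.update_self]; exact hc.le
            · rw [Function.update_of_ne hk]
          · exact ⟨i, Finset.mem_univ i, by rw [Function.update_self]; exact hc⟩
        omega
      have hp : Prim (Function.update v i (v i + c * v j)) := by
        obtain ⟨A, hA, hAv⟩ := hw
        rw [← hAv]; exact hv.mulVec hA
      obtain ⟨k, e, he, hk⟩ := ih _ hp hsum
      exact ⟨k, e, he, hw.trans hk⟩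
    · push Not at h2
      obtain ⟨i, hi⟩ := hv.exists_ne
      have hz : ∀ j, j ≠ i → v j = 0 := by
        intro j hj
        by_contra hj0
        have h3 := h2 i j hj.symm hj0
        have h4 := h2 j i hj hi
        omega
      have hv' : v = Pi.single i (v i) := by
        ext j
        by_cases hj : j = i
        · subst hj; simp
        · rw [hz j hj, Pi.single_eq_of_ne hj]
      refine ⟨i, v i, ?_, by rw [← hv']; exact Orb.refl v⟩
      obtain ⟨w, hw⟩ := hv
      rw [hv', single_dotProduct] at hw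
      exact (Int.isUnit_iff.mp (IsUnit.of_mul_eq_one _ hw))

lemma orb_move {i j : ι} (hij : i ≠ j) {e : ℤ} (he : e = 1 ∨ e = -1) :
    Orb (Pi.single i e : ι → ℤ) (Pi.single j 1) := by
  have hee : e * e = 1 := by rcases he with rfl | rfl <;> norm_num
  have h1 := Orb.tv hij.symm e (Pi.single i e : ι → ℤ)
  have h2 := Orb.tv hij (-e) (Function.update (Pi.single i e : ι → ℤ) j
    ((Pi.single i e : ι → ℤ) j + e * (Pi.single i e : ι → ℤ) i))
  have h3 := h1.trans h2
  convert h3 using 1
  ext k
  by_cases hk : k = i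
  · subst hk
    rw [Function.update_self, Function.update_of_ne hij, Function.update_self]
    simp only [Pi.single_eq_same, Pi.single_eq_of_ne hij, Pi.single_eq_of_ne hij.symm]
    linear_combination e * hee
  · by_cases hk' : k = j
    · subst hk'
      rw [Function.update_of_ne hk, Function.update_self]
      simp only [Pi.single_eq_same, Pi.single_eq_of_ne hk]
      linear_combination -hee
    · rw [Function.update_of_ne hk, Function.update_of_ne hk']
      simp [hk, hk']

/-- Completion of unimodular vectors. -/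
lemma exists_complete [Nontrivial ι] {v : ι → ℤ} (hv : Prim v) (j : ι) :
    ∃ A : Matrix ι ι ℤ, A.det = 1 ∧ A *ᵥ v = Pi.single j 1 := by
  obtain ⟨i, e, he, hi⟩ := orb_single _ v hv le_rfl
  by_cases hij : i = j
  · subst hij
    obtain ⟨k, hk⟩ := exists_ne i
    exact hi.trans ((orb_move hk.symm he).trans (orb_move hk (Or.inl rfl)))
  · exact hi.trans (orb_move hij he)

/-- A symmetric perturbation which makes a vector unimodular. -/
lemma exists_sym_prim [Nontrivial ι] {u v : ι → ℤ}
    (h : ∀ p : ℕ, p.Prime → (∀ i, (p : ℤ) ∣ u i) → ¬ ∀ i, (p : ℤ) ∣ v i) :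
    ∃ R : Matrix ι ι ℤ, Rᵀ = R ∧ Prim (u + R *ᵥ v) := by
  by_cases hv : v = 0
  · refine ⟨0, by simp, ?_⟩
    rw [hv, Matrix.mulVec_zero, add_zero, prim_iff]
    intro p hp hu
    exact h p hp hu fun i => by rw [hv]; simp
  obtain ⟨d, v', hd, ⟨w, hw⟩, rfl⟩ := exists_prim_of_ne_zero hv
  -- every vector is `R v'`
  have key : ∀ x : ι → ℤ, ∃ R : Matrix ι ι ℤ, Rᵀ = R ∧ R *ᵥ v' = x := by
    intro x
    refine ⟨vecMulVec x w + vecMulVec w x - (x ⬝ᵥ v') • vecMulVec w w, ?_, ?_⟩
    · ext i j
      simp only [Matrix.transpose_apply, Matrix.sub_apply, Matrix.add_apply, Matrix.smul_apply,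
        vecMulVec_apply, smul_eq_mul]
      ring
    · ext i
      rw [Matrix.sub_mulVec, Matrix.add_mulVec, Matrix.smul_mulVec]
      have e1 : ∀ a b : ι → ℤ, (vecMulVec a b *ᵥ v') i = a i * (b ⬝ᵥ v') := by
        intro a b
        simp only [Matrix.mulVec, dotProduct, vecMulVec_apply, Finset.mul_sum]
        exact Finset.sum_congr rfl fun k _ => by ring
      have hw' : w ⬝ᵥ v' = 1 := by rw [dotProduct_comm]; exact hw
      simp only [Pi.sub_apply, Pi.add_apply, Pi.smul_apply, e1, hw', smul_eq_mul]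
      ring
  -- a vector
  obtain ⟨i, hi⟩ : ∃ i, u = 0 ∨ u i ≠ 0 := by
    by_cases h0 : u = 0
    · exact ⟨Classical.arbitrary ι, Or.inl h0⟩
    · obtain ⟨i, hi⟩ := Function.ne_iff.mp h0
      exact ⟨i, Or.inr hi⟩
  obtain ⟨j, hj⟩ := exists_ne i
  obtain ⟨t, ht⟩ := exists_prim_add (u := u) (v := d • (Pi.single j 1 : ι → ℤ)) (by
      intro p hp hpu hpv
      apply h p hp hpu
      intro k
      have := hpv j
      simp only [Pi.smul_apply, Pi.single_eq_same, smul_eq_mul, mul_one] at this
      exact Dvd.dvd.mul_right this _) (by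
      rcases hi with hi | hi
      · exact Or.inl hi
      · right; right
        refine ⟨i, j, ?_⟩
        simp [hj.symm, hi, hd])
  obtain ⟨R, hR, hRv⟩ := key (Pi.single j t)
  refine ⟨R, hR, ?_⟩
  convert ht using 1
  ext k
  rw [Matrix.mulVec_smul, hRv]
  by_cases hk : k = j
  · subst hk; simp; ring
  · simp [hk]

end Pool.Agent.K6.H19.UT
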