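import Pool.Agent.K6.H19.UT.Orbit
import Pool.Agent.K6.H19.UT.Induct

/-!
# Coprime symmetric pairs of matrices
-/

set_option linter.unusedSectionVars false
set_option linter.unusedSimpArgs false

namespace Pool.Agent.K6.H19.UT

open Matrix

/-- The normal form. -/
def Nice {n : ℕ} (b d : Matrix (Fin (n + 1)) (Fin (n + 1)) ℤ) : Prop :=
  ∃ R A B : Matrix (Fin (n + 1)) (Fin (n + 1)) ℤ, Rᵀ = R ∧ A.det = 1 ∧ B.det = 1 ∧
    ∃ q : ℤ, A * (b + R * d) * B = diagonal (fun i => if i = 0 then q else 1)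

lemma pair_step {n : ℕ}
    (ih : ∀ b d : Matrix (Fin (n + 1)) (Fin (n + 1)) ℤ, bᵀ * d = dᵀ * b →
      (∃ X Y : Matrix (Fin (n + 1)) (Fin (n + 1)) ℤ, X * b + Y * d = 1) → Nice b d)
    (b d : Matrix (Fin (n + 1) ⊕ Unit) (Fin (n + 1) ⊕ Unit) ℤ) (hbd : bᵀ * d = dᵀ * b)
    (hXY : ∃ X Y : Matrix (Fin (n + 1) ⊕ Unit) (Fin (n + 1) ⊕ Unit) ℤ, X * b + Y * d = 1) :
    ∃ R A B : Matrix (Fin (n + 1) ⊕ Unit) (Fin (n + 1) ⊕ Unit) ℤ, Rᵀ = R ∧ A.det = 1 ∧
      B.det = 1 ∧ ∃ q : ℤ, A * (b + R * d) * B =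
        fromBlocks (diagonal (fun i => if i = 0 then q else 1)) 0 0 1 := by
  haveI : Nontrivial (Fin (n + 1) ⊕ Unit) := ⟨⟨Sum.inl 0, Sum.inr (), by simp⟩⟩
  obtain ⟨X, Y, hXY⟩ := hXY
  set e : Fin (n + 1) ⊕ Unit → ℤ := Pi.single (Sum.inr ()) 1 with he
  -- the last column
  obtain ⟨R0, hR0, hprim⟩ := exists_sym_prim (u := b *ᵥ e) (v := d *ᵥ e) (by
    intro p hp hu hv
    have h1 : (X *ᵥ (b *ᵥ e) + Y *ᵥ (d *ᵥ e)) (Sum.inr ()) = 1 := by
      rw [Matrix.mulVec_mulVec, Matrix.mulVec_mulVec, ← Matrix.add_mulVec, hXY,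
        Matrix.one_mulVec, he, Pi.single_eq_same]
    have h2 : (p : ℤ) ∣ 1 := by
      rw [← h1, Pi.add_apply]
      refine dvd_add ?_ ?_
      · change (p : ℤ) ∣ ∑ i, X (Sum.inr ()) i * (b *ᵥ e) i
        exact Finset.dvd_sum fun i _ => Dvd.dvd.mul_left (hu i) _
      · change (p : ℤ) ∣ ∑ i, Y (Sum.inr ()) i * (d *ᵥ e) i
        exact Finset.dvd_sum fun i _ => Dvd.dvd.mul_left (hv i) _
    have h3 : p ∣ 1 := by exact_mod_cast h2
    exact hp.one_lt.ne' (Nat.dvd_one.mp h3))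
  obtain ⟨A0, hA0, hA0e⟩ := exists_complete hprim (Sum.inr ())
  have hA0u : IsUnit A0.det := by rw [hA0]; norm_num
  have hA0u' : IsUnit A0ᵀ.det := by rw [Matrix.det_transpose]; exact hA0u
  set N := A0 * (b + R0 * d) with hN
  have hNe : N *ᵥ e = e := by
    rw [hN, ← Matrix.mulVec_mulVec, Matrix.add_mulVec, ← Matrix.mulVec_mulVec, hA0e]
  have hN12 : N.toBlocks₁₂ = 0 := by
    ext i j
    have := congrFun hNe (Sum.inl i)
    rw [he, Matrix.mulVec_single_one] at this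
    simpa [Matrix.toBlocks₁₂] using this
  have hN22 : N.toBlocks₂₂ = 1 := by
    ext i j
    have := congrFun hNe (Sum.inr ())
    rw [he, Matrix.mulVec_single_one] at this
    simpa [Matrix.toBlocks₂₂] using this
  set N11 := N.toBlocks₁₁ with hN11
  set N21 := N.toBlocks₂₁ with hN21
  have hNb : N = fromBlocks N11 0 N21 1 := by
    rw [← hN12, ← hN22, hN11, hN21, Matrix.fromBlocks_toBlocks]
  set B0 : Matrix (Fin (n + 1) ⊕ Unit) (Fin (n + 1) ⊕ Unit) ℤ := fromBlocks 1 0 (-N21) 1 with hB0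
  have hB0d : B0.det = 1 := by
    rw [hB0, Matrix.det_fromBlocks_zero₁₂]; simp
  have hB0u : IsUnit B0.det := by rw [hB0d]; norm_num
  have hb1 : N * B0 = fromBlocks N11 0 0 1 := by
    rw [hNb, hB0, Matrix.fromBlocks_multiply]; simp
  set d1 := A0⁻¹ᵀ * d * B0 with hd1
  set d11 := d1.toBlocks₁₁ with hd11
  set d12 := d1.toBlocks₁₂ with hd12
  set d21 := d1.toBlocks₂₁ with hd21
  set d22 := d1.toBlocks₂₂ with hd22
  have hd1b : d1 = fromBlocks d11 d12 d21 d22 := (Matrix.fromBlocks_toBlocks d1).symm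
  have hAA : A0ᵀ * A0⁻¹ᵀ = 1 := by
    rw [← Matrix.transpose_mul, Matrix.nonsing_inv_mul _ hA0u, Matrix.transpose_one]
  have hAA' : A0⁻¹ᵀ * A0ᵀ = 1 := by
    rw [← Matrix.transpose_mul, Matrix.mul_nonsing_inv _ hA0u, Matrix.transpose_one]
  have hsym0 : (N * B0)ᵀ * d1 = B0ᵀ * (bᵀ * d + dᵀ * R0 * d) * B0 := by
    rw [hN, hd1]
    simp only [Matrix.transpose_mul, Matrix.transpose_add, hR0]
    calc B0ᵀ * ((bᵀ + dᵀ * R0) * A0ᵀ) * (A0⁻¹ᵀ * d * B0)
        = B0ᵀ * ((bᵀ + dᵀ * R0) * (A0ᵀ * A0⁻¹ᵀ) * d) * B0 := by simp only [Matrix.mul_assoc]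
      _ = _ := by rw [hAA, Matrix.mul_one, Matrix.add_mul]
  have hsym : (N * B0)ᵀ * d1 = d1ᵀ * (N * B0) := by
    have h1 : ((N * B0)ᵀ * d1)ᵀ = (N * B0)ᵀ * d1 := by
      rw [hsym0]
      simp only [Matrix.transpose_mul, Matrix.transpose_add, Matrix.transpose_transpose, hR0]
      rw [← hbd]
      simp only [Matrix.mul_assoc]
    rw [← h1, Matrix.transpose_mul, Matrix.transpose_transpose]
  rw [hb1, hd1b, Matrix.fromBlocks_transpose, Matrix.fromBlocks_transpose,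
    Matrix.fromBlocks_multiply, Matrix.fromBlocks_multiply] at hsym
  simp only [Matrix.transpose_zero, Matrix.zero_mul, Matrix.mul_zero, add_zero, zero_add,
    Matrix.transpose_one, Matrix.one_mul, Matrix.mul_one] at hsym
  obtain ⟨hs11, hs12, hs21, -⟩ := Matrix.fromBlocks_inj.mp hsym
  have hd21' : d21 = d12ᵀ * N11 := hs21
  -- coprimality
  have hcop : ∃ X1 Y1 : Matrix (Fin (n + 1) ⊕ Unit) (Fin (n + 1) ⊕ Unit) ℤ,
      X1 * (N * B0) + Y1 * d1 = 1 := by
    refine ⟨B0⁻¹ * X * A0⁻¹, B0⁻¹ * (Y - X * R0) * A0ᵀ, ?_⟩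
    have e1 : B0⁻¹ * X * A0⁻¹ * (N * B0) = B0⁻¹ * (X * (b + R0 * d)) * B0 := by
      rw [hN]
      calc B0⁻¹ * X * A0⁻¹ * (A0 * (b + R0 * d) * B0)
          = B0⁻¹ * X * (A0⁻¹ * A0) * (b + R0 * d) * B0 := by simp only [Matrix.mul_assoc]
        _ = _ := by rw [Matrix.nonsing_inv_mul _ hA0u, Matrix.mul_one]; simp only [Matrix.mul_assoc]
    have e2 : B0⁻¹ * (Y - X * R0) * A0ᵀ * d1 = B0⁻¹ * ((Y - X * R0) * d) * B0 := by
      rw [hd1]
      calc B0⁻¹ * (Y - X * R0) * A0ᵀ * (A0⁻¹ᵀ * d * B0)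
          = B0⁻¹ * (Y - X * R0) * (A0ᵀ * A0⁻¹ᵀ) * d * B0 := by simp only [Matrix.mul_assoc]
        _ = _ := by rw [hAA, Matrix.mul_one]; simp only [Matrix.mul_assoc]
    rw [e1, e2, ← Matrix.add_mul, ← Matrix.mul_add]
    have e3 : X * (b + R0 * d) + (Y - X * R0) * d = 1 := by
      rw [← hXY, Matrix.mul_add, Matrix.sub_mul, Matrix.mul_assoc X R0 d]
      abel
    rw [e3, Matrix.mul_one, Matrix.nonsing_inv_mul _ hB0u]
  obtain ⟨X1, Y1, h1⟩ := hcop
  have hcop' : ∃ X2 Y2 : Matrix (Fin (n + 1)) (Fin (n + 1)) ℤ, X2 * N11 + Y2 * d11 = 1 := by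
    refine ⟨X1.toBlocks₁₁ + Y1.toBlocks₁₂ * d12ᵀ, Y1.toBlocks₁₁, ?_⟩
    rw [hb1, hd1b, ← Matrix.fromBlocks_toBlocks X1, ← Matrix.fromBlocks_toBlocks Y1,
      Matrix.fromBlocks_multiply, Matrix.fromBlocks_multiply, Matrix.fromBlocks_add,
      ← Matrix.fromBlocks_one] at h1
    obtain ⟨h11, -, -, -⟩ := Matrix.fromBlocks_inj.mp h1
    rw [← h11, hd21', Matrix.mul_zero, add_zero, Matrix.add_mul, Matrix.mul_assoc]
    abel
  obtain ⟨R', A', B', hR', hA', hB', q, hq⟩ := ih N11 d11 hs11 hcop'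
  set R1 : Matrix (Fin (n + 1) ⊕ Unit) (Fin (n + 1) ⊕ Unit) ℤ := fromBlocks R' 0 0 0 with hR1
  set A1 : Matrix (Fin (n + 1) ⊕ Unit) (Fin (n + 1) ⊕ Unit) ℤ :=
    fromBlocks A' (-(A' * (R' * d12))) 0 1 with hA1
  set B1 : Matrix (Fin (n + 1) ⊕ Unit) (Fin (n + 1) ⊕ Unit) ℤ := fromBlocks B' 0 0 1 with hB1
  refine ⟨R0 + A0⁻¹ * R1 * A0⁻¹ᵀ, A1 * A0, B0 * B1, ?_, ?_, ?_, q, ?_⟩
  · have : R1ᵀ = R1 := by
      rw [hR1, Matrix.fromBlocks_transpose, hR']; simp
    rw [Matrix.transpose_add, hR0, Matrix.transpose_mul, Matrix.transpose_mul,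
      Matrix.transpose_transpose, this]
    simp only [Matrix.mul_assoc]
  · rw [Matrix.det_mul, hA0, mul_one, hA1, Matrix.det_fromBlocks_zero₂₁, hA']; simp
  · rw [Matrix.det_mul, hB0d, one_mul, hB1, Matrix.det_fromBlocks_zero₂₁, hB']; simp
  · have e1 : A0 * (b + (R0 + A0⁻¹ * R1 * A0⁻¹ᵀ) * d) * B0 = N * B0 + R1 * d1 := by
      rw [hN, hd1]
      have : A0 * (b + (R0 + A0⁻¹ * R1 * A0⁻¹ᵀ) * d) * B0 =
          A0 * (b + R0 * d) * B0 + (A0 * A0⁻¹) * R1 * A0⁻¹ᵀ * d * B0 := by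
        simp only [Matrix.mul_add, Matrix.add_mul, Matrix.mul_assoc]
        abel
      rw [this, Matrix.mul_nonsing_inv _ hA0u, Matrix.one_mul]
      simp only [Matrix.mul_assoc]
    have e2 : A1 * A0 * (b + (R0 + A0⁻¹ * R1 * A0⁻¹ᵀ) * d) * (B0 * B1) =
        A1 * (N * B0 + R1 * d1) * B1 := by
      rw [← e1]; simp only [Matrix.mul_assoc]
    rw [e2, hb1, hR1, hd1b, Matrix.fromBlocks_multiply, Matrix.fromBlocks_add, hA1,
      Matrix.fromBlocks_multiply, hB1, Matrix.fromBlocks_multiply]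
    simp only [Matrix.zero_mul, Matrix.mul_zero, add_zero, zero_add, Matrix.mul_one,
      Matrix.one_mul]
    rw [hq]
    simp

lemma pair_diag (n : ℕ) : ∀ b d : Matrix (Fin (n + 1)) (Fin (n + 1)) ℤ, bᵀ * d = dᵀ * b →
      (∃ X Y : Matrix (Fin (n + 1)) (Fin (n + 1)) ℤ, X * b + Y * d = 1) → Nice b d := by
  induction n with
  | zero =>
    intro b d _ _
    refine ⟨0, 1, 1, by simp, by simp, by simp, b 0 0, ?_⟩
    ext i j
    fin_cases i; fin_cases j
    simp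
  | succ n ih =>
    intro b d hbd ⟨X, Y, hXY⟩
    set e := eFinal (n + 1) with he
    obtain ⟨R, A, B, hR, hA, hB, q, hq⟩ := pair_step ih (b.submatrix e e) (d.submatrix e e)
      (by
        rw [Matrix.transpose_submatrix, Matrix.transpose_submatrix, Matrix.submatrix_mul_equiv,
          Matrix.submatrix_mul_equiv, hbd])
      ⟨X.submatrix e e, Y.submatrix e e, by
        rw [Matrix.submatrix_mul_equiv, Matrix.submatrix_mul_equiv]
        have : (X * b).submatrix e e + (Y * d).submatrix e e =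
          (X * b + Y * d).submatrix e e := rfl
        rw [this, hXY, Matrix.submatrix_one_equiv]⟩
    refine ⟨R.submatrix e.symm e.symm, A.submatrix e.symm e.symm, B.submatrix e.symm e.symm,
      ?_, ?_, ?_, q, ?_⟩
    · rw [Matrix.transpose_submatrix, hR]
    · rw [Matrix.det_submatrix_equiv_self, hA]
    · rw [Matrix.det_submatrix_equiv_self, hB]
    · have h1 : (A * (b.submatrix e e + R * d.submatrix e e) * B).submatrix e.symm e.symm =
          (fromBlocks (diagonal (fun i => if i = 0 then q else 1)) 0 0 1).submatrix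
            e.symm e.symm := by rw [hq]
      have h2 : ∀ M M' : Matrix (Fin (n + 1) ⊕ Unit) (Fin (n + 1) ⊕ Unit) ℤ,
          (M + M').submatrix e.symm e.symm = M.submatrix e.symm e.symm +
            M'.submatrix e.symm e.symm := fun _ _ => rfl
      rw [← Matrix.submatrix_mul_equiv _ _ e.symm e.symm e.symm,
        ← Matrix.submatrix_mul_equiv _ _ e.symm e.symm e.symm, h2,
        ← Matrix.submatrix_mul_equiv _ _ e.symm e.symm e.symm,
        Matrix.submatrix_submatrix, Matrix.submatrix_submatrix] at h1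
      simp only [Equiv.self_comp_symm, Matrix.submatrix_id_id] at h1
      rw [h1]
      have es1 : e.symm (Fin.last (n + 1)) = Sum.inr () := by
        rw [Equiv.symm_apply_eq]; rfl
      have es2 : ∀ i : Fin (n + 1), e.symm i.castSucc = Sum.inl i := by
        intro i; rw [Equiv.symm_apply_eq]; rfl
      have hl : Fin.last (n + 1) ≠ 0 := by
        intro h; exact absurd (congrArg Fin.val h) (by simp)
      have hc : ∀ i : Fin (n + 1), i.castSucc = 0 ↔ i = 0 := fun i => by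
        rw [Fin.ext_iff, Fin.ext_iff]; simp
      ext i j
      refine Fin.lastCases ?_ (fun i => ?_) i <;> refine Fin.lastCases ?_ (fun j => ?_) j
      · rw [Matrix.submatrix_apply, es1, Matrix.fromBlocks_apply₂₂, Matrix.diagonal_apply_eq,
          if_neg hl, Matrix.one_apply_eq]
      · rw [Matrix.submatrix_apply, es1, es2, Matrix.fromBlocks_apply₂₁,
          Matrix.diagonal_apply_ne]
        · rfl
        · exact (Fin.castSucc_lt_last j).ne'
      · rw [Matrix.submatrix_apply, es1, es2, Matrix.fromBlocks_apply₁₂,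
          Matrix.diagonal_apply_ne]
        · rfl
        · exact (Fin.castSucc_lt_last i).ne
      · rw [Matrix.submatrix_apply, es2, es2, Matrix.fromBlocks_apply₁₁]
        by_cases hij : i = j
        · subst hij
          rw [Matrix.diagonal_apply_eq, Matrix.diagonal_apply_eq]
          simp only [hc]
        · rw [Matrix.diagonal_apply_ne _ hij, Matrix.diagonal_apply_ne]
          intro h; exact hij (Fin.castSucc_injective _ h)

end Pool.Agent.K6.H19.UT
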