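import Mathlib

/-!
# Unimodular integer vectors
-/

set_option linter.unusedSectionVars false
set_option linter.unusedSimpArgs false

namespace Pool.Agent.K6.H19.UT

open Matrix

variable {ι : Type*} [Fintype ι]

/-- Unimodular vectors. -/
def Prim (v : ι → ℤ) : Prop := ∃ w : ι → ℤ, v ⬝ᵥ w = 1

lemma Prim.not_dvd {v : ι → ℤ} (hv : Prim v) {p : ℤ} (hp : ¬ IsUnit p) :
    ¬ ∀ i, p ∣ v i := by
  obtain ⟨w, hw⟩ := hv
  intro h
  apply hp
  rw [isUnit_iff_dvd_one, ← hw]
  exact Finset.dvd_sum fun i _ => Dvd.dvd.mul_right (h i) _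

lemma Prim.ne_zero {v : ι → ℤ} (hv : Prim v) : v ≠ 0 := by
  rintro rfl
  exact hv.not_dvd (p := 0) (by simp) (fun i => by simp)

lemma Prim.exists_ne {v : ι → ℤ} (hv : Prim v) : ∃ i, v i ≠ 0 := by
  by_contra h
  push Not at h
  exact hv.ne_zero (funext h)

lemma prim_iff {v : ι → ℤ} : Prim v ↔ ∀ p : ℕ, p.Prime → ¬ ∀ i, (p : ℤ) ∣ v i := by
  constructor
  · intro hv p hp
    apply hv.not_dvd
    intro h
    exact hp.one_lt.ne' (by simpa [Int.isUnit_iff_natAbs_eq] using h)
  · intro h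
    by_contra hv
    have hI : Ideal.span (Set.range v) ≠ ⊤ := by
      intro htop
      apply hv
      have h1 : (1 : ℤ) ∈ Ideal.span (Set.range v) := by rw [htop]; trivial
      rw [Ideal.mem_span_range_iff_exists_fun] at h1
      obtain ⟨c, hc⟩ := h1
      refine ⟨c, ?_⟩
      rw [← hc, dotProduct]
      exact Finset.sum_congr rfl fun i _ => mul_comm _ _
    have hgen : ∃ d : ℤ, Ideal.span (Set.range v) = Ideal.span {d} :=
      (IsPrincipalIdealRing.principal (Ideal.span (Set.range v))).principal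
    obtain ⟨d, hd⟩ := hgen
    have hd1 : d.natAbs ≠ 1 := by
      intro h1
      apply hI
      rw [hd, Ideal.span_singleton_eq_top]
      exact Int.isUnit_iff_natAbs_eq.mpr h1
    obtain ⟨p, hp, hpd⟩ := Nat.exists_prime_and_dvd hd1
    refine h p hp fun i => ?_
    have h2 : v i ∈ Ideal.span (Set.range v) := Ideal.subset_span ⟨i, rfl⟩
    rw [hd, Ideal.mem_span_singleton] at h2
    exact (Int.natCast_dvd.mpr hpd).trans h2

/-- Every nonzero vector is a nonzero multiple of a unimodular one. -/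
lemma exists_prim_of_ne_zero {v : ι → ℤ} (hv : v ≠ 0) :
    ∃ (d : ℤ) (w : ι → ℤ), d ≠ 0 ∧ Prim w ∧ v = d • w := by
  classical
  obtain ⟨i, hi⟩ := Function.ne_iff.mp hv
  obtain ⟨g, hg, hg1⟩ := Finset.extract_gcd v (s := Finset.univ) ⟨i, Finset.mem_univ i⟩
  refine ⟨Finset.univ.gcd v, g, ?_, ?_, ?_⟩
  · intro h0
    rw [Finset.gcd_eq_zero_iff] at h0
    exact hi (h0 i (Finset.mem_univ i))
  · rw [prim_iff]
    intro p hp hdvd
    have := Finset.dvd_gcd (s := Finset.univ) (f := g) (a := (p : ℤ)) fun i _ => hdvd i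
    rw [hg1] at this
    have h3 : IsUnit (p : ℤ) := isUnit_of_dvd_one this
    exact hp.one_lt.ne' (by simpa [Int.isUnit_iff_natAbs_eq] using h3)
  · ext i
    simpa using hg i (Finset.mem_univ i)

/-- Fewer linear conditions than unknowns: there is a unimodular solution. -/
lemma exists_prim_orth {n m : ℕ} (hmn : m < n) (E : Fin m → Fin n → ℤ) :
    ∃ k : Fin n → ℤ, Prim k ∧ ∀ i, E i ⬝ᵥ k = 0 := by
  classical
  set M : Matrix (Fin n) (Fin n) ℤ :=
    Matrix.of fun i j => if h : (i : ℕ) < m then E ⟨i, h⟩ j else 0 with hM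
  have hdet : M.det = 0 := by
    apply Matrix.det_eq_zero_of_row_eq_zero ⟨m, hmn⟩
    intro j
    simp [M]
  obtain ⟨v, hv0, hv⟩ := Matrix.exists_mulVec_eq_zero_iff.mpr hdet
  obtain ⟨d, k, hd, hk, rfl⟩ := exists_prim_of_ne_zero hv0
  refine ⟨k, hk, fun i => ?_⟩
  have h1 := congrFun hv ⟨i, i.2.trans hmn⟩
  have h2 : M ⟨i, i.2.trans hmn⟩ = E i := by
    ext j
    simp [M]
  rw [Matrix.mulVec, h2, dotProduct_smul] at h1
  simpa [hd] using h1

/-- The main lemma on unimodular vectors in arithmetic progressions. -/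
lemma exists_prim_add {u v : ι → ℤ}
    (h1 : ∀ p : ℕ, p.Prime → (∀ i, (p : ℤ) ∣ u i) → ¬ ∀ i, (p : ℤ) ∣ v i)
    (h2 : u = 0 ∨ v = 0 ∨ ∃ i j, u i * v j - u j * v i ≠ 0) :
    ∃ t : ℤ, Prim (fun i => u i + t * v i) := by
  classical
  rcases h2 with rfl | rfl | ⟨i, j, hij⟩
  · refine ⟨1, prim_iff.mpr fun p hp h => h1 p hp (fun i => by simp) fun i => ?_⟩
    simpa using h i
  · refine ⟨1, prim_iff.mpr fun p hp h => h1 p hp (fun i => ?_) fun i => by simp⟩
    simpa using h i
  · set D := u i * v j - u j * v i with hD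
    set P : Finset ℕ := D.natAbs.primeFactors.filter (fun p => ¬ ∀ i, (p : ℤ) ∣ u i) with hP
    set T : ℕ := ∏ p ∈ P, p with hT
    refine ⟨T, prim_iff.mpr fun p hp h => ?_⟩
    have hpD : (p : ℤ) ∣ D := by
      have hi := h i
      have hj := h j
      have : D = (u i + T * v i) * v j - (u j + T * v j) * v i := by rw [hD]; ring
      rw [this]
      exact dvd_sub (Dvd.dvd.mul_right hi _) (Dvd.dvd.mul_right hj _)
    have hpF : p ∈ D.natAbs.primeFactors := by
      rw [Nat.mem_primeFactors]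
      exact ⟨hp, Int.natCast_dvd.mp hpD, by simpa using hij⟩
    by_cases hu : ∀ i, (p : ℤ) ∣ u i
    · -- then `p` does not divide `T`
      have hpT : ¬ p ∣ T := by
        intro hdvd
        rw [hT, hp.prime.dvd_finset_prod_iff] at hdvd
        obtain ⟨q, hq, hpq⟩ := hdvd
        rw [hP, Finset.mem_filter] at hq
        have hqp := Nat.prime_of_mem_primeFactors hq.1
        rw [(Nat.prime_dvd_prime_iff_eq hp hqp)] at hpq
        subst hpq
        exact hq.2 hu
      refine h1 p hp hu fun i => ?_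
      have h3 : (p : ℤ) ∣ (T : ℤ) * v i := by
        have := dvd_sub (h i) (hu i)
        simpa using this
      rcases (Nat.prime_iff_prime_int.mp hp).dvd_or_dvd h3 with h4 | h4
      · exact absurd (Int.natCast_dvd_natCast.mp h4) hpT
      · exact h4
    · have hpP : p ∈ P := by rw [hP, Finset.mem_filter]; exact ⟨hpF, hu⟩
      have hpT : (p : ℤ) ∣ (T : ℤ) := Int.natCast_dvd_natCast.mpr (Finset.dvd_prod_of_mem _ hpP)
      apply hu
      intro i
      have := dvd_sub (h i) (Dvd.dvd.mul_right hpT (v i))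
      simpa using this

end Pool.Agent.K6.H19.UT
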