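import Pool.Agent.K6.H19.UT.Steps
import Pool.Agent.K6.H19.UT.Prim

/-!
# Unitriangular factorisations: reduction of an arbitrary matrix
-/

set_option linter.unusedSectionVars false
set_option linter.unusedSimpArgs false

namespace Pool.Agent.K6.H19.UT

open Matrix

lemma Prim.vecMul {n : ℕ} {k : Fin n → ℤ} (hk : Prim k) {g : Matrix (Fin n) (Fin n) ℤ}
    (hg : g.det = 1) : Prim (k ᵥ* g) := by
  obtain ⟨w, hw⟩ := hk
  refine ⟨g⁻¹ *ᵥ w, ?_⟩
  rw [← Matrix.dotProduct_mulVec, Matrix.mulVec_mulVec,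
    Matrix.mul_nonsing_inv _ (by rw [hg]; norm_num), Matrix.one_mulVec, hw]

/-- A pair `k`, `l` with `k g l = 1` which changes neither the first coordinates nor the
last coordinates of `k g`, `g l`. -/
lemma exists_pair {m : ℕ} (hm : 3 ≤ m) (g : Matrix (Fin (m + 2)) (Fin (m + 2)) ℤ)
    (hg : g.det = 1) :
    ∃ k l : Fin (m + 2) → ℤ, k 0 = 0 ∧ (k ᵥ* g) (Fin.last (m + 1)) = 0 ∧ l 0 = 0 ∧
      (g *ᵥ l) (Fin.last (m + 1)) = 0 ∧ k ⬝ᵥ (g *ᵥ l) = 1 := by
  have hu : IsUnit g.det := by rw [hg]; norm_num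
  set τ : Fin (m + 2) → ℤ := g (Fin.last (m + 1)) with hτ
  have h1 : ∃ (d : ℤ) (t : Fin (m + 2) → ℤ), Prim t ∧ t 0 = 0 ∧
      ∀ l : Fin (m + 2) → ℤ, l 0 = 0 → τ ⬝ᵥ l = d * (t ⬝ᵥ l) := by
    by_cases h0 : Function.update τ 0 0 = 0
    · refine ⟨0, Pi.single 1 1, ⟨Pi.single 1 1, by simp⟩, by simp, fun l hl => ?_⟩
      rw [zero_mul, dotProduct]
      apply Finset.sum_eq_zero
      intro i _
      by_cases hi : i = 0
      · rw [hi, hl, mul_zero]
      · have := congrFun h0 i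
        rw [Function.update_of_ne hi] at this
        rw [this]; simp
    · obtain ⟨d, t, hd, ht, hdt⟩ := exists_prim_of_ne_zero h0
      have ht0 : t 0 = 0 := by
        have := congrFun hdt 0
        simp only [Function.update_self, Pi.smul_apply, smul_eq_mul] at this
        rcases mul_eq_zero.mp this.symm with h | h
        · exact absurd h hd
        · exact h
      refine ⟨d, t, ht, ht0, fun l hl => ?_⟩
      rw [← smul_eq_mul, ← smul_dotProduct, ← hdt, dotProduct, dotProduct]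
      apply Finset.sum_congr rfl
      intro i _
      by_cases hi : i = 0
      · rw [hi, hl, mul_zero, mul_zero]
      · rw [Function.update_of_ne hi]
  obtain ⟨d, t, ht, ht0, hτl⟩ := h1
  obtain ⟨w, hw⟩ := ht
  set ws := g *ᵥ w with hws
  set κ := t ᵥ* g⁻¹ with hκ
  have hκw : κ ⬝ᵥ ws = 1 := by
    rw [hκ, hws, ← Matrix.dotProduct_mulVec, Matrix.mulVec_mulVec,
      Matrix.nonsing_inv_mul _ hu, Matrix.one_mulVec, hw]
  obtain ⟨k, hk, hE⟩ := exists_prim_orth (n := m + 2) (m := 4) (by omega)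
    ![Pi.single 0 1, fun i => g i (Fin.last (m + 1)), fun i => g i 0, ws]
  have hk0 : k 0 = 0 := by simpa using hE 0
  have hk1 : (k ᵥ* g) (Fin.last (m + 1)) = 0 := by
    have := hE 1
    rw [dotProduct_comm] at this
    exact this
  have hk2 : (k ᵥ* g) 0 = 0 := by
    have := hE 2
    rw [dotProduct_comm] at this
    exact this
  have hk3 : k ⬝ᵥ ws = 0 := by
    have := hE 3
    rw [dotProduct_comm] at this
    exact this
  obtain ⟨a, ha⟩ := hk
  set a' := a - (κ ⬝ᵥ a) • ws with ha'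
  set l' := g⁻¹ *ᵥ a' with hl'
  set l := l' - (l' 0) • (Pi.single 0 1 : Fin (m + 2) → ℤ) with hl
  have hka' : k ⬝ᵥ a' = 1 := by
    rw [ha', dotProduct_sub, dotProduct_smul, ha, hk3]; simp
  have hκa' : κ ⬝ᵥ a' = 0 := by
    rw [ha', dotProduct_sub, dotProduct_smul, hκw]; simp
  have hgl' : g *ᵥ l' = a' := by
    rw [hl', Matrix.mulVec_mulVec, Matrix.mul_nonsing_inv _ hu, Matrix.one_mulVec]
  have hl0 : l 0 = 0 := by simp [hl]
  refine ⟨k, l, hk0, hk1, hl0, ?_, ?_⟩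
  · change τ ⬝ᵥ l = 0
    rw [hτl l hl0]
    have : t ⬝ᵥ l = 0 := by
      rw [hl, dotProduct_sub, dotProduct_smul, dotProduct_single, ht0]
      have h3 : t ⬝ᵥ l' = 0 := by
        rw [hl', Matrix.dotProduct_mulVec]
        exact hκa'
      rw [h3]; simp
    rw [this, mul_zero]
  · rw [hl, Matrix.mulVec_sub, Matrix.mulVec_smul, dotProduct_sub, dotProduct_smul, hgl', hka',
      Matrix.mulVec_single_one]
    have : k ⬝ᵥ g.col 0 = 0 := hk2
    rw [this]; simp

/-- Lemma X: a step with prescribed last coordinates. -/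
lemma exists_step {m : ℕ} (hm : 3 ≤ m) (g : Matrix (Fin (m + 2)) (Fin (m + 2)) ℤ)
    (hg : g.det = 1) (x0 y0 : Fin (m + 2) → ℤ) (hx0 : x0 0 = 1) (hy0 : y0 0 = 1) :
    ∃ x y : Fin (m + 2) → ℤ, x 0 = 1 ∧ y 0 = 1 ∧
      (x ᵥ* g) (Fin.last (m + 1)) = (x0 ᵥ* g) (Fin.last (m + 1)) ∧
      (g *ᵥ y) (Fin.last (m + 1)) = (g *ᵥ y0) (Fin.last (m + 1)) ∧ x ⬝ᵥ (g *ᵥ y) = 1 := by
  obtain ⟨k, l, hk0, hk1, hl0, hl1, hkl⟩ := exists_pair hm g hg
  set x := x0 + (1 - x0 ⬝ᵥ (g *ᵥ l)) • k with hx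
  have hxl : x ⬝ᵥ (g *ᵥ l) = 1 := by
    rw [hx, add_dotProduct, smul_dotProduct, hkl]; simp
  set y := y0 + (1 - x ⬝ᵥ (g *ᵥ y0)) • l with hy
  refine ⟨x, y, ?_, ?_, ?_, ?_, ?_⟩
  · simp [hx, hx0, hk0]
  · simp [hy, hy0, hl0]
  · rw [hx, Matrix.add_vecMul, Matrix.smul_vecMul]
    simp [hk1]
  · rw [hy, Matrix.mulVec_add, Matrix.mulVec_smul]
    simp [hl1]
  · rw [hy, Matrix.mulVec_add, Matrix.mulVec_smul, dotProduct_add, dotProduct_smul, hxl]
    simp

/-- Lemma Y1: perturb `x` to make the last row of the Schur complement unimodular away from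
its first entry. -/
lemma perturb_prim {m : ℕ} (hm : 4 ≤ m) (g : Matrix (Fin (m + 2)) (Fin (m + 2)) ℤ)
    (hg : g.det = 1) (x y : Fin (m + 2) → ℤ) (hx : x 0 = 1) (hy : y 0 = 1)
    (hxy : x ⬝ᵥ (g *ᵥ y) = 1)
    (hμ : ∀ p : ℕ, p.Prime → (p : ℤ) ∣ (g *ᵥ y) (Fin.last (m + 1)) →
      ¬ ∀ j : Fin m, (p : ℤ) ∣ g (Fin.last (m + 1)) j.succ.succ) :
    ∃ x' : Fin (m + 2) → ℤ, x' 0 = 1 ∧
      (x' ᵥ* g) (Fin.last (m + 1)) = (x ᵥ* g) (Fin.last (m + 1)) ∧
      x' ⬝ᵥ (g *ᵥ y) = 1 ∧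
      Prim (fun j : Fin m => g (Fin.last (m + 1)) j.succ.succ -
        (g *ᵥ y) (Fin.last (m + 1)) * (x' ᵥ* g) j.succ.succ) := by
  set μ := (g *ᵥ y) (Fin.last (m + 1)) with hμdef
  set u : Fin m → ℤ := fun j => g (Fin.last (m + 1)) j.succ.succ - μ * (x ᵥ* g) j.succ.succ
    with hu
  have hi0 : ∃ i0 : Fin m, u = 0 ∨ u i0 ≠ 0 := by
    by_cases h0 : u = 0
    · exact ⟨⟨0, by omega⟩, Or.inl h0⟩
    · obtain ⟨i, hi⟩ := Function.ne_iff.mp h0
      exact ⟨i, Or.inr hi⟩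
  obtain ⟨i0, hi0⟩ := hi0
  obtain ⟨k, hk, hE⟩ := exists_prim_orth (n := m + 2) (m := 5) (by omega)
    ![Pi.single 0 1, fun i => g i (Fin.last (m + 1)), g *ᵥ y, fun i => g i 1,
      fun i => g i i0.succ.succ]
  have hk0 : k 0 = 0 := by simpa using hE 0
  have hk1 : (k ᵥ* g) (Fin.last (m + 1)) = 0 := by
    have := hE 1
    rw [dotProduct_comm] at this
    exact this
  have hk2 : k ⬝ᵥ (g *ᵥ y) = 0 := by
    have := hE 2
    rw [dotProduct_comm] at this
    exact this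
  have hk3 : (k ᵥ* g) 1 = 0 := by
    have := hE 3
    rw [dotProduct_comm] at this
    exact this
  have hk4 : (k ᵥ* g) i0.succ.succ = 0 := by
    have := hE 4
    rw [dotProduct_comm] at this
    exact this
  have hkg : Prim (k ᵥ* g) := hk.vecMul hg
  have hA : ∀ d : ℤ, (∀ j : Fin m, d ∣ (k ᵥ* g) j.succ.succ) → ∀ i, d ∣ (k ᵥ* g) i := by
    intro d hd
    have h0 : (k ᵥ* g) ⬝ᵥ y = 0 := by rw [← Matrix.dotProduct_mulVec]; exact hk2
    rw [dotProduct, Fin.sum_univ_succ, Fin.sum_univ_succ, hy, mul_one] at h0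
    have h01 : (Fin.succ 0 : Fin (m + 2)) = 1 := rfl
    rw [h01, hk3, zero_mul, zero_add] at h0
    have h00 : d ∣ (k ᵥ* g) 0 := by
      rw [eq_neg_of_add_eq_zero_left h0, dvd_neg]
      exact Finset.dvd_sum fun i _ => Dvd.dvd.mul_right (hd i) _
    intro i
    refine Fin.cases h00 (fun i => Fin.cases ?_ (fun i => hd i) i) i
    rw [h01, hk3]
    exact dvd_zero d
  obtain ⟨s, hs⟩ := exists_prim_add (u := u) (v := fun j => -μ * (k ᵥ* g) j.succ.succ) (by
      intro p hp hpu hpv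
      have hpn : ¬ IsUnit (p : ℤ) := by
        intro h
        exact hp.one_lt.ne' (by simpa [Int.isUnit_iff_natAbs_eq] using h)
      by_cases hpμ : (p : ℤ) ∣ μ
      · apply hμ p hp hpμ
        intro j
        have := dvd_add (hpu j) (Dvd.dvd.mul_right hpμ ((x ᵥ* g) j.succ.succ))
        simpa [u] using this
      · apply hkg.not_dvd hpn
        apply hA
        intro j
        have h3 := hpv j
        rw [neg_mul, dvd_neg] at h3
        exact ((Nat.prime_iff_prime_int.mp hp).dvd_or_dvd h3).resolve_left hpμ) (by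
      rcases hi0 with h0 | h0
      · exact Or.inl h0
      · right
        by_cases hμ0 : μ = 0
        · left; ext j; simp [hμ0]
        · right
          have : ∃ j : Fin m, (k ᵥ* g) j.succ.succ ≠ 0 := by
            by_contra hcon
            push Not at hcon
            exact hkg.not_dvd (p := 0) (by simp) (hA 0 fun j => by rw [hcon j])
          obtain ⟨j, hj⟩ := this
          refine ⟨i0, j, ?_⟩
          rw [hk4]
          simp only [mul_zero, sub_zero]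
          exact mul_ne_zero h0 (mul_ne_zero (neg_ne_zero.mpr hμ0) hj))
  refine ⟨x + s • k, ?_, ?_, ?_, ?_⟩
  · simp [hx, hk0]
  · rw [Matrix.add_vecMul, Matrix.smul_vecMul]; simp [hk1]
  · rw [add_dotProduct, smul_dotProduct, hk2, hxy]; simp
  · convert hs using 2 with j
    rw [Matrix.add_vecMul, Matrix.smul_vecMul]
    simp only [u, Pi.add_apply, Pi.smul_apply, smul_eq_mul]
    ring

/-- Lemma Y0: perturb `x` to make the last row of the Schur complement nonzero away from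
its first two entries. -/
lemma perturb_ne {m : ℕ} (hm : 3 ≤ m) (g : Matrix (Fin (m + 3)) (Fin (m + 3)) ℤ)
    (hg : g.det = 1) (x y : Fin (m + 3) → ℤ) (hx : x 0 = 1) (hy : y 0 = 1)
    (hxy : x ⬝ᵥ (g *ᵥ y) = 1)
    (hμ : (g *ᵥ y) (Fin.last (m + 2)) ≠ 0) :
    ∃ x' : Fin (m + 3) → ℤ, x' 0 = 1 ∧
      (x' ᵥ* g) (Fin.last (m + 2)) = (x ᵥ* g) (Fin.last (m + 2)) ∧
      x' ⬝ᵥ (g *ᵥ y) = 1 ∧
      ∃ j : Fin m, g (Fin.last (m + 2)) j.succ.succ.succ -
        (g *ᵥ y) (Fin.last (m + 2)) * (x' ᵥ* g) j.succ.succ.succ ≠ 0 := by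
  set μ := (g *ᵥ y) (Fin.last (m + 2)) with hμdef
  obtain ⟨k, hk, hE⟩ := exists_prim_orth (n := m + 3) (m := 5) (by omega)
    ![Pi.single 0 1, fun i => g i (Fin.last (m + 2)), g *ᵥ y, fun i => g i 1,
      fun i => g i 2]
  have hk0 : k 0 = 0 := by simpa using hE 0
  have hk1 : (k ᵥ* g) (Fin.last (m + 2)) = 0 := by
    have := hE 1
    rw [dotProduct_comm] at this
    exact this
  have hk2 : k ⬝ᵥ (g *ᵥ y) = 0 := by
    have := hE 2
    rw [dotProduct_comm] at this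
    exact this
  have hk3 : (k ᵥ* g) 1 = 0 := by
    have := hE 3
    rw [dotProduct_comm] at this
    exact this
  have hk4 : (k ᵥ* g) 2 = 0 := by
    have := hE 4
    rw [dotProduct_comm] at this
    exact this
  have hkg : Prim (k ᵥ* g) := hk.vecMul hg
  have hex : ∃ j : Fin m, (k ᵥ* g) j.succ.succ.succ ≠ 0 := by
    by_contra hcon
    push Not at hcon
    apply hkg.ne_zero
    have h0 : (k ᵥ* g) ⬝ᵥ y = 0 := by rw [← Matrix.dotProduct_mulVec]; exact hk2
    rw [dotProduct, Fin.sum_univ_succ, Fin.sum_univ_succ, Fin.sum_univ_succ, hy, mul_one] at h0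
    have h01 : (Fin.succ 0 : Fin (m + 3)) = 1 := rfl
    have h02 : (Fin.succ (Fin.succ 0) : Fin (m + 3)) = 2 := rfl
    rw [h01, h02, hk3, hk4] at h0
    have h00 : (k ᵥ* g) 0 = 0 := by
      have hz : ∑ i : Fin m, (k ᵥ* g) i.succ.succ.succ * y i.succ.succ.succ = 0 :=
        Finset.sum_eq_zero fun i _ => by rw [hcon i, zero_mul]
      rw [hz] at h0
      simpa using h0
    ext i
    refine Fin.cases h00 (fun i => Fin.cases ?_ (fun i => Fin.cases ?_ (fun i => hcon i) i) i) i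
    · rw [h01, hk3]; rfl
    · rw [h02, hk4]; rfl
  obtain ⟨j, hj⟩ := hex
  by_cases h : g (Fin.last (m + 2)) j.succ.succ.succ - μ * (x ᵥ* g) j.succ.succ.succ ≠ 0
  · exact ⟨x, hx, rfl, hxy, j, h⟩
  · push Not at h
    refine ⟨x + k, ?_, ?_, ?_, j, ?_⟩
    · simp [hx, hk0]
    · rw [Matrix.add_vecMul]; simp [hk1]
    · rw [add_dotProduct, hk2, hxy]; simp
    · rw [Matrix.add_vecMul]
      simp only [Pi.add_apply]
      intro h3
      have : μ * (k ᵥ* g) j.succ.succ.succ = 0 := by linear_combination h - h3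
      rcases mul_eq_zero.mp this with h4 | h4
      · exact hμ h4
      · exact hj h4

/-- the row `x` for the first step -/
lemma exists_start {n : ℕ} (v : Fin (n + 1) → ℤ) (hv : v ≠ 0) :
    ∃ x : Fin (n + 1) → ℤ, x 0 = 1 ∧ x ⬝ᵥ v ≠ 0 := by
  by_cases h : v 0 = 0
  · obtain ⟨i, hi⟩ := Function.ne_iff.mp hv
    have hi0 : i ≠ 0 := by rintro rfl; exact hi h
    refine ⟨Pi.single 0 1 + Pi.single i 1, ?_, ?_⟩
    · simp [Pi.single_eq_of_ne hi0.symm]
    · rw [add_dotProduct, single_dotProduct, single_dotProduct, h]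
      simpa using hi
  · exact ⟨Pi.single 0 1, by simp, by simpa using h⟩

lemma row_prim {n : ℕ} {g : Matrix (Fin n) (Fin n) ℤ} (hg : g.det = 1) (i : Fin n) :
    Prim (g i) := by
  have : Prim ((Pi.single i 1 : Fin n → ℤ) ᵥ* g) :=
    Prim.vecMul ⟨Pi.single i 1, by simp⟩ hg
  rwa [Matrix.single_one_vecMul] at this

lemma col_prim {n : ℕ} {g : Matrix (Fin n) (Fin n) ℤ} (hg : g.det = 1) (i : Fin n) :
    Prim (fun j => g j i) := by
  have := row_prim (g := gᵀ) (by rw [Matrix.det_transpose]; exact hg) i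
  exact this

/-- First step: make the last row and the last column nonzero away from two entries. -/
lemma stepOne {m : ℕ} (hm : 3 ≤ m) (g : Matrix (Fin (m + 3)) (Fin (m + 3)) ℤ)
    (hg : g.det = 1) :
    ∃ x y : Fin (m + 3) → ℤ, x 0 = 1 ∧ y 0 = 1 ∧ x ⬝ᵥ (g *ᵥ y) = 1 ∧
      (∃ j : Fin m, g (Fin.last (m + 2)) j.succ.succ.succ -
        (g *ᵥ y) (Fin.last (m + 2)) * (x ᵥ* g) j.succ.succ.succ ≠ 0) ∧
      (∃ i : Fin m, g i.succ.succ.succ (Fin.last (m + 2)) -
        (g *ᵥ y) i.succ.succ.succ * (x ᵥ* g) (Fin.last (m + 2)) ≠ 0) := by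
  have hgT : gᵀ.det = 1 := by rw [Matrix.det_transpose]; exact hg
  obtain ⟨x0, hx0, hx0'⟩ := exists_start _ (col_prim hg (Fin.last (m + 2))).ne_zero
  obtain ⟨y0, hy0, hy0'⟩ := exists_start _ (row_prim hg (Fin.last (m + 2))).ne_zero
  rw [dotProduct_comm] at hy0'
  obtain ⟨x1, y1, hx1, hy1, hxc, hyc, hxy⟩ :=
    exists_step (m := m + 1) (by omega) g hg x0 y0 hx0 hy0
  have hμ : (g *ᵥ y1) (Fin.last (m + 2)) ≠ 0 := by
    rw [hyc]; exact hy0'
  have hν : (x1 ᵥ* g) (Fin.last (m + 2)) ≠ 0 := by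
    rw [hxc]; exact hx0'
  obtain ⟨x2, hx2, hxc2, hxy2, hj⟩ := perturb_ne hm g hg x1 y1 hx1 hy1 hxy hμ
  have hν2 : (gᵀ *ᵥ x2) (Fin.last (m + 2)) ≠ 0 := by
    rw [Matrix.mulVec_transpose, hxc2]; exact hν
  have hxyT : y1 ⬝ᵥ (gᵀ *ᵥ x2) = 1 := by
    rw [Matrix.mulVec_transpose, dotProduct_comm, ← Matrix.dotProduct_mulVec]; exact hxy2
  obtain ⟨y2, hy2, hyc2, hxy3, hi⟩ := perturb_ne hm gᵀ hgT y1 x2 hy1 hx2 hxyT hν2
  rw [Matrix.vecMul_transpose, Matrix.vecMul_transpose] at hyc2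
  rw [Matrix.mulVec_transpose, dotProduct_comm, ← Matrix.dotProduct_mulVec] at hxy3
  refine ⟨x2, y2, hx2, hy2, hxy3, ?_, ?_⟩
  · obtain ⟨j, hj⟩ := hj
    refine ⟨j, ?_⟩
    rw [hyc2]
    exact hj
  · obtain ⟨i, hi⟩ := hi
    refine ⟨i, ?_⟩
    rw [Matrix.mulVec_transpose, Matrix.vecMul_transpose, Matrix.transpose_apply] at hi
    rw [mul_comm ((g *ᵥ y2) _)]
    exact hi

/-- start of the second step -/
lemma exists_start2 {m : ℕ} (v : Fin (m + 2) → ℤ) (hv : Prim v) (h : ∃ j : Fin m, v j.succ.succ ≠ 0) :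
    ∃ x : Fin (m + 2) → ℤ, x 0 = 1 ∧
      ∀ p : ℕ, p.Prime → (p : ℤ) ∣ v ⬝ᵥ x → ¬ ∀ j : Fin m, (p : ℤ) ∣ v j.succ.succ := by
  obtain ⟨j0, hj0⟩ := h
  obtain ⟨s, hs⟩ := exists_prim_add
    (u := (Fin.cons (v 0) (fun j : Fin m => v j.succ.succ) : Fin (m + 1) → ℤ))
    (v := (Fin.cons (v 1) (fun _ : Fin m => 0) : Fin (m + 1) → ℤ)) (by
      intro p hp hpu hpv
      have hpn : ¬ IsUnit (p : ℤ) := by
        intro h
        exact hp.one_lt.ne' (by simpa [Int.isUnit_iff_natAbs_eq] using h)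
      apply hv.not_dvd hpn
      intro i
      refine Fin.cases ?_ (fun i => Fin.cases ?_ (fun i => ?_) i) i
      · simpa using hpu 0
      · simpa using hpv 0
      · simpa using hpu i.succ) (by
      right
      by_cases h1 : v 1 = 0
      · left
        ext i
        refine Fin.cases ?_ (fun i => ?_) i
        · simp [h1]
        · simp
      · right
        refine ⟨0, j0.succ, ?_⟩
        simp [hj0, h1])
  refine ⟨Fin.cons 1 (Fin.cons s (fun _ => 0)), by simp, ?_⟩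
  intro p hp hdvd hall
  rw [prim_iff] at hs
  apply hs p hp
  intro i
  refine Fin.cases ?_ (fun i => ?_) i
  · have h01 : (Fin.succ 0 : Fin (m + 2)) = 1 := rfl
    simp only [dotProduct, Fin.sum_univ_succ, Fin.cons_zero, Fin.cons_succ, h01] at hdvd
    simp only [Fin.cons_zero]
    simpa [mul_comm] using hdvd
  · simpa using hall i

/-- Second step: make the last row and the last column unimodular away from the first entry. -/
lemma stepTwo {m : ℕ} (hm : 4 ≤ m) (g : Matrix (Fin (m + 2)) (Fin (m + 2)) ℤ)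
    (hg : g.det = 1) (hrow : ∃ j : Fin m, g (Fin.last (m + 1)) j.succ.succ ≠ 0)
    (hcol : ∃ i : Fin m, g i.succ.succ (Fin.last (m + 1)) ≠ 0) :
    ∃ x y : Fin (m + 2) → ℤ, x 0 = 1 ∧ y 0 = 1 ∧ x ⬝ᵥ (g *ᵥ y) = 1 ∧
      Prim (fun j : Fin m => g (Fin.last (m + 1)) j.succ.succ -
        (g *ᵥ y) (Fin.last (m + 1)) * (x ᵥ* g) j.succ.succ) ∧
      Prim (fun i : Fin m => g i.succ.succ (Fin.last (m + 1)) -
        (g *ᵥ y) i.succ.succ * (x ᵥ* g) (Fin.last (m + 1))) := by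
  have hgT : gᵀ.det = 1 := by rw [Matrix.det_transpose]; exact hg
  obtain ⟨x0, hx0, hx0'⟩ := exists_start2 _ (col_prim hg (Fin.last (m + 1))) hcol
  obtain ⟨y0, hy0, hy0'⟩ := exists_start2 _ (row_prim hg (Fin.last (m + 1))) hrow
  obtain ⟨x1, y1, hx1, hy1, hxc, hyc, hxy⟩ :=
    exists_step (m := m) (by omega) g hg x0 y0 hx0 hy0
  have hμ : ∀ p : ℕ, p.Prime → (p : ℤ) ∣ (g *ᵥ y1) (Fin.last (m + 1)) →
      ¬ ∀ j : Fin m, (p : ℤ) ∣ g (Fin.last (m + 1)) j.succ.succ := by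
    rw [hyc]; exact hy0'
  obtain ⟨x2, hx2, hxc2, hxy2, hj⟩ := perturb_prim hm g hg x1 y1 hx1 hy1 hxy hμ
  have hν : ∀ p : ℕ, p.Prime → (p : ℤ) ∣ (gᵀ *ᵥ x2) (Fin.last (m + 1)) →
      ¬ ∀ j : Fin m, (p : ℤ) ∣ gᵀ (Fin.last (m + 1)) j.succ.succ := by
    rw [Matrix.mulVec_transpose, hxc2, hxc]
    intro p hp h1
    refine hx0' p hp ?_
    rw [dotProduct_comm]
    exact h1
  have hxyT : y1 ⬝ᵥ (gᵀ *ᵥ x2) = 1 := by
    rw [Matrix.mulVec_transpose, dotProduct_comm, ← Matrix.dotProduct_mulVec]; exact hxy2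
  obtain ⟨y2, hy2, hyc2, hxy3, hi⟩ := perturb_prim hm gᵀ hgT y1 x2 hy1 hx2 hxyT hν
  rw [Matrix.vecMul_transpose, Matrix.vecMul_transpose] at hyc2
  rw [Matrix.mulVec_transpose, dotProduct_comm, ← Matrix.dotProduct_mulVec] at hxy3
  refine ⟨x2, y2, hx2, hy2, hxy3, ?_, ?_⟩
  · rw [hyc2]
    exact hj
  · rw [Matrix.mulVec_transpose, Matrix.vecMul_transpose] at hi
    convert hi using 2 with i
    rw [Matrix.transpose_apply]
    ring

/-- Third step: make the last diagonal entry equal to one. -/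
lemma stepThree {m : ℕ} (hm : 3 ≤ m) (g : Matrix (Fin (m + 2)) (Fin (m + 2)) ℤ)
    (hg : g.det = 1) (hrow : Prim (fun j : Fin (m + 1) => g (Fin.last (m + 1)) j.succ))
    (hcol : Prim (fun i : Fin (m + 1) => g i.succ (Fin.last (m + 1)))) :
    ∃ x y : Fin (m + 2) → ℤ, x 0 = 1 ∧ y 0 = 1 ∧ x ⬝ᵥ (g *ᵥ y) = 1 ∧
      (x ᵥ* g) (Fin.last (m + 1)) = g (Fin.last (m + 1)) (Fin.last (m + 1)) - 1 ∧
      (g *ᵥ y) (Fin.last (m + 1)) = 1 := by
  set t := g (Fin.last (m + 1)) (Fin.last (m + 1)) with ht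
  set τ := g (Fin.last (m + 1)) with hτ
  obtain ⟨w, hw⟩ := hcol
  set x0 : Fin (m + 2) → ℤ := Fin.cons 1 (fun i => (t - 1 - g 0 (Fin.last (m + 1))) * w i)
    with hx0
  have hx00 : x0 0 = 1 := rfl
  have hx0t : (x0 ᵥ* g) (Fin.last (m + 1)) = t - 1 := by
    simp only [Matrix.vecMul, dotProduct, Fin.sum_univ_succ (n := m + 1), hx0, Fin.cons_zero,
      Fin.cons_succ, one_mul]
    have : ∑ i : Fin (m + 1), (t - 1 - g 0 (Fin.last (m + 1))) * w i *
        g i.succ (Fin.last (m + 1)) = (t - 1 - g 0 (Fin.last (m + 1))) := by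
      have h1 : ∑ i : Fin (m + 1), (t - 1 - g 0 (Fin.last (m + 1))) * w i *
          g i.succ (Fin.last (m + 1)) = (t - 1 - g 0 (Fin.last (m + 1))) *
          ((fun i : Fin (m + 1) => g i.succ (Fin.last (m + 1))) ⬝ᵥ w) := by
        rw [dotProduct, Finset.mul_sum]
        exact Finset.sum_congr rfl fun i _ => by ring
      rw [h1, hw, mul_one]
    rw [this]; ring
  -- the middle part
  set u : Fin m → ℤ := fun j => τ j.castSucc.succ + t * ((x0 ᵥ* g) j.castSucc.succ -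
    τ j.castSucc.succ) with hu
  have hi0 : ∃ i0 : Fin m, u = 0 ∨ u i0 ≠ 0 := by
    by_cases h0 : u = 0
    · exact ⟨⟨0, by omega⟩, Or.inl h0⟩
    · obtain ⟨i, hi⟩ := Function.ne_iff.mp h0
      exact ⟨i, Or.inr hi⟩
  obtain ⟨i0, hi0⟩ := hi0
  obtain ⟨k, hk, hE⟩ := exists_prim_orth (n := m + 2) (m := 4) (by omega)
    ![Pi.single 0 1, fun i => g i (Fin.last (m + 1)), fun i => g i 0,
      fun i => g i i0.castSucc.succ]
  have hk0 : k 0 = 0 := by simpa using hE 0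
  have hk1 : (k ᵥ* g) (Fin.last (m + 1)) = 0 := by
    have := hE 1
    rw [dotProduct_comm] at this
    exact this
  have hk3 : (k ᵥ* g) 0 = 0 := by
    have := hE 2
    rw [dotProduct_comm] at this
    exact this
  have hk4 : (k ᵥ* g) i0.castSucc.succ = 0 := by
    have := hE 3
    rw [dotProduct_comm] at this
    exact this
  have hkg : Prim (k ᵥ* g) := hk.vecMul hg
  have hA : ∀ d : ℤ, (∀ j : Fin m, d ∣ (k ᵥ* g) j.castSucc.succ) → ∀ i, d ∣ (k ᵥ* g) i := by
    intro d hd i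
    refine Fin.cases ?_ (fun i => Fin.lastCases ?_ (fun i => hd i) i) i
    · rw [hk3]; exact dvd_zero d
    · rw [Fin.succ_last, hk1]; exact dvd_zero d
  obtain ⟨s, hs⟩ := exists_prim_add (u := u) (v := fun j => t * (k ᵥ* g) j.castSucc.succ) (by
      intro p hp hpu hpv
      have hpn : ¬ IsUnit (p : ℤ) := by
        intro h
        exact hp.one_lt.ne' (by simpa [Int.isUnit_iff_natAbs_eq] using h)
      by_cases hpt : (p : ℤ) ∣ t
      · apply hrow.not_dvd hpn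
        intro j
        refine Fin.lastCases ?_ (fun j => ?_) j
        · rw [Fin.succ_last]; exact hpt
        · have := dvd_sub (hpu j) (Dvd.dvd.mul_right hpt ((x0 ᵥ* g) j.castSucc.succ -
            τ j.castSucc.succ))
          simpa [u] using this
      · apply hkg.not_dvd hpn
        apply hA
        intro j
        exact ((Nat.prime_iff_prime_int.mp hp).dvd_or_dvd (hpv j)).resolve_left hpt) (by
      rcases hi0 with h0 | h0
      · exact Or.inl h0
      · right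
        by_cases ht0 : t = 0
        · left; ext j; simp [ht0]
        · right
          have : ∃ j : Fin m, (k ᵥ* g) j.castSucc.succ ≠ 0 := by
            by_contra hcon
            push Not at hcon
            exact hkg.not_dvd (p := 0) (by simp) (hA 0 fun j => by rw [hcon j])
          obtain ⟨j, hj⟩ := this
          refine ⟨i0, j, ?_⟩
          rw [hk4]
          simp only [mul_zero, sub_zero]
          exact mul_ne_zero h0 (mul_ne_zero ht0 hj))
  set x := x0 + s • k with hx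
  have hxg : ∀ j, (x ᵥ* g) j = (x0 ᵥ* g) j + s * (k ᵥ* g) j := by
    intro j
    rw [hx, Matrix.add_vecMul, Matrix.smul_vecMul]; simp
  have hxlast : (x ᵥ* g) (Fin.last (m + 1)) = t - 1 := by rw [hxg, hk1, hx0t]; ring
  obtain ⟨w', hw'⟩ := hs
  set p := x ᵥ* g with hp
  have hz : ∀ j : Fin m, u j + s * (t * (k ᵥ* g) j.castSucc.succ) =
      τ j.castSucc.succ + t * (p j.castSucc.succ - τ j.castSucc.succ) := by
    intro j
    rw [hxg]; simp only [u]; ring
  have hw2 : ∑ j : Fin m, (τ j.castSucc.succ + t * (p j.castSucc.succ - τ j.castSucc.succ)) *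
      w' j = 1 := by
    rw [← hw', dotProduct]
    exact Finset.sum_congr rfl fun j _ => by rw [hz]
  set s1 := 1 - p 0 with hs1
  set s2 := 1 - τ 0 with hs2
  set c := s2 + t * (s1 - s2) with hc
  set yl := (∑ j : Fin m, (p j.castSucc.succ - τ j.castSucc.succ) * (c * w' j)) - (s1 - s2)
    with hyl
  set y : Fin (m + 2) → ℤ := Fin.cons 1 (Fin.snoc (fun j : Fin m => c * w' j) yl) with hy
  have hsum : ∀ f : Fin (m + 2) → ℤ, f ⬝ᵥ y = f 0 + (∑ j : Fin m, f j.castSucc.succ *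
      (c * w' j)) + f (Fin.last (m + 1)) * yl := by
    intro f
    rw [dotProduct, Fin.sum_univ_succ, Fin.sum_univ_castSucc]
    simp only [hy, Fin.cons_zero, Fin.cons_succ, Fin.snoc_castSucc, Fin.snoc_last, mul_one,
      add_assoc]
    rfl
  have hkey : ∑ j : Fin m, τ j.castSucc.succ * (c * w' j) + t * (∑ j : Fin m,
      (p j.castSucc.succ - τ j.castSucc.succ) * (c * w' j)) = c := by
    have h1 : ∑ j : Fin m, τ j.castSucc.succ * (c * w' j) + t * (∑ j : Fin m,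
        (p j.castSucc.succ - τ j.castSucc.succ) * (c * w' j)) = c * ∑ j : Fin m,
        (τ j.castSucc.succ + t * (p j.castSucc.succ - τ j.castSucc.succ)) * w' j := by
      rw [Finset.mul_sum, Finset.mul_sum, ← Finset.sum_add_distrib]
      exact Finset.sum_congr rfl fun j _ => by ring
    rw [h1, hw2, mul_one]
  have hpd : ∑ j : Fin m, p j.castSucc.succ * (c * w' j) =
      ∑ j : Fin m, τ j.castSucc.succ * (c * w' j) + ∑ j : Fin m,
      (p j.castSucc.succ - τ j.castSucc.succ) * (c * w' j) := by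
    rw [← Finset.sum_add_distrib]
    exact Finset.sum_congr rfl fun j _ => by ring
  have hτy : τ ⬝ᵥ y = 1 := by
    rw [hsum, hyl]
    change τ 0 + _ + t * _ = 1
    linear_combination hkey + hc + hs2
  have hpy : p ⬝ᵥ y = 1 := by
    rw [hsum, hpd, hxlast]
    linear_combination hkey + hc + hs1 - (1 : ℤ) * hyl + t * hyl
  refine ⟨x, y, ?_, rfl, ?_, hxlast, hτy⟩
  · simp [hx, hx00, hk0]
  · rw [Matrix.dotProduct_mulVec]; exact hpy

end Pool.Agent.K6.H19.UT
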