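import Pool.Agent.K6.H19.UT.Pair
import Pool.Agent.K6.H19.UT.Final

/-!
# The Siegel step for symplectic matrices
-/

set_option linter.unusedSectionVars false
set_option linter.unusedSimpArgs false

namespace Pool.Agent.K6.H19.UT

open Matrix

/-- The arithmetic lemma. -/
lemma nt_solve (e q : ℤ) (h : IsCoprime e q) : ∃ k Z z ε : ℤ, (ε = 1 ∨ ε = -1) ∧
    Z * (e + k * q) - q * z ^ 2 = ε := by
  by_cases hq : q = 0
  · subst hq
    have he : IsUnit e := isCoprime_zero_right.mp h
    have he' : e * e = 1 := Int.isUnit_mul_self he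
    exact ⟨0, e, 0, 1, Or.inl rfl, by linear_combination he'⟩
  · -- make `e` odd
    obtain ⟨k0, hk0⟩ : ∃ k0 : ℤ, Odd (e + k0 * q) := by
      rcases Int.even_or_odd e with he | he
      · refine ⟨1, ?_⟩
        rw [one_mul]
        apply Even.add_odd he
        by_contra hq2
        rw [Int.not_odd_iff_even] at hq2
        obtain ⟨x, y, hxy⟩ := h
        have : Even (x * e + y * q) := (he.mul_left x).add (hq2.mul_left y)
        rw [hxy] at this
        exact absurd this (by decide)
      · exact ⟨0, by simpa using he⟩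
    obtain ⟨s, hs, f, hf⟩ : ∃ s : ℤ, s * s = 1 ∧ ∃ f : ℤ, s * (e + k0 * q) = 3 + 4 * f := by
      obtain ⟨g, hg⟩ := hk0
      rcases Int.even_or_odd g with ⟨g', hg'⟩ | ⟨g', hg'⟩
      · exact ⟨-1, by norm_num, -g' - 1, by rw [hg, hg']; ring⟩
      · exact ⟨1, by norm_num, g', by rw [hg, hg']; ring⟩
    have hcop : IsCoprime (s * (e + k0 * q)) q := by
      apply IsCoprime.mul_left
      · exact ⟨s, 0, by linear_combination hs⟩
      · have := IsCoprime.add_mul_left_left h k0
        rwa [mul_comm q k0] at this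
    obtain ⟨p, u, hp, hpu⟩ := exists_prime_in (a := q) (N := 4) (e := s * (e + k0 * q)) hq
      (by norm_num) hcop (by
        rw [hf]
        have : IsCoprime (3 : ℤ) 4 := ⟨-1, 1, by norm_num⟩
        exact IsCoprime.add_mul_left_left this _)
    haveI : Fact p.Prime := ⟨hp⟩
    have hp4 : p % 4 = 3 := by
      have : (p : ℤ) = 3 + 4 * (f + q * u) := by rw [hpu, hf]; ring
      omega
    have hpq : ((q : ℤ) : ZMod p) ≠ 0 := by
      intro h0
      rw [ZMod.intCast_zmod_eq_zero_iff_dvd] at h0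
      have h1 : (p : ℤ) ∣ s * (e + k0 * q) := by
        have : s * (e + k0 * q) = p - q * (4 * u) := by rw [hpu]; ring
        rw [this]
        exact dvd_sub dvd_rfl (Dvd.dvd.mul_right h0 _)
      have h2 := hcop.isUnit_of_dvd' h1 h0
      exact hp.one_lt.ne' (by simpa [Int.isUnit_iff_natAbs_eq] using h2)
    -- `q` or `-q` is a square
    have hsq : ∃ z : ℤ, (p : ℤ) ∣ q * z ^ 2 - 1 ∨ (p : ℤ) ∣ q * z ^ 2 + 1 := by
      by_cases h1 : IsSquare ((q : ℤ) : ZMod p)
      · obtain ⟨y, hy⟩ := h1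
        obtain ⟨z, hz⟩ := ZMod.intCast_surjective (y⁻¹)
        have hy0 : y ≠ 0 := by rintro rfl; exact hpq (by rw [hy]; simp)
        refine ⟨z, Or.inl ?_⟩
        rw [← ZMod.intCast_zmod_eq_zero_iff_dvd]
        push_cast
        rw [hz, hy]
        field_simp
        ring
      · have h2 : IsSquare (-((q : ℤ) : ZMod p)) := by
          have hneg : ¬ IsSquare (-1 : ZMod p) := by
            rw [ZMod.exists_sq_eq_neg_one_iff]
            simpa using hp4
          rw [← quadraticChar_neg_one_iff_not_isSquare] at h1 hneg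
          rw [← quadraticChar_one_iff_isSquare (neg_ne_zero.mpr hpq)]
          have : -((q : ℤ) : ZMod p) = (-1) * ((q : ℤ) : ZMod p) := by ring
          rw [this, map_mul, h1, hneg]
          norm_num
        obtain ⟨y, hy⟩ := h2
        obtain ⟨z, hz⟩ := ZMod.intCast_surjective (y⁻¹)
        have hy0 : y ≠ 0 := by
          rintro rfl
          apply hpq
          rw [← neg_eq_zero, hy]; simp
        refine ⟨z, Or.inr ?_⟩
        rw [← ZMod.intCast_zmod_eq_zero_iff_dvd]
        push_cast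
        have hq' : ((q : ℤ) : ZMod p) = -(y * y) := by rw [← hy]; ring
        rw [hz, hq']
        field_simp
        ring
    have he' : e + (k0 + 4 * s * u) * q = s * p := by
      rw [hpu]; linear_combination (-e - k0 * q) * hs
    obtain ⟨z, ⟨m, hm⟩ | ⟨m, hm⟩⟩ := hsq
    · refine ⟨k0 + 4 * s * u, s * m, z, -1, Or.inr rfl, ?_⟩
      rw [he']
      linear_combination m * p * hs - hm
    · refine ⟨k0 + 4 * s * u, s * m, z, 1, Or.inl rfl, ?_⟩
      rw [he']
      linear_combination m * p * hs - hm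

/-- index bijection -/
def eTwo (m : ℕ) : Fin 2 ⊕ Fin (m + 1) ≃ Fin (m + 3) :=
  finSumFinEquiv.trans (finCongr (by omega))

lemma eTwo_zero (m : ℕ) : (eTwo m).symm 0 = Sum.inl 0 := by
  rw [Equiv.symm_apply_eq]
  rfl

/-- The normal form case. -/
lemma siegel_solve {m : ℕ} (a : Matrix (Fin (m + 3)) (Fin (m + 3)) ℤ) (q : ℤ)
    (hsym : a * diagonal (fun i => if i = 0 then q else 1) =
      diagonal (fun i => if i = 0 then q else 1) * aᵀ)
    (hcop : IsCoprime (a 0 0) q) :
    ∃ W : Matrix (Fin (m + 3)) (Fin (m + 3)) ℤ, Wᵀ = W ∧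
      (a + diagonal (fun i => if i = 0 then q else 1) * W).det = 1 := by
  obtain ⟨k, Z, z, ε, hε, hsolve⟩ := nt_solve _ _ hcop
  set M : Matrix (Fin 2 ⊕ Fin (m + 1)) (Fin 2 ⊕ Fin (m + 1)) ℤ :=
    fromBlocks !![a 0 0 + k * q, q * z; z, Z] 0 0
      (diagonal (fun i => if i = 0 then ε else 1)) with hM
  have hMd : M.det = 1 := by
    rw [hM, Matrix.det_fromBlocks_zero₂₁, Matrix.det_fin_two_of, Matrix.det_diagonal,
      Fin.prod_univ_succ]
    simp only [if_true]
    have : ∏ i : Fin m, (if (i.succ : Fin (m + 1)) = 0 then ε else 1) = 1 :=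
      Finset.prod_eq_one fun i _ => by rw [if_neg (Fin.succ_ne_zero i)]
    rw [this, mul_one]
    have : (a 0 0 + k * q) * Z - q * z * z = ε := by linear_combination hsolve
    rw [this]
    rcases hε with rfl | rfl <;> norm_num
  have hM0 : ∀ j, j ≠ Sum.inl 0 → M (Sum.inl 0) j = q * M j (Sum.inl 0) := by
    rintro (j | j) hj
    · fin_cases j
      · exact absurd rfl hj
      · simp [M]
    · simp [M]
  have hMs : ∀ i j, i ≠ Sum.inl 0 → j ≠ Sum.inl 0 → M i j = M j i := by
    rintro (i | i) (j | j) hi hj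
    · fin_cases i <;> fin_cases j
      · rfl
      · exact absurd rfl hi
      · exact absurd rfl hj
      · rfl
    · simp [M]
    · simp [M]
    · by_cases hij : i = j
      · subst hij; rfl
      · simp only [M, Matrix.fromBlocks_apply₂₂]
        rw [Matrix.diagonal_apply_ne _ hij, Matrix.diagonal_apply_ne _ (Ne.symm hij)]
  set L := M.submatrix (eTwo m).symm (eTwo m).symm with hL
  have hLd : L.det = 1 := by rw [hL, Matrix.det_submatrix_equiv_self, hMd]
  have hne : ∀ i : Fin (m + 3), i ≠ 0 → (eTwo m).symm i ≠ Sum.inl 0 := by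
    intro i hi h
    rw [← eTwo_zero m] at h
    exact hi ((eTwo m).symm.injective h)
  have hL00 : L 0 0 = a 0 0 + k * q := by
    rw [hL, Matrix.submatrix_apply, eTwo_zero]; simp [M]
  have hL0 : ∀ j, j ≠ 0 → L 0 j = q * L j 0 := by
    intro j hj
    rw [hL, Matrix.submatrix_apply, Matrix.submatrix_apply, eTwo_zero]
    exact hM0 _ (hne j hj)
  have hLs : ∀ i j, i ≠ 0 → j ≠ 0 → L i j = L j i := by
    intro i j hi hj
    rw [hL, Matrix.submatrix_apply, Matrix.submatrix_apply]
    exact hMs _ _ (hne i hi) (hne j hj)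
  have ha : ∀ i j, a i j * (if j = 0 then q else 1) = (if i = 0 then q else 1) * a j i := by
    intro i j
    have := congrFun (congrFun hsym i) j
    rw [Matrix.mul_diagonal, Matrix.diagonal_mul, Matrix.transpose_apply] at this
    exact this
  refine ⟨Matrix.of fun i j => if i = 0 then (if j = 0 then k else L j 0 - a j 0)
    else L i j - a i j, ?_, ?_⟩
  · ext i j
    simp only [Matrix.transpose_apply, Matrix.of_apply]
    by_cases hi : i = 0
    · subst hi
      by_cases hj : j = 0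
      · subst hj; simp
      · simp [hj]
    · by_cases hj : j = 0
      · subst hj; simp [hi]
      · have h1 := ha i j
        rw [if_neg hi, if_neg hj, mul_one, one_mul] at h1
        simp only [if_neg hi, if_neg hj]
        rw [h1, hLs i j hi hj]
  · refine (congrArg Matrix.det ?_).trans hLd
    ext i j
    rw [Matrix.add_apply, Matrix.diagonal_mul, Matrix.of_apply]
    by_cases hi : i = 0
    · subst hi
      by_cases hj : j = 0
      · subst hj; simp [hL00, mul_comm]
      · have h1 := ha 0 j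
        rw [if_neg hj, if_pos rfl, mul_one] at h1
        rw [if_pos rfl, if_neg hj, h1, hL0 j hj]
        simp only [if_true]
        ring
    · simp only [if_neg hi]; ring

/-- **The Siegel step**: for a symplectic matrix there are symmetric `R`, `W` for which the
upper left block of `x(R) g y(W)` has determinant one. -/
theorem siegel {m : ℕ} (a b c d : Matrix (Fin (m + 3)) (Fin (m + 3)) ℤ)
    (hg : fromBlocks a b c d ∈ symplecticGroup (Fin (m + 3)) ℤ) :
    ∃ R W : Matrix (Fin (m + 3)) (Fin (m + 3)) ℤ, Rᵀ = R ∧ Wᵀ = W ∧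
      (a + R * c + (b + R * d) * W).det = 1 := by
  have hcol := SymplecticGroup.fromBlocks_mem_iff.mp hg
  have hgT := SymplecticGroup.transpose_mem hg
  rw [Matrix.fromBlocks_transpose] at hgT
  have hrow := SymplecticGroup.fromBlocks_mem_iff.mp hgT
  simp only [Matrix.transpose_transpose] at hrow
  obtain ⟨-, hc2, hc3⟩ := hcol
  obtain ⟨hr1, hr2, hr3⟩ := hrow
  obtain ⟨R, A, B, hR, hA, hB, q, hq⟩ := pair_diag (m + 2) b d hc2
    ⟨-cᵀ, aᵀ, by rw [← hc3, Matrix.neg_mul]; abel⟩
  have hAu : IsUnit A.det := by rw [hA]; norm_num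
  have hBu : IsUnit B.det := by rw [hB]; norm_num
  set Δ : Matrix (Fin (m + 3)) (Fin (m + 3)) ℤ :=
    diagonal (fun i => if i = 0 then q else 1) with hΔ
  have hΔT : Δᵀ = Δ := by rw [hΔ, Matrix.diagonal_transpose]
  have hBB : B⁻¹ᵀ * Bᵀ = 1 := by
    rw [← Matrix.transpose_mul, Matrix.mul_nonsing_inv _ hBu, Matrix.transpose_one]
  have hBB' : Bᵀ * B⁻¹ᵀ = 1 := by
    rw [← Matrix.transpose_mul, Matrix.nonsing_inv_mul _ hBu, Matrix.transpose_one]
  set a' := A * (a + R * c) * B⁻¹ᵀ with ha'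
  have hr3T : d * aᵀ - c * bᵀ = 1 := by
    have := congrArg Matrix.transpose hr3
    simpa [Matrix.transpose_mul] using this
  have hs : (a + R * c) * (b + R * d)ᵀ = (b + R * d) * (a + R * c)ᵀ := by
    simp only [Matrix.transpose_add, Matrix.transpose_mul, hR]
    have e1 : (a + R * c) * (bᵀ + dᵀ * R) - (b + R * d) * (aᵀ + cᵀ * R) =
        (a * bᵀ - b * aᵀ) + (a * dᵀ - b * cᵀ) * R - R * (d * aᵀ - c * bᵀ) +
          R * (c * dᵀ - d * cᵀ) * R := by
      simp only [Matrix.add_mul, Matrix.mul_add, Matrix.sub_mul, Matrix.mul_sub, Matrix.mul_assoc]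
      abel
    rw [hr1, hr2, hr3, hr3T] at e1
    simp only [sub_self, Matrix.one_mul, Matrix.mul_one, Matrix.mul_zero, Matrix.zero_mul,
      zero_add, add_zero] at e1
    exact sub_eq_zero.mp e1
  have hasym : a' * Δ = A * ((a + R * c) * (b + R * d)ᵀ) * Aᵀ := by
    have h1 : Δ = Bᵀ * (b + R * d)ᵀ * Aᵀ := by
      rw [← hΔT, ← hq, Matrix.transpose_mul, Matrix.transpose_mul, Matrix.mul_assoc]
    rw [h1, ha']
    calc A * (a + R * c) * B⁻¹ᵀ * (Bᵀ * (b + R * d)ᵀ * Aᵀ)
        = A * (a + R * c) * (B⁻¹ᵀ * Bᵀ) * (b + R * d)ᵀ * Aᵀ := by simp only [Matrix.mul_assoc]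
      _ = _ := by rw [hBB, Matrix.mul_one]; simp only [Matrix.mul_assoc]
  have hsym : a' * Δ = Δ * a'ᵀ := by
    have h1 : (a' * Δ)ᵀ = a' * Δ := by
      rw [hasym]
      simp only [Matrix.transpose_mul, Matrix.transpose_transpose]
      have h2 := hs
      simp only [Matrix.transpose_mul, Matrix.transpose_add] at h2 ⊢
      rw [h2]
      simp only [Matrix.mul_assoc]
    rw [← h1, Matrix.transpose_mul, hΔT]
  have hcop : IsCoprime (a' 0 0) q := by
    have h1 : a' * (Bᵀ * dᵀ * A⁻¹) + Δ * (-(B⁻¹ * cᵀ * A⁻¹)) = 1 := by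
      have e1 : a' * (Bᵀ * dᵀ * A⁻¹) = A * ((a + R * c) * dᵀ) * A⁻¹ := by
        rw [ha']
        calc A * (a + R * c) * B⁻¹ᵀ * (Bᵀ * dᵀ * A⁻¹)
            = A * (a + R * c) * (B⁻¹ᵀ * Bᵀ) * dᵀ * A⁻¹ := by simp only [Matrix.mul_assoc]
          _ = _ := by rw [hBB, Matrix.mul_one]; simp only [Matrix.mul_assoc]
      have e2 : Δ * (-(B⁻¹ * cᵀ * A⁻¹)) = -(A * ((b + R * d) * cᵀ) * A⁻¹) := by
        rw [← hq, Matrix.mul_neg]
        congr 1
        calc A * (b + R * d) * B * (B⁻¹ * cᵀ * A⁻¹)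
            = A * (b + R * d) * (B * B⁻¹) * cᵀ * A⁻¹ := by simp only [Matrix.mul_assoc]
          _ = _ := by
            rw [Matrix.mul_nonsing_inv _ hBu, Matrix.mul_one]; simp only [Matrix.mul_assoc]
      have e3 : (a + R * c) * dᵀ - (b + R * d) * cᵀ = 1 := by
        have : (a + R * c) * dᵀ - (b + R * d) * cᵀ = (a * dᵀ - b * cᵀ) +
            R * (c * dᵀ - d * cᵀ) := by
          simp only [Matrix.add_mul, Matrix.mul_sub, Matrix.mul_assoc]
          abel
        rw [this, hr3, hr2, sub_self, Matrix.mul_zero, add_zero]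
      rw [e1, e2, ← sub_eq_add_neg, ← Matrix.sub_mul, ← Matrix.mul_sub, e3, Matrix.mul_one,
        Matrix.mul_nonsing_inv _ hAu]
    set P := Bᵀ * dᵀ * A⁻¹ with hP
    set Q := -(B⁻¹ * cᵀ * A⁻¹) with hQ
    have h2 := congrFun (congrFun h1 0) 0
    rw [Matrix.add_apply, Matrix.one_apply_eq, hΔ, Matrix.diagonal_mul, if_pos rfl,
      Matrix.mul_apply, Fin.sum_univ_succ] at h2
    have h3 : ∀ j : Fin (m + 2), a' 0 j.succ = q * a' j.succ 0 := by
      intro j
      have := congrFun (congrFun hsym 0) j.succ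
      rw [hΔ, Matrix.mul_diagonal, Matrix.diagonal_mul, Matrix.transpose_apply,
        if_neg (Fin.succ_ne_zero j), if_pos rfl, mul_one] at this
      exact this
    refine ⟨P 0 0, (∑ j : Fin (m + 2), a' j.succ 0 * P j.succ 0) + Q 0 0, ?_⟩
    have h4 : ∑ j : Fin (m + 2), a' 0 j.succ * P j.succ 0 =
        q * ∑ j : Fin (m + 2), a' j.succ 0 * P j.succ 0 := by
      rw [Finset.mul_sum]
      exact Finset.sum_congr rfl fun j _ => by rw [h3]; ring
    rw [h4] at h2
    linear_combination h2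
  obtain ⟨W', hW', hdet⟩ := siegel_solve a' q hsym hcop
  refine ⟨R, B * W' * Bᵀ, hR, ?_, ?_⟩
  · simp only [Matrix.transpose_mul, Matrix.transpose_transpose, hW', Matrix.mul_assoc]
  · have e1 : A * (a + R * c + (b + R * d) * (B * W' * Bᵀ)) * B⁻¹ᵀ = a' + Δ * W' := by
      rw [ha', ← hq]
      calc A * (a + R * c + (b + R * d) * (B * W' * Bᵀ)) * B⁻¹ᵀ
          = A * (a + R * c) * B⁻¹ᵀ + A * (b + R * d) * B * W' * (Bᵀ * B⁻¹ᵀ) := by
            simp only [Matrix.add_mul, Matrix.mul_add, Matrix.mul_assoc]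
        _ = _ := by rw [hBB', Matrix.mul_one]
    have e2 := congrArg Matrix.det e1
    rw [Matrix.det_mul, Matrix.det_mul, hA, one_mul, Matrix.det_transpose,
      Matrix.det_nonsing_inv, hB, Ring.inverse_one, mul_one] at e2
    rw [e2]
    exact hdet

end Pool.Agent.K6.H19.UT
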