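import Pool.Agent.K6.H19.UT.Siegel

/-!
# Unitriangular factorisation of symplectic matrices
-/

set_option linter.unusedSectionVars false
set_option linter.unusedSimpArgs false

namespace Pool.Agent.K6.H19.UT

open Matrix

variable {n : ℕ}

/-- Siegel unipotents and Levi elements. -/
def XM (R : Matrix (Fin n) (Fin n) ℤ) : Matrix (Fin n ⊕ Fin n) (Fin n ⊕ Fin n) ℤ :=
  fromBlocks 1 R 0 1

/-- lower Siegel unipotents -/
def YM (W : Matrix (Fin n) (Fin n) ℤ) : Matrix (Fin n ⊕ Fin n) (Fin n ⊕ Fin n) ℤ :=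
  fromBlocks 1 0 W 1

/-- Levi elements -/
noncomputable def MM (A : Matrix (Fin n) (Fin n) ℤ) : Matrix (Fin n ⊕ Fin n) (Fin n ⊕ Fin n) ℤ :=
  fromBlocks A 0 0 A⁻¹ᵀ

lemma XM_mem {R : Matrix (Fin n) (Fin n) ℤ} (hR : Rᵀ = R) :
    XM R ∈ symplecticGroup (Fin n) ℤ := by
  rw [XM, SymplecticGroup.fromBlocks_mem_iff]
  simp [hR]

lemma YM_mem {W : Matrix (Fin n) (Fin n) ℤ} (hW : Wᵀ = W) :
    YM W ∈ symplecticGroup (Fin n) ℤ := by
  rw [YM, SymplecticGroup.fromBlocks_mem_iff]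
  simp [hW]

lemma MM_mem {A : Matrix (Fin n) (Fin n) ℤ} (hA : A.det = 1) :
    MM A ∈ symplecticGroup (Fin n) ℤ := by
  have hu : IsUnit A.det := by rw [hA]; norm_num
  rw [MM, SymplecticGroup.fromBlocks_mem_iff]
  refine ⟨by simp, by simp, ?_⟩
  rw [← Matrix.transpose_mul, Matrix.nonsing_inv_mul _ hu]
  simp

lemma XM_mul (R S : Matrix (Fin n) (Fin n) ℤ) : XM R * XM S = XM (R + S) := by
  rw [XM, XM, XM, Matrix.fromBlocks_multiply]
  simp [add_comm]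

lemma YM_mul (R S : Matrix (Fin n) (Fin n) ℤ) : YM R * YM S = YM (R + S) := by
  rw [YM, YM, YM, Matrix.fromBlocks_multiply]
  simp

lemma MM_mul (A B : Matrix (Fin n) (Fin n) ℤ) : MM A * MM B = MM (A * B) := by
  rw [MM, MM, MM, Matrix.fromBlocks_multiply]
  simp [Matrix.mul_inv_rev, Matrix.transpose_mul]

lemma XM_zero : XM (0 : Matrix (Fin n) (Fin n) ℤ) = 1 := by rw [XM, Matrix.fromBlocks_one]

lemma YM_zero : YM (0 : Matrix (Fin n) (Fin n) ℤ) = 1 := by rw [YM, Matrix.fromBlocks_one]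

lemma inv_transpose_mul {A : Matrix (Fin n) (Fin n) ℤ} (hA : A.det = 1) : A⁻¹ᵀ * Aᵀ = 1 := by
  have hu : IsUnit A.det := by rw [hA]; norm_num
  rw [← Matrix.transpose_mul, Matrix.mul_nonsing_inv _ hu, Matrix.transpose_one]

lemma transpose_mul_inv {A : Matrix (Fin n) (Fin n) ℤ} (hA : A.det = 1) : Aᵀ * A⁻¹ᵀ = 1 := by
  have hu : IsUnit A.det := by rw [hA]; norm_num
  rw [← Matrix.transpose_mul, Matrix.nonsing_inv_mul _ hu, Matrix.transpose_one]

lemma MM_YM {A : Matrix (Fin n) (Fin n) ℤ} (hA : A.det = 1) (Q : Matrix (Fin n) (Fin n) ℤ) :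
    MM A * YM (Aᵀ * Q * A) = YM Q * MM A := by
  rw [MM, YM, YM, Matrix.fromBlocks_multiply, Matrix.fromBlocks_multiply]
  simp only [Matrix.mul_zero, Matrix.zero_mul, Matrix.mul_one, Matrix.one_mul, add_zero, zero_add]
  congr 1
  calc A⁻¹ᵀ * (Aᵀ * Q * A) = (A⁻¹ᵀ * Aᵀ) * Q * A := by simp only [Matrix.mul_assoc]
    _ = _ := by rw [inv_transpose_mul hA, Matrix.one_mul]

lemma XM_MM {A : Matrix (Fin n) (Fin n) ℤ} (hA : A.det = 1) (P : Matrix (Fin n) (Fin n) ℤ) :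
    XM (A * P * Aᵀ) * MM A = MM A * XM P := by
  rw [MM, XM, XM, Matrix.fromBlocks_multiply, Matrix.fromBlocks_multiply]
  simp only [Matrix.mul_zero, Matrix.zero_mul, Matrix.mul_one, Matrix.one_mul, add_zero, zero_add]
  congr 1
  rw [Matrix.mul_assoc, transpose_mul_inv hA, Matrix.mul_one]

/-- The upper unipotent elements of the symplectic group. -/
def SpU (n : ℕ) : Set (symplecticGroup (Fin n) ℤ) :=
  {g | (∀ i j, g.1 (Sum.inr i) (Sum.inl j) = 0) ∧ (∀ i, g.1 (Sum.inl i) (Sum.inl i) = 1) ∧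
    ∀ i j, j < i → g.1 (Sum.inl i) (Sum.inl j) = 0}

/-- The lower unipotent elements of the symplectic group. -/
def SpUm (n : ℕ) : Set (symplecticGroup (Fin n) ℤ) :=
  {g | (∀ i j, g.1 (Sum.inl i) (Sum.inr j) = 0) ∧ (∀ i, g.1 (Sum.inl i) (Sum.inl i) = 1) ∧
    ∀ i j, i < j → g.1 (Sum.inl i) (Sum.inl j) = 0}

/-- The factorisation of a symplectic matrix from a factorisation of the Siegel block. -/
theorem sp_factor {n : ℕ} (g : Matrix (Fin n ⊕ Fin n) (Fin n ⊕ Fin n) ℤ)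
    (hg : g ∈ symplecticGroup (Fin n) ℤ)
    {R W : Matrix (Fin n) (Fin n) ℤ} (hR : Rᵀ = R) (hW : Wᵀ = W)
    (hL : Good (fun i : Fin n => (i : ℕ)) (g.toBlocks₁₁ + R * g.toBlocks₂₁ +
      (g.toBlocks₁₂ + R * g.toBlocks₂₂) * W)) :
    ∃ x ∈ SpU n, ∃ y ∈ SpUm n, ∃ z ∈ SpU n, ∃ w ∈ SpUm n, (⟨g, hg⟩ : symplecticGroup (Fin n) ℤ) =
      x * y * (z * w) := by
  have hinj : Function.Injective (fun i : Fin n => (i : ℕ)) := fun _ _ h => Fin.ext h
  set L := g.toBlocks₁₁ + R * g.toBlocks₂₁ + (g.toBlocks₁₂ + R * g.toBlocks₂₂) * W with hLdef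
  have hLd : L.det = 1 := Good.det hinj hL
  have hLu : IsUnit L.det := by rw [hLd]; norm_num
  obtain ⟨u1, v1, u2, v2, hu1, hv1, hu2, hv2, hLe⟩ := hL
  set β := g.toBlocks₁₂ + R * g.toBlocks₂₂ with hβ
  set κ := g.toBlocks₂₁ + g.toBlocks₂₂ * W with hκ
  set δ := g.toBlocks₂₂ with hδ
  have hh : XM R * g * YM W = fromBlocks L β κ δ := by
    conv_lhs => rw [← Matrix.fromBlocks_toBlocks g]
    rw [XM, YM, Matrix.fromBlocks_multiply, Matrix.fromBlocks_multiply]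
    simp only [Matrix.mul_zero, Matrix.zero_mul, Matrix.mul_one, Matrix.one_mul, add_zero,
      zero_add]
    rfl
  have hmem : fromBlocks L β κ δ ∈ symplecticGroup (Fin n) ℤ := by
    rw [← hh]
    exact mul_mem (mul_mem (XM_mem hR) hg) (YM_mem hW)
  have hcol := SymplecticGroup.fromBlocks_mem_iff.mp hmem
  have hT := SymplecticGroup.transpose_mem hmem
  rw [Matrix.fromBlocks_transpose] at hT
  have hrow := SymplecticGroup.fromBlocks_mem_iff.mp hT
  simp only [Matrix.transpose_transpose] at hrow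
  obtain ⟨hc1, hc2, hc3⟩ := hcol
  obtain ⟨hr1, -, -⟩ := hrow
  -- symmetric matrices
  set Q := κ * L⁻¹ with hQ
  set P := L⁻¹ * β with hP
  have hQs : Qᵀ = Q := by
    rw [hQ, Matrix.transpose_mul]
    have h1 : L⁻¹ᵀ * (κᵀ * L) * L⁻¹ = L⁻¹ᵀ * κᵀ := by
      rw [Matrix.mul_assoc, Matrix.mul_assoc κᵀ, Matrix.mul_nonsing_inv _ hLu, Matrix.mul_one]
    rw [← h1, ← hc1, ← Matrix.mul_assoc, inv_transpose_mul hLd, Matrix.one_mul]
  have hPs : Pᵀ = P := by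
    rw [hP, Matrix.transpose_mul]
    have h1 : L⁻¹ * (L * βᵀ) * L⁻¹ᵀ = βᵀ * L⁻¹ᵀ := by
      rw [← Matrix.mul_assoc, Matrix.nonsing_inv_mul _ hLu, Matrix.one_mul]
    rw [← h1, hr1, Matrix.mul_assoc, Matrix.mul_assoc β, transpose_mul_inv hLd, Matrix.mul_one]
  have hβ' : L * P = β := by
    rw [hP, ← Matrix.mul_assoc, Matrix.mul_nonsing_inv _ hLu, Matrix.one_mul]
  have hκ' : Q * L = κ := by
    rw [hQ, Matrix.mul_assoc, Matrix.nonsing_inv_mul _ hLu, Matrix.mul_one]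
  have hδ' : δ = L⁻¹ᵀ + Q * β := by
    have h1 : L⁻¹ᵀ * (Lᵀ * δ - κᵀ * β) = L⁻¹ᵀ := by rw [hc3, Matrix.mul_one]
    rw [Matrix.mul_sub, ← Matrix.mul_assoc, inv_transpose_mul hLd, Matrix.one_mul] at h1
    have h2 : L⁻¹ᵀ * (κᵀ * β) = Q * β := by
      rw [← Matrix.mul_assoc, ← Matrix.transpose_mul]
      rw [← hQ, hQs]
    rw [h2] at h1
    rw [← h1]; abel
  have hmid : YM Q * MM L * XM P = fromBlocks L β κ δ := by
    rw [YM, MM, XM, Matrix.fromBlocks_multiply, Matrix.fromBlocks_multiply]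
    simp only [Matrix.mul_zero, Matrix.zero_mul, Matrix.mul_one, Matrix.one_mul, add_zero,
      zero_add]
    rw [hβ', hκ', hδ']
    congr 1
    rw [← hκ', Matrix.mul_assoc, hβ']
    abel
  have du1 := hu1.det hinj
  have dv1 := hv1.det hinj
  have du2 := hu2.det hinj
  have dv2 := hv2.det hinj
  have hgeq : g = XM (-R) * (YM Q * MM L * XM P) * YM (-W) := by
    rw [hmid, ← hh]
    calc g = (XM (-R) * XM R) * g * (YM W * YM (-W)) := by
          rw [XM_mul, YM_mul]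
          simp [XM_zero, YM_zero]
      _ = _ := by simp only [Matrix.mul_assoc]
  have hQ's : (u1ᵀ * Q * u1)ᵀ = u1ᵀ * Q * u1 := by
    simp only [Matrix.transpose_mul, Matrix.transpose_transpose, hQs, Matrix.mul_assoc]
  have hP's : (v2 * P * v2ᵀ)ᵀ = v2 * P * v2ᵀ := by
    simp only [Matrix.transpose_mul, Matrix.transpose_transpose, hPs, Matrix.mul_assoc]
  have hRn : (-R)ᵀ = -R := by rw [Matrix.transpose_neg, hR]
  have hWn : (-W)ᵀ = -W := by rw [Matrix.transpose_neg, hW]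
  refine ⟨⟨XM (-R) * MM u1, mul_mem (XM_mem hRn) (MM_mem du1)⟩, ?_,
    ⟨YM (u1ᵀ * Q * u1) * MM v1, mul_mem (YM_mem hQ's) (MM_mem dv1)⟩, ?_,
    ⟨MM u2 * XM (v2 * P * v2ᵀ), mul_mem (MM_mem du2) (XM_mem hP's)⟩, ?_,
    ⟨MM v2 * YM (-W), mul_mem (MM_mem dv2) (YM_mem hWn)⟩, ?_, ?_⟩
  · have : XM (-R) * MM u1 = fromBlocks u1 (-R * u1⁻¹ᵀ) 0 u1⁻¹ᵀ := by
      rw [XM, MM, Matrix.fromBlocks_multiply]; simp
    refine ⟨fun i j => ?_, fun i => ?_, fun i j hij => ?_⟩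
    · simp only [this]; rfl
    · simp only [this]; exact hu1.1 i
    · simp only [this]; exact hu1.2 i j hij
  · have : YM (u1ᵀ * Q * u1) * MM v1 = fromBlocks v1 0 (u1ᵀ * Q * u1 * v1) v1⁻¹ᵀ := by
      rw [YM, MM, Matrix.fromBlocks_multiply]; simp
    refine ⟨fun i j => ?_, fun i => ?_, fun i j hij => ?_⟩
    · simp only [this]; rfl
    · simp only [this]; exact hv1.1 i
    · simp only [this]; exact hv1.2 i j hij
  · have : MM u2 * XM (v2 * P * v2ᵀ) = fromBlocks u2 (u2 * (v2 * P * v2ᵀ)) 0 u2⁻¹ᵀ := by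
      rw [XM, MM, Matrix.fromBlocks_multiply]; simp
    refine ⟨fun i j => ?_, fun i => ?_, fun i j hij => ?_⟩
    · simp only [this]; rfl
    · simp only [this]; exact hu2.1 i
    · simp only [this]; exact hu2.2 i j hij
  · have : MM v2 * YM (-W) = fromBlocks v2 0 (v2⁻¹ᵀ * -W) v2⁻¹ᵀ := by
      rw [YM, MM, Matrix.fromBlocks_multiply]; simp
    refine ⟨fun i j => ?_, fun i => ?_, fun i j hij => ?_⟩
    · simp only [this]; rfl
    · simp only [this]; exact hv2.1 i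
    · simp only [this]; exact hv2.2 i j hij
  · apply Subtype.ext
    change g = XM (-R) * MM u1 * (YM (u1ᵀ * Q * u1) * MM v1) *
      (MM u2 * XM (v2 * P * v2ᵀ) * (MM v2 * YM (-W)))
    calc g = XM (-R) * (YM Q * MM L * XM P) * YM (-W) := hgeq
      _ = XM (-R) * (YM Q * (MM u1 * MM v1 * MM u2 * MM v2) * XM P) * YM (-W) := by
          rw [MM_mul, MM_mul, MM_mul, ← hLe]
      _ = XM (-R) * (YM Q * MM u1) * MM v1 * MM u2 * (MM v2 * XM P) * YM (-W) := by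
          simp only [Matrix.mul_assoc]
      _ = _ := by
          rw [← MM_YM du1, ← XM_MM dv2]
          simp only [Matrix.mul_assoc]

end Pool.Agent.K6.H19.UT
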