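import Pool.Agent.K6.H19.UT.Basic

/-!
# Unitriangular factorisations: padded matrices and single steps
-/

set_option linter.unusedSectionVars false
set_option linter.unusedSimpArgs false

namespace Pool.Agent.K6.H19.UT

open Matrix

/-- The rank function of `Fin n ⊕ Fin k`. -/
def rk (n k : ℕ) : Fin n ⊕ Fin k → ℕ := Sum.elim (fun i => (i : ℕ)) (fun j => n + (j : ℕ))

lemma rk_inj (n k : ℕ) : Function.Injective (rk n k) := by
  rintro (i | i) (j | j) h
  · simp only [rk, Sum.elim_inl] at h; rw [Fin.ext h]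
  · simp only [rk, Sum.elim_inl, Sum.elim_inr] at h; omega
  · simp only [rk, Sum.elim_inl, Sum.elim_inr] at h; omega
  · simp only [rk, Sum.elim_inr] at h; rw [Fin.ext (by omega : (i : ℕ) = j)]

/-- `M ⊕ 1_k` is a product upper * lower * upper * lower. -/
def GP (k : ℕ) {n : ℕ} (M : Matrix (Fin n) (Fin n) ℤ) : Prop :=
  Good (rk n k) (fromBlocks M 0 0 (1 : Matrix (Fin k) (Fin k) ℤ))

lemma GP_zero_iff {n : ℕ} {M : Matrix (Fin n) (Fin n) ℤ} :
    GP 0 M ↔ Good (fun i : Fin n => (i : ℕ)) M := by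
  have e := Good.of_equiv (Equiv.sumEmpty (Fin n) (Fin 0)) (r := rk n 0)
    (s := fun i : Fin n => (i : ℕ)) (M := M) ?_
  · rw [← e]
    unfold GP
    have : M.submatrix (Equiv.sumEmpty (Fin n) (Fin 0)) (Equiv.sumEmpty (Fin n) (Fin 0)) =
        fromBlocks M 0 0 1 := by
      ext (i | i) (j | j)
      · rfl
      · exact j.elim0
      · exact i.elim0
      · exact i.elim0
    rw [this]
  · rintro (i | i) (j | j)
    · rfl
    · exact j.elim0
    · exact i.elim0
    · exact i.elim0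

/-- The index bijection for a step. -/
def eStep (n k : ℕ) : Unit ⊕ (Fin n ⊕ Fin k) ≃ Fin (n + 1) ⊕ Fin k where
  toFun := Sum.elim (fun _ => Sum.inl 0) (Sum.elim (fun i => Sum.inl i.succ) Sum.inr)
  invFun := Sum.elim (Fin.cases (Sum.inl ()) (fun i => Sum.inr (Sum.inl i)))
    (fun j => Sum.inr (Sum.inr j))
  left_inv := by rintro (_ | _ | _) <;> simp
  right_inv := by
    rintro (i | j)
    · refine Fin.cases ?_ (fun i => ?_) i <;> simp
    · simp

/-- **The single step.**  -/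
theorem GP.step {n k : ℕ} (g : Matrix (Fin (n + 1)) (Fin (n + 1)) ℤ) (x y : Fin (n + 1) → ℤ)
    (hx : x 0 = 1) (hy : y 0 = 1) (h : x ⬝ᵥ (g *ᵥ y) = 1)
    (hS : GP k (Matrix.of fun i j : Fin n =>
      g i.succ j.succ - (g *ᵥ y) i.succ * (x ᵥ* g) j.succ)) : GP k g := by
  set G : Matrix (Fin (n + 1) ⊕ Fin k) (Fin (n + 1) ⊕ Fin k) ℤ := fromBlocks g 0 0 1 with hG
  let r0 : Unit → ℕ := fun _ => 0
  let s0 : Fin n ⊕ Fin k → ℕ := fun i => 1 + rk n k i
  have hord : ∀ i j, Sum.elim r0 s0 i < Sum.elim r0 s0 j ↔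
      rk (n + 1) k (eStep n k i) < rk (n + 1) k (eStep n k j) := by
    rintro (_ | _ | _) (_ | _ | _) <;> simp [r0, s0, rk, eStep] <;> omega
  unfold GP
  rw [← Good.of_equiv (eStep n k) hord]
  set A : Matrix Unit Unit ℤ := Matrix.of fun _ _ => g 0 0 with hA
  set B : Matrix Unit (Fin n ⊕ Fin k) ℤ :=
    Matrix.of fun _ j => Sum.elim (fun j : Fin n => g 0 j.succ) (fun _ => 0) j with hB
  set C : Matrix (Fin n ⊕ Fin k) Unit ℤ :=
    Matrix.of fun i _ => Sum.elim (fun i : Fin n => g i.succ 0) (fun _ => 0) i with hC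
  set D : Matrix (Fin n ⊕ Fin k) (Fin n ⊕ Fin k) ℤ :=
    fromBlocks (Matrix.of fun i j : Fin n => g i.succ j.succ) 0 0 1 with hD
  have hsub : (fromBlocks g 0 0 (1 : Matrix (Fin k) (Fin k) ℤ)).submatrix (eStep n k)
      (eStep n k) = fromBlocks A B C D := by
    ext (_ | i | i) (_ | j | j) <;> simp [A, B, C, D, eStep]
  rw [hsub]
  set R : Matrix Unit (Fin n ⊕ Fin k) ℤ :=
    Matrix.of fun _ j => Sum.elim (fun j : Fin n => x j.succ) (fun _ => 0) j with hR
  set W : Matrix (Fin n ⊕ Fin k) Unit ℤ :=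
    Matrix.of fun i _ => Sum.elim (fun i : Fin n => y i.succ) (fun _ => 0) i with hW
  have hβ : B + R * D = Matrix.of fun _ j =>
      Sum.elim (fun j : Fin n => (x ᵥ* g) j.succ) (fun _ => 0) j := by
    ext i (j | j)
    · simp [B, R, D, Matrix.mul_apply, Fintype.sum_sum_type, Matrix.vecMul, dotProduct,
        Fin.sum_univ_succ, hx]
    · simp [B, R, D, Matrix.mul_apply, Fintype.sum_sum_type]
  have hκ : C + D * W = Matrix.of fun i _ =>
      Sum.elim (fun i : Fin n => (g *ᵥ y) i.succ) (fun _ => 0) i := by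
    ext (i | i) j
    · simp [C, W, D, Matrix.mul_apply, Fintype.sum_sum_type, Matrix.mulVec, dotProduct,
        Fin.sum_univ_succ, hy]
    · simp [C, W, D, Matrix.mul_apply, Fintype.sum_sum_type]
  have hL : A + R * C + (B + R * D) * W = 1 := by
    rw [hβ]
    ext i j
    have h' : (x ᵥ* g) ⬝ᵥ y = 1 := by rw [← Matrix.dotProduct_mulVec]; exact h
    simp only [dotProduct, Fin.sum_univ_succ, hy, mul_one] at h'
    have h0 : (x ᵥ* g) 0 = g 0 0 + ∑ i : Fin n, x i.succ * g i.succ 0 := by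
      simp [Matrix.vecMul, dotProduct, Fin.sum_univ_succ, hx]
    simp only [A, R, C, W, Matrix.add_apply, Matrix.mul_apply, Fintype.sum_sum_type,
      Matrix.of_apply, Sum.elim_inl, Sum.elim_inr, mul_zero, zero_mul, Finset.sum_const_zero,
      add_zero, Matrix.one_apply_eq]
    rw [← h0]
    exact h'
  refine Good.block (fun _ _ _ => rfl) (fun i j hij => rk_inj n k (by simpa [s0] using hij))
    (fun i j => by simp [r0, s0]) A B C D R W 1 1 hL.symm (by simp) (Good.one _) ?_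
  rw [hβ, hκ]
  have hs0 : ∀ i j, s0 i < s0 j ↔ rk n k i < rk n k j := by
    intro i j; simp [s0]
  rw [Good.congr_rank hs0]
  unfold GP at hS
  convert hS using 1
  ext (i | i) (j | j)
  · simp [D, Matrix.mul_apply]
  · simp [D, Matrix.mul_apply]
  · simp [D, Matrix.mul_apply]
  · simp [D, Matrix.mul_apply]

/-- The index bijection for splitting off the last index. -/
def eLast (n k : ℕ) : Fin n ⊕ Fin (k + 1) ≃ Fin (n + 1) ⊕ Fin k where
  toFun := Sum.elim (fun i => Sum.inl i.castSucc)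
    (Fin.cases (Sum.inl (Fin.last n)) (fun j => Sum.inr j))
  invFun := Sum.elim (Fin.lastCases (Sum.inr 0) (fun i => Sum.inl i))
    (fun j => Sum.inr j.succ)
  left_inv := by
    rintro (i | j)
    · simp
    · refine Fin.cases ?_ (fun i => ?_) j <;> simp
  right_inv := by
    rintro (i | j)
    · refine Fin.lastCases ?_ (fun i => ?_) i <;> simp
    · simp

/-- If the last diagonal entry is one, it may be split off. -/
theorem GP.last {n k : ℕ} (g : Matrix (Fin (n + 1)) (Fin (n + 1)) ℤ)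
    (h1 : g (Fin.last n) (Fin.last n) = 1)
    (hS : GP (k + 1) (Matrix.of fun i j : Fin n =>
      g i.castSucc j.castSucc - g i.castSucc (Fin.last n) * g (Fin.last n) j.castSucc)) :
    GP k g := by
  have hord : ∀ i j, rk n (k + 1) i < rk n (k + 1) j ↔
      rk (n + 1) k (eLast n k i) < rk (n + 1) k (eLast n k j) := by
    rintro (i | i) (j | j)
    · simp [rk, eLast]
    · refine Fin.cases ?_ (fun j => ?_) j <;> simp [rk, eLast] <;> omega
    · refine Fin.cases ?_ (fun i => ?_) i <;> simp [rk, eLast] <;> omega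
    · refine Fin.cases ?_ (fun i => ?_) i <;> refine Fin.cases ?_ (fun j => ?_) j <;>
        simp [rk, eLast] <;> omega
  unfold GP
  rw [← Good.of_equiv (eLast n k) hord]
  set B : Matrix (Fin n) (Fin (k + 1)) ℤ :=
    Matrix.of fun i j => Fin.cases (g i.castSucc (Fin.last n)) (fun _ => 0) j with hB
  set C : Matrix (Fin (k + 1)) (Fin n) ℤ :=
    Matrix.of fun i j => Fin.cases (g (Fin.last n) j.castSucc) (fun _ => 0) i with hC
  have hX : Up (rk n (k + 1)) (fromBlocks 1 B 0 1) := by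
    refine ⟨?_, ?_⟩
    · rintro (i | i) <;> simp
    · rintro (i | i) (j | j) h
      · rw [Matrix.fromBlocks_apply₁₁, Matrix.one_apply_ne]
        rintro rfl; exact lt_irrefl _ h
      · simp only [rk, Sum.elim_inl, Sum.elim_inr] at h; omega
      · rfl
      · rw [Matrix.fromBlocks_apply₂₂, Matrix.one_apply_ne]
        rintro rfl; exact lt_irrefl _ h
  have hY : Lo (rk n (k + 1)) (fromBlocks 1 0 C 1) := by
    refine ⟨?_, ?_⟩
    · rintro (i | i) <;> simp
    · rintro (i | i) (j | j) h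
      · rw [Matrix.fromBlocks_apply₁₁, Matrix.one_apply_ne]
        rintro rfl; exact lt_irrefl _ h
      · rfl
      · simp only [rk, Sum.elim_inl, Sum.elim_inr] at h; omega
      · rw [Matrix.fromBlocks_apply₂₂, Matrix.one_apply_ne]
        rintro rfl; exact lt_irrefl _ h
  have := (Good.mul_right (rk_inj _ _) hY (Good.mul_left (rk_inj _ _) hX hS))
  convert this using 1
  rw [Matrix.fromBlocks_multiply, Matrix.fromBlocks_multiply]
  simp only [Matrix.mul_zero, Matrix.zero_mul, Matrix.mul_one, Matrix.one_mul, add_zero, zero_add]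
  ext (i | i) (j | j)
  · simp [eLast, B, C, Matrix.mul_apply, Fin.sum_univ_succ]
  · refine Fin.cases ?_ (fun j => ?_) j <;> simp [eLast, B]
  · refine Fin.cases ?_ (fun i => ?_) i <;> simp [eLast, C]
  · refine Fin.cases ?_ (fun i => ?_) i <;> refine Fin.cases ?_ (fun j => ?_) j
    · simp [eLast, h1]
    · simp [eLast, Matrix.one_apply, Fin.ext_iff]
    · simp [eLast, Matrix.one_apply, Fin.ext_iff]
    · simp [eLast, Matrix.one_apply, Fin.ext_iff]

/-- Multiplying by a good matrix costs `q` ones. -/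
theorem GP.mul {q k : ℕ} {M S : Matrix (Fin q) (Fin q) ℤ} (hM : GP k M) (hS : GP 0 S) :
    GP (k + q) (M * S) := by
  rw [GP_zero_iff] at hS
  have hdet : M.det = 1 := by
    have := Good.det (rk_inj q k) hM
    simpa using this
  have hu : IsUnit M.det := by rw [hdet]; norm_num
  -- reassociation
  let e : (Fin q ⊕ Fin k) ⊕ Fin q ≃ Fin q ⊕ Fin (k + q) :=
    (Equiv.sumAssoc _ _ _).trans (Equiv.sumCongr (Equiv.refl _) finSumFinEquiv)
  let s0 : Fin q → ℕ := fun i => q + k + (i : ℕ)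
  have hord : ∀ i j, Sum.elim (rk q k) s0 i < Sum.elim (rk q k) s0 j ↔
      rk q (k + q) (e i) < rk q (k + q) (e j) := by
    rintro ((i | i) | i) ((j | j) | j) <;>
      simp [e, s0, rk] <;> omega
  unfold GP
  rw [← Good.of_equiv e hord]
  have hsub : (fromBlocks (M * S) 0 0 (1 : Matrix (Fin (k + q)) (Fin (k + q)) ℤ)).submatrix e e =
      fromBlocks (fromBlocks (M * S) 0 0 1) 0 0 1 := by
    ext ((i | i) | i) ((j | j) | j) <;>
      simp [e, Matrix.one_apply, Fin.ext_iff] <;> omega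
  rw [hsub]
  have hL : fromBlocks M 0 0 1 = fromBlocks (M * S) 0 0 (1 : Matrix (Fin k) (Fin k) ℤ) +
      (fromRows (M * (1 - S)) 0 : Matrix (Fin q ⊕ Fin k) (Fin q) ℤ) *
        (0 : Matrix (Fin q) (Fin q ⊕ Fin k) ℤ) +
      ((0 : Matrix (Fin q ⊕ Fin k) (Fin q) ℤ) +
        (fromRows (M * (1 - S)) 0 : Matrix (Fin q ⊕ Fin k) (Fin q) ℤ) *
          (1 : Matrix (Fin q) (Fin q) ℤ)) *
        (fromCols 1 0 : Matrix (Fin q) (Fin q ⊕ Fin k) ℤ) := by
    rw [Matrix.mul_zero, add_zero, zero_add, Matrix.mul_one, fromRows_mul_fromCols,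
      Matrix.fromBlocks_add]
    simp [Matrix.mul_sub]
  refine Good.block (rk_inj q k) (fun i j hij => ?_) (fun i j => ?_) _ _ _ _ _ _ _
    (fromBlocks M⁻¹ 0 0 1) hL ?_ hM ?_
  · simp only [s0] at hij; exact Fin.ext (by omega)
  · rcases i with i | i <;> simp [rk, s0] <;> omega
  · rw [Matrix.fromBlocks_multiply]
    simp [Matrix.mul_nonsing_inv _ hu]
  · have : (1 : Matrix (Fin q) (Fin q) ℤ) - ((0 : Matrix (Fin q) (Fin q ⊕ Fin k) ℤ) +
        (1 : Matrix (Fin q) (Fin q) ℤ) * (fromCols 1 0 : Matrix (Fin q) (Fin q ⊕ Fin k) ℤ)) *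
        (fromBlocks M⁻¹ 0 0 1 : Matrix (Fin q ⊕ Fin k) (Fin q ⊕ Fin k) ℤ) * ((0 : Matrix (Fin q ⊕ Fin k) (Fin q) ℤ) +
        (fromRows (M * (1 - S)) 0 : Matrix (Fin q ⊕ Fin k) (Fin q) ℤ) *
          (1 : Matrix (Fin q) (Fin q) ℤ)) = S := by
      rw [zero_add, zero_add, Matrix.one_mul, Matrix.mul_one, fromCols_mul_fromBlocks,
        fromCols_mul_fromRows]
      simp only [Matrix.one_mul, Matrix.mul_zero, Matrix.zero_mul, add_zero]
      rw [← Matrix.mul_assoc, Matrix.nonsing_inv_mul _ hu, Matrix.one_mul]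
      abel
    rw [this]
    have hs0 : ∀ i j, s0 i < s0 j ↔ (i : ℕ) < (j : ℕ) := by
      intro i j; simp [s0]
    rw [Good.congr_rank hs0]
    exact hS

end Pool.Agent.K6.H19.UT
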